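import Pool.Agent.MP_291ce2_pr.Defs

set_option autoImplicit false

namespace Pool.Agent.MP_291ce2_pr

open Finset
open scoped Classical

variable {n : ℕ}

private theorem bsl_split (i : Fin n) (f : X n → ℝ) :
    ∑ y, f y = ∑ y ∈ lo i, (f (up i y) + f y) := by
  rw [sum_add_distrib]
  have h1 : ∑ y, f y = ∑ y ∈ univ.filter (fun y : X n => y i = false), f y +
      ∑ y ∈ univ.filter (fun y : X n => ¬ y i = false), f y :=
    (sum_filter_add_sum_filter_not univ (fun y : X n => y i = false) f).symm
  rw [h1, add_comm]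
  congr 1
  refine (sum_bij' (fun y _ => up i y) (fun y _ => dn i y) ?_ ?_ ?_ ?_ ?_).symm
  · intro y _
    simp [up]
  · intro y _
    simp [lo, dn]
  · intro y hy
    have : y i = false := by simpa [lo] using hy
    simp only [up, dn, Function.update_idem]
    rw [← this, Function.update_eq_self]
  · intro y hy
    have : y i = true := by simpa using hy
    simp only [up, dn, Function.update_idem]
    rw [← this, Function.update_eq_self]
  · intro y _
    rfl

private theorem bsl_Qk (t : ℝ) (i : Fin n) (x y : X n) :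
    Qk t x y = q t (x i) (y i) * Qo t i x y := by
  rw [Qk, Qo, mul_prod_erase univ (fun j => q t (x j) (y j)) (mem_univ i)]

private theorem bsl_Qo_up (t : ℝ) (i : Fin n) (x y : X n) :
    Qo t i x (up i y) = Qo t i x y := by
  rw [Qo, Qo]
  refine prod_congr rfl fun j hj => ?_
  rw [up, Function.update_of_ne (ne_of_mem_erase hj)]

/-- score -/
private noncomputable def zt (t : ℝ) (i : Fin n) (y : X n) : ℝ :=
  if y i = true then 1 / t else - (1 / (1 - t))

private theorem bsl_score {t : ℝ} (ht : 0 < t) (ht1 : t < 1) (x : X n) (i : Fin n)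
    (hi : x i = false) (G : X n → ℝ) :
    ∑ y, Qk t x y * (G y * zt t i y) = ∑ y ∈ lo i, Qo t i x y * (G (up i y) - G y) := by
  rw [bsl_split i]
  refine sum_congr rfl fun y hy => ?_
  have h1 : y i = false := by simpa [lo] using hy
  have h2 : up i y i = true := by simp [up]
  have ht' : t ≠ 0 := ht.ne'
  have ht1' : 1 - t ≠ 0 := by linarith
  rw [bsl_Qk t i x (up i y), bsl_Qk t i x y, bsl_Qo_up, zt, zt, h1, h2, hi, if_pos rfl,
    if_neg (by simp), q, q, if_neg (by simp), if_pos rfl]
  field_simp
  ring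

private theorem bsl_row (t : ℝ) (x : X n) : ∑ y, Qk t x y = 1 := by
  have h1 : ∀ j : Fin n, ∑ b : Bool, q t (x j) b = 1 := by
    intro j
    rw [Fintype.sum_bool]
    cases x j <;> simp [q]
  have h2 := Finset.prod_univ_sum (fun _ : Fin n => (univ : Finset Bool))
    (fun j b => q t (x j) b)
  rw [Fintype.piFinset_univ, prod_congr rfl fun j _ => h1 j, prod_const_one] at h2
  rw [h2]
  rfl

private theorem bsl_Qo_row (t : ℝ) (x : X n) (i : Fin n) (hi : x i = false) :
    ∑ y ∈ lo i, Qo t i x y = 1 := by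
  rw [← bsl_row t x, bsl_split i]
  refine sum_congr rfl fun y hy => ?_
  have h1 : y i = false := by simpa [lo] using hy
  have h2 : up i y i = true := by simp [up]
  rw [bsl_Qk t i x (up i y), bsl_Qk t i x y, bsl_Qo_up, h1, h2, hi, q, q, if_neg (by simp),
    if_pos rfl]
  ring

private theorem bsl_nonneg {t : ℝ} (ht : 0 < t) (ht1 : t < 1) (x y : X n) : 0 ≤ Qk t x y := by
  rw [Qk]
  refine prod_nonneg fun j _ => ?_
  rw [q]
  split_ifs <;> linarith

theorem bessel {F : X n → ℝ} (h0 : ∀ x, 0 ≤ F x) (h1 : ∀ x, F x ≤ 1) {t : ℝ} (ht : 0 < t)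
    (ht1 : t < 1) (x : X n) :
    ∑ i ∈ univ.filter (fun i => x i = false),
      (∑ y ∈ lo i, Qo t i x y * (F (up i y) - F y)) ^ 2 ≤ 1 / (t * (1 - t)) := by
  set I := univ.filter (fun i : Fin n => x i = false) with hI
  set c : Fin n → ℝ := fun i => ∑ y ∈ lo i, Qo t i x y * (F (up i y) - F y) with hc
  set s : ℝ := 1 / (t * (1 - t)) with hs
  have ht' : t ≠ 0 := ht.ne'
  have ht1' : 1 - t ≠ 0 := by linarith
  have hspos : 0 < s := by
    rw [hs]
    have : 0 < 1 - t := by linarith
    positivity
  -- the inner products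
  have hF : ∀ i ∈ I, ∑ y, Qk t x y * (F y * zt t i y) = c i := by
    intro i hi
    have hi' : x i = false := by simpa [hI] using hi
    exact bsl_score ht ht1 x i hi' F
  have hne : ∀ i ∈ I, ∀ j, j ≠ i → ∑ y, Qk t x y * (zt t j y * zt t i y) = 0 := by
    intro i hi j hj
    have hi' : x i = false := by simpa [hI] using hi
    rw [bsl_score ht ht1 x i hi' (zt t j)]
    refine sum_eq_zero fun y _ => ?_
    have : zt t j (up i y) = zt t j y := by
      rw [zt, zt, up, Function.update_of_ne hj]
    rw [this, sub_self, mul_zero]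
  have heq : ∀ i ∈ I, ∑ y, Qk t x y * (zt t i y * zt t i y) = s := by
    intro i hi
    have hi' : x i = false := by simpa [hI] using hi
    rw [bsl_score ht ht1 x i hi' (zt t i)]
    have : ∀ y ∈ lo i, Qo t i x y * (zt t i (up i y) - zt t i y) = Qo t i x y * s := by
      intro y hy
      have h1 : y i = false := by simpa [lo] using hy
      have h2 : up i y i = true := by simp [up]
      rw [zt, zt, h1, h2, if_pos rfl, if_neg (by simp), hs]
      congr 1
      field_simp
      ring
    rw [sum_congr rfl this, ← sum_mul, bsl_Qo_row t x i hi', one_mul]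
  set T : X n → ℝ := fun y => ∑ i ∈ I, c i * zt t i y with hT
  set C : ℝ := ∑ i ∈ I, c i ^ 2 with hC
  have hFT : ∑ y, Qk t x y * (F y * T y) = C := by
    have h2 : ∀ y, Qk t x y * (F y * T y) = ∑ i ∈ I, c i * (Qk t x y * (F y * zt t i y)) := by
      intro y
      rw [hT]
      simp only
      rw [mul_sum, mul_sum]
      refine sum_congr rfl fun i _ => ?_
      ring
    rw [sum_congr rfl fun y _ => h2 y, sum_comm, hC]
    refine sum_congr rfl fun i hi => ?_
    rw [← mul_sum, hF i hi]
    ring
  have hTi : ∀ i ∈ I, ∑ y, Qk t x y * (T y * zt t i y) = c i * s := by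
    intro i hi
    have h2 : ∀ y, Qk t x y * (T y * zt t i y) =
        ∑ j ∈ I, c j * (Qk t x y * (zt t j y * zt t i y)) := by
      intro y
      rw [hT]
      simp only
      rw [sum_mul, mul_sum]
      refine sum_congr rfl fun i _ => ?_
      ring
    rw [sum_congr rfl fun y _ => h2 y, sum_comm]
    rw [sum_congr rfl fun j _ => (mul_sum univ _ (c j)).symm]
    rw [sum_eq_single i]
    · rw [heq i hi]
    · intro j _ hj
      rw [hne i hi j hj, mul_zero]
    · intro h; exact absurd hi h
  have hTT : ∑ y, Qk t x y * (T y * T y) = s * C := by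
    have h2 : ∀ y, Qk t x y * (T y * T y) = ∑ i ∈ I, c i * (Qk t x y * (T y * zt t i y)) := by
      intro y
      have : T y = ∑ i ∈ I, c i * zt t i y := rfl
      conv_lhs => rw [this]
      rw [← this, mul_comm (T y)]
      rw [this, sum_mul, mul_sum, ← this]
      refine sum_congr rfl fun i _ => ?_
      ring
    rw [sum_congr rfl fun y _ => h2 y, sum_comm, hC, mul_sum]
    refine sum_congr rfl fun i hi => ?_
    rw [← mul_sum, hTi i hi]
    ring
  have hFF : ∑ y, Qk t x y * (F y * F y) ≤ 1 := by
    rw [← bsl_row t x]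
    refine sum_le_sum fun y _ => ?_
    have h2 := bsl_nonneg ht ht1 x y
    have h3 : F y * F y ≤ 1 := by nlinarith [h0 y, h1 y]
    nlinarith
  have hpos : 0 ≤ ∑ y, Qk t x y * (s * F y - T y) ^ 2 :=
    sum_nonneg fun y _ => mul_nonneg (bsl_nonneg ht ht1 x y) (sq_nonneg _)
  have hexp : ∑ y, Qk t x y * (s * F y - T y) ^ 2 =
      s ^ 2 * ∑ y, Qk t x y * (F y * F y) - 2 * s * ∑ y, Qk t x y * (F y * T y) +
        ∑ y, Qk t x y * (T y * T y) := by
    rw [mul_sum, mul_sum, ← sum_sub_distrib, ← sum_add_distrib]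
    refine sum_congr rfl fun y _ => ?_
    ring
  rw [hexp, hFT, hTT] at hpos
  have h4 : 0 ≤ s * (s * ∑ y, Qk t x y * (F y * F y) - C) := by
    linarith
  have h5 : 0 ≤ s * ∑ y, Qk t x y * (F y * F y) - C := nonneg_of_mul_nonneg_right h4 hspos
  nlinarith

end Pool.Agent.MP_291ce2_pr
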