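import Pool.Agent.MP_291ce2_pr.Defs

set_option autoImplicit false

/-! [CW-1] kernel basics -/

namespace Pool.Agent.MP_291ce2_pr

open Finset
open scoped Classical

variable {n : ℕ}

private theorem mem_lo (i : Fin n) (x : X n) : x ∈ lo i ↔ x i = false := by
  simp [lo]

theorem sum_split (i : Fin n) (F : X n → ℝ) :
    ∑ x : X n, F x = ∑ x ∈ lo i, (F x + F (up i x)) := by
  rw [Finset.sum_add_distrib, ← Finset.sum_filter_add_sum_filter_not univ (fun x : X n => x i = false)]
  congr 1
  symm
  refine Finset.sum_bij' (fun x _ => up i x) (fun x _ => dn i x) ?_ ?_ ?_ ?_ ?_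
  · intro x hx
    simp [up]
  · intro x hx
    simp [lo, dn]
  · intro x hx
    have : x i = false := by simpa [lo] using hx
    funext j
    by_cases hj : j = i
    · subst hj; simp [dn, up, this]
    · simp [dn, up, hj]
  · intro x hx
    have : x i = true := by simpa using hx
    funext j
    by_cases hj : j = i
    · subst hj; simp [dn, up, this]
    · simp [dn, up, hj]
  · intro x hx
    rfl

private theorem q_row (t : ℝ) (a : Bool) : ∑ b : Bool, q t a b = 1 := by
  cases a <;> simp [q]

theorem Qk_row (t : ℝ) (x : X n) : ∑ y : X n, Qk t x y = 1 := by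
  have h := Finset.prod_univ_sum (fun _ : Fin n => (univ : Finset Bool)) (fun i b => q t (x i) b)
  rw [Fintype.piFinset_univ] at h
  unfold Qk
  rw [← h]
  simp only [q_row, Finset.prod_const_one]

private theorem Qk_eq (t : ℝ) (i : Fin n) (x y : X n) :
    Qk t x y = q t (x i) (y i) * Qo t i x y := by
  unfold Qk Qo
  rw [Finset.mul_prod_erase univ (fun j => q t (x j) (y j)) (mem_univ i)]

private theorem Qo_up_left (t : ℝ) (i : Fin n) (x y : X n) : Qo t i (up i x) y = Qo t i x y := by
  unfold Qo
  refine Finset.prod_congr rfl ?_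
  intro j hj
  have : j ≠ i := (Finset.mem_erase.mp hj).1
  simp [up, this]

private theorem Qo_up_right (t : ℝ) (i : Fin n) (x y : X n) : Qo t i x (up i y) = Qo t i x y := by
  unfold Qo
  refine Finset.prod_congr rfl ?_
  intro j hj
  have : j ≠ i := (Finset.mem_erase.mp hj).1
  simp [up, this]

theorem Qo_row (t : ℝ) (i : Fin n) (x : X n) : ∑ y ∈ lo i, Qo t i x y = 1 := by
  have h := Qk_row t x
  rw [sum_split i] at h
  rw [← h]
  refine Finset.sum_congr rfl ?_
  intro y hy
  rw [mem_lo] at hy
  rw [Qk_eq t i x y, Qk_eq t i x (up i y), Qo_up_right, hy]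
  have hu : (up i y) i = true := by simp [up]
  rw [hu]
  cases x i <;> simp [q] <;> ring

theorem Qk_symm (t : ℝ) (x y : X n) : Qk t x y = Qk t y x := by
  unfold Qk q
  refine Finset.prod_congr rfl ?_
  intro j _
  simp [eq_comm]

theorem Qo_symm (t : ℝ) (i : Fin n) (x y : X n) : Qo t i x y = Qo t i y x := by
  unfold Qo q
  refine Finset.prod_congr rfl ?_
  intro j _
  simp [eq_comm]

private theorem q_nonneg {t : ℝ} (h0 : 0 ≤ t) (h1 : t ≤ 1) (a b : Bool) : 0 ≤ q t a b := by
  unfold q
  split_ifs <;> linarith

theorem Qk_nonneg {t : ℝ} (h0 : 0 ≤ t) (h1 : t ≤ 1) (x y : X n) : 0 ≤ Qk t x y :=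
  Finset.prod_nonneg fun _ _ => q_nonneg h0 h1 _ _

theorem Qo_nonneg {t : ℝ} (h0 : 0 ≤ t) (h1 : t ≤ 1) (i : Fin n) (x y : X n) : 0 ≤ Qo t i x y :=
  Finset.prod_nonneg fun _ _ => q_nonneg h0 h1 _ _

theorem Qk_zero (x y : X n) : Qk 0 x y = if x = y then 1 else 0 := by
  unfold Qk q
  split_ifs with h
  · subst h
    simp
  · obtain ⟨i, hi⟩ := Function.ne_iff.mp h
    refine Finset.prod_eq_zero (mem_univ i) ?_
    simp [hi]

theorem Qk_half (x y : X n) : Qk (1 / 2) x y = 1 / 2 ^ n := by
  unfold Qk q
  have : ∀ i : Fin n, (if x i = y i then 1 - (1 / 2 : ℝ) else 1 / 2) = 1 / 2 := by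
    intro i
    split_ifs <;> norm_num
  simp only [this, Finset.prod_const, Finset.card_univ, Fintype.card_fin]
  rw [one_div, inv_pow, one_div]

/-- derivative of the one coordinate kernel -/
private noncomputable def sg (a b : Bool) : ℝ := if a = b then -1 else 1

private theorem hasDerivAt_q (a b : Bool) (t : ℝ) : HasDerivAt (fun s => q s a b) (sg a b) t := by
  unfold q sg
  split_ifs with h
  · simpa using (hasDerivAt_id t).const_sub 1
  · exact hasDerivAt_id t

private theorem hasDerivAt_Qk (x y : X n) (t : ℝ) :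
    HasDerivAt (fun s => Qk s x y) (∑ i : Fin n, Qo t i x y * sg (x i) (y i)) t := by
  have h := HasDerivAt.fun_finsetProd (u := (univ : Finset (Fin n)))
    (f := fun (i : Fin n) (s : ℝ) => q s (x i) (y i)) (f' := fun i => sg (x i) (y i)) (x := t)
    (fun i _ => hasDerivAt_q (x i) (y i) t)
  simpa [Qk, Qo, smul_eq_mul] using h

/-- derivative of a noise sum -/
theorem hasDerivAt_G (H : X n → X n → ℝ) (t : ℝ) :
    HasDerivAt (fun s => ∑ x : X n, ∑ y : X n, Qk s x y * H x y)
      (∑ i : Fin n, ∑ x ∈ lo i, ∑ y ∈ lo i,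
        Qo t i x y * (H (up i x) y + H x (up i y) - H x y - H (up i x) (up i y))) t := by
  have h : HasDerivAt (fun s => ∑ x : X n, ∑ y : X n, Qk s x y * H x y)
      (∑ x : X n, ∑ y : X n, (∑ i : Fin n, Qo t i x y * sg (x i) (y i)) * H x y) t := by
    refine HasDerivAt.fun_sum fun x _ => ?_
    refine HasDerivAt.fun_sum fun y _ => ?_
    exact (hasDerivAt_Qk x y t).mul_const _
  convert h using 1
  have e1 : ∑ x : X n, ∑ y : X n, (∑ i : Fin n, Qo t i x y * sg (x i) (y i)) * H x y
      = ∑ i : Fin n, ∑ x : X n, ∑ y : X n, Qo t i x y * sg (x i) (y i) * H x y := by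
    simp only [Finset.sum_mul]
    rw [Finset.sum_comm]
    have e2 : ∀ x : X n, ∑ y : X n, ∑ i : Fin n, Qo t i x y * sg (x i) (y i) * H x y
        = ∑ i : Fin n, ∑ y : X n, Qo t i x y * sg (x i) (y i) * H x y := fun x => Finset.sum_comm
    rw [Finset.sum_comm]
    simp only [e2]
    rw [Finset.sum_comm]
  rw [e1]
  refine Finset.sum_congr rfl fun i _ => ?_
  rw [sum_split i]
  refine Finset.sum_congr rfl fun x hx => ?_
  rw [sum_split i, sum_split i, ← Finset.sum_add_distrib]
  refine Finset.sum_congr rfl fun y hy => ?_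
  rw [mem_lo] at hx hy
  have hux : (up i x) i = true := by simp [up]
  have huy : (up i y) i = true := by simp [up]
  rw [Qo_up_left, Qo_up_right, Qo_up_left, Qo_up_right, hx, hy, hux, huy]
  simp [sg]
  ring

private theorem not_true_le_false (h : (true : Bool) ≤ false) : False := absurd h (by decide)

private theorem le_up (i : Fin n) (x : X n) : x ≤ up i x := by
  intro j
  by_cases hj : j = i
  · subst hj
    simp [up, Bool.le_true]
  · simp [up, hj]

private theorem up_mono_aux {t : ℝ} (h0 : 0 ≤ t) (h1 : t ≤ 1 / 2) {F : X n → ℝ} (hF : Monotone F)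
    (i : Fin n) (x : X n) (hx : x i = false) : Qf t F x ≤ Qf t F (up i x) := by
  unfold Qf
  rw [sum_split i, sum_split i]
  refine Finset.sum_le_sum fun y hy => ?_
  rw [mem_lo] at hy
  have hux : (up i x) i = true := by simp [up]
  have huy : (up i y) i = true := by simp [up]
  rw [Qk_eq t i x y, Qk_eq t i x (up i y), Qk_eq t i (up i x) y, Qk_eq t i (up i x) (up i y),
    Qo_up_left, Qo_up_right, Qo_up_left, Qo_up_right, hx, hy, hux, huy]
  have hQ : 0 ≤ Qo t i x y := Qo_nonneg h0 (by linarith) i x y
  have hFy : F y ≤ F (up i y) := hF (le_up i y)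
  simp only [q, if_true, if_false, reduceCtorEq]
  have := mul_nonneg (mul_nonneg hQ (by linarith : (0 : ℝ) ≤ 1 - 2 * t)) (sub_nonneg.mpr hFy)
  nlinarith

/-- the noise operator preserves monotone functions -/
theorem Qf_mono {t : ℝ} (h0 : 0 ≤ t) (h1 : t ≤ 1 / 2) {F : X n → ℝ} (hF : Monotone F) :
    Monotone (Qf t F) := by
  have key : ∀ k : ℕ, ∀ x y : X n, x ≤ y → #(univ.filter fun i => x i ≠ y i) = k →
      Qf t F x ≤ Qf t F y := by
    intro k
    induction k with
    | zero =>
      intro x y _ hc
      have : x = y := by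
        funext i
        by_contra hne
        rw [Finset.card_eq_zero] at hc
        have : i ∈ (univ.filter fun i => x i ≠ y i) := by simp [hne]
        rw [hc] at this
        simp at this
      rw [this]
    | succ k ih =>
      intro x y hxy hc
      have hpos : 0 < #(univ.filter fun i => x i ≠ y i) := by omega
      obtain ⟨i, hi⟩ := Finset.card_pos.mp hpos
      have hne : x i ≠ y i := by simpa using hi
      have hle := hxy i
      have hxi : x i = false := by
        cases hx : x i
        · rfl
        · exfalso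
          rw [hx] at hle hne
          cases hy : y i
          · rw [hy] at hle
            exact not_true_le_false hle
          · exact hne hy.symm
      have hyi : y i = true := by
        cases hy : y i
        · exact absurd (hxi.trans hy.symm) hne
        · rfl
      refine (up_mono_aux h0 h1 hF i x hxi).trans (ih (up i x) y ?_ ?_)
      · intro j
        by_cases hj : j = i
        · subst hj
          simp [up, hyi]
        · simpa [up, hj] using hxy j
      · have : (univ.filter fun j => (up i x) j ≠ y j) = (univ.filter fun j => x j ≠ y j).erase i := by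
          ext j
          rw [Finset.mem_erase, Finset.mem_filter, Finset.mem_filter]
          by_cases hj : j = i
          · subst hj
            simp [up, hyi]
          · simp [up, hj]
        rw [this, Finset.card_erase_of_mem hi, hc]
        rfl
  intro x y hxy
  exact key _ x y hxy rfl

private theorem q_semi (η : ℝ) (a b : Bool) :
    ∑ c : Bool, q η c a * q η c b = q (2 * η * (1 - η)) a b := by
  cases a <;> cases b <;> simp [q] <;> ring

private theorem Qk_semi (η : ℝ) (y z : X n) :
    ∑ x : X n, Qk η x y * Qk η x z = Qk (2 * η * (1 - η)) y z := by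
  have h := Finset.prod_univ_sum (fun _ : Fin n => (univ : Finset Bool))
    (fun i c => q η c (y i) * q η c (z i))
  rw [Fintype.piFinset_univ] at h
  unfold Qk
  simp only [← Finset.prod_mul_distrib]
  rw [← h]
  simp only [q_semi]

/-- semigroup property, in the form needed -/
theorem Qf_semigroup (η : ℝ) (g : X n → ℝ) :
    ∑ x : X n, g x * Qf (2 * η * (1 - η)) g x = ∑ x : X n, (Qf η g x) ^ 2 := by
  unfold Qf
  have e : ∀ x : X n, (∑ y : X n, Qk η x y * g y) ^ 2
      = ∑ y : X n, ∑ z : X n, (Qk η x y * Qk η x z) * (g y * g z) := by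
    intro x
    rw [sq, Finset.sum_mul_sum]
    refine Finset.sum_congr rfl fun y _ => Finset.sum_congr rfl fun z _ => ?_
    ring
  simp only [e]
  rw [Finset.sum_comm]
  refine Finset.sum_congr rfl fun y _ => ?_
  rw [Finset.sum_comm, Finset.mul_sum]
  refine Finset.sum_congr rfl fun z _ => ?_
  rw [← Finset.sum_mul, Qk_semi]
  ring

end Pool.Agent.MP_291ce2_pr
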