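import Pool.Agent.MP_291ce2_pr.Defs
import Pool.Agent.MP_291ce2_pr.Kernel

set_option autoImplicit false

/-! Bridge between the law of the censored walk and the density operator `P` (CW-14). -/

namespace Pool.Agent.MP_291ce2_pr

open Finset
open scoped Classical

variable {n : ℕ}

theorem bridge_nx_up (A : Set (X n)) (i : Fin n) (b : Bool) (y : X n) :
    nx A i b (up i y) = if Function.update y i b ∈ A then Function.update y i b else up i y := by
  unfold nx up
  rw [Function.update_idem]

theorem bridge_nx_dn (A : Set (X n)) (i : Fin n) (b : Bool) (y : X n) :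
    nx A i b (dn i y) = if Function.update y i b ∈ A then Function.update y i b else dn i y := by
  unfold nx dn
  rw [Function.update_idem]

theorem bridge_up_ne_dn (i : Fin n) (y : X n) : up i y ≠ dn i y := by
  intro h
  have := congrFun h i
  simp [up, dn] at this

theorem bridge_nx_ne (A : Set (X n)) (i : Fin n) (b : Bool) (y z : X n)
    (h : z ≠ up i y ∧ z ≠ dn i y) : nx A i b z ≠ y := by
  intro e
  have h1 : ∀ j, j ≠ i → z j = y j := by
    intro j hj
    rw [← e]
    unfold nx
    split_ifs
    · rw [Function.update_of_ne hj]
    · rfl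
  cases hz : z i with
  | true =>
    apply h.1
    funext j
    by_cases hj : j = i
    · subst hj
      simp [up, hz]
    · simp [up, Function.update_of_ne hj, h1 j hj]
  | false =>
    apply h.2
    funext j
    by_cases hj : j = i
    · subst hj
      simp [dn, hz]
    · simp [dn, Function.update_of_ne hj, h1 j hj]

theorem bridge_step {A : Set (X n)} (hA : IsUpperSet A) (μ : X n → ℝ) (hμ : ∀ z, z ∉ A → μ z = 0)
    (i : Fin n) (y : X n) :
    (1 / 2 : ℝ) * ∑ b : Bool, ∑ z : X n, μ z * (if nx A i b z = y then (1 : ℝ) else 0) =
      P1 A i μ y := by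
  have hsum : ∀ b : Bool, ∑ z : X n, μ z * (if nx A i b z = y then (1 : ℝ) else 0) =
      μ (up i y) * (if nx A i b (up i y) = y then (1 : ℝ) else 0) +
        μ (dn i y) * (if nx A i b (dn i y) = y then (1 : ℝ) else 0) := by
    intro b
    apply Fintype.sum_eq_add (up i y) (dn i y) (bridge_up_ne_dn i y)
    intro z hz
    rw [if_neg (bridge_nx_ne A i b y z hz), mul_zero]
  rw [Fintype.sum_bool, hsum, hsum]
  simp only [bridge_nx_up, bridge_nx_dn]
  change (1 / 2 : ℝ) * (μ (up i y) * (if (if up i y ∈ A then up i y else up i y) = y then (1 : ℝ) else 0) +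
      μ (dn i y) * (if (if up i y ∈ A then up i y else dn i y) = y then (1 : ℝ) else 0) +
      (μ (up i y) * (if (if dn i y ∈ A then dn i y else up i y) = y then (1 : ℝ) else 0) +
      μ (dn i y) * (if (if dn i y ∈ A then dn i y else dn i y) = y then (1 : ℝ) else 0))) = P1 A i μ y
  rw [ite_self, ite_self]
  unfold P1
  have hle : dn i y ≤ up i y := by
    intro j
    by_cases hj : j = i
    · subst hj
      simp [up, dn]
    · simp [up, dn, Function.update_of_ne hj]
  have hne := bridge_up_ne_dn i y
  have hdu : dn i y ∈ A → up i y ∈ A := fun h => hA hle h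
  cases hy : y i with
  | true =>
    have hyu : up i y = y := by
      unfold up
      rw [← hy]
      exact Function.update_eq_self i y
    have hyd : dn i y ≠ y := by
      rw [hyu] at hne
      exact hne.symm
    rw [hyu] at hdu ⊢
    by_cases hd : dn i y ∈ A
    · have hu := hdu hd
      simp only [hd, hu, if_true, hyd, if_false]
      ring
    · have hd0 := hμ _ hd
      simp only [hd, hd0, if_true, if_false, hyd]
      ring
  | false =>
    have hyd : dn i y = y := by
      unfold dn
      rw [← hy]
      exact Function.update_eq_self i y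
    have hyu : up i y ≠ y := by
      rw [hyd] at hne
      exact hne
    rw [hyd] at hdu ⊢
    by_cases hd : y ∈ A
    · have hu := hdu hd
      simp only [hd, hu, if_true, hyu, if_false]
      ring
    · have hd0 := hμ _ hd
      simp only [hd, hd0, if_true, if_false, hyu]
      ring

theorem bridge_nx_mem {A : Set (X n)} {i : Fin n} {b : Bool} {z : X n} (hz : z ∈ A) :
    nx A i b z ∈ A := by
  unfold nx
  split_ifs with h
  · exact h
  · exact hz

theorem bridge_law_supp {A : Set (X n)} {x : X n} (hx : x ∈ A) (t : ℕ) (y : X n) (hy : y ∉ A) :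
    law A x t y = 0 := by
  induction t generalizing y with
  | zero =>
    unfold law
    rw [if_neg]
    rintro rfl
    exact hy hx
  | succ t ih =>
    unfold law
    apply Finset.sum_eq_zero
    intro z _
    by_cases hz : z ∈ A
    · have : kern A z y = 0 := by
        unfold kern
        have h0 : ∀ i : Fin n, (1 / 2 : ℝ) * ∑ b : Bool, (if nx A i b z = y then (1 : ℝ) else 0) = 0 := by
          intro i
          rw [Finset.sum_eq_zero, mul_zero]
          intro b _
          rw [if_neg]
          rintro rfl
          exact hy (bridge_nx_mem hz)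
        rw [Finset.sum_eq_zero (fun i _ => h0 i), mul_zero]
      rw [this, mul_zero]
    · rw [ih z hz, zero_mul]

theorem law_eq (hn : 1 ≤ n) {A : Set (X n)} (hA : IsUpperSet A) {x : X n} (hx : x ∈ A) (t : ℕ)
    (y : X n) : law A x t y = (P A)^[t] (dir x) y / 2 ^ n := by
  have h2 : (2 : ℝ) ^ n ≠ 0 := by positivity
  induction t generalizing y with
  | zero =>
    unfold law
    rw [Function.iterate_zero, id]
    unfold dir
    split_ifs
    · field_simp
    · simp
  | succ t ih =>
    rw [Function.iterate_succ_apply']
    have h1 : law A x (t + 1) y = (1 / (n : ℝ)) * ∑ i : Fin n, P1 A i (law A x t) y := by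
      change ∑ z : X n, law A x t z * kern A z y = _
      have h3 : ∀ z : X n, law A x t z * kern A z y = (1 / (n : ℝ)) * ∑ i : Fin n,
          (1 / 2 : ℝ) * ∑ b : Bool, law A x t z * (if nx A i b z = y then (1 : ℝ) else 0) := by
        intro z
        unfold kern
        rw [mul_left_comm, Finset.mul_sum]
        congr 1
        refine Finset.sum_congr rfl fun i _ => ?_
        rw [mul_left_comm, Finset.mul_sum]
      simp only [h3]
      rw [← Finset.mul_sum, Finset.sum_comm]
      congr 1
      refine Finset.sum_congr rfl fun i _ => ?_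
      rw [← bridge_step hA (law A x t) (fun z hz => bridge_law_supp hx t z hz) i y]
      rw [← Finset.mul_sum, Finset.sum_comm]
    rw [h1]
    change _ = ((1 / (n : ℝ)) * ∑ i : Fin n, P1 A i ((P A)^[t] (dir x)) y) / 2 ^ n
    rw [mul_div_assoc]
    congr 1
    rw [Finset.sum_div]
    refine Finset.sum_congr rfl fun i _ => ?_
    unfold P1
    rw [ih, ih, ih]
    split_ifs
    · ring
    · rfl

end Pool.Agent.MP_291ce2_pr
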