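import Mathlib

set_option autoImplicit false

/-! Definitions for the censored random walk on monotone subsets of the cube. -/

namespace Pool.Agent.MP_291ce2_pr

open Finset
open scoped Classical

/-- The discrete cube (`false = 0`, `true = 1`). -/
abbrev X (n : ℕ) : Type := Fin n → Bool

/-! ### The chain of the problem -/

/-- The next state of the censored walk at `x` when coordinate `i` is chosen and the fresh bit is `b`. -/
noncomputable def nx {n : ℕ} (A : Set (X n)) (i : Fin n) (b : Bool) (x : X n) : X n :=
  if Function.update x i b ∈ A then Function.update x i b else x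

/-- Transition probabilities of the censored walk. -/
noncomputable def kern {n : ℕ} (A : Set (X n)) (x y : X n) : ℝ :=
  (1 / (n : ℝ)) * ∑ i : Fin n, (1 / 2 : ℝ) * ∑ b : Bool, if nx A i b x = y then (1 : ℝ) else 0

/-- The law at time `t` of the censored walk started at `x`. -/
noncomputable def law {n : ℕ} (A : Set (X n)) (x : X n) : ℕ → X n → ℝ
  | 0 => fun y => if y = x then 1 else 0
  | t + 1 => fun y => ∑ z : X n, law A x t z * kern A z y

/-- The number of points of `A`. -/
noncomputable def cnt {n : ℕ} (A : Set (X n)) : ℝ := ∑ x : X n, if x ∈ A then (1 : ℝ) else 0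

/-- The uniform probability of `A`. -/
noncomputable def prob {n : ℕ} (A : Set (X n)) : ℝ := cnt A / 2 ^ n

/-- Total variation distance between the law at time `t` and the uniform distribution on `A`. -/
noncomputable def tv {n : ℕ} (A : Set (X n)) (x : X n) (t : ℕ) : ℝ :=
  (1 / 2 : ℝ) * ∑ y : X n, |law A x t y - if y ∈ A then 1 / cnt A else 0|

/-! ### Tools -/

variable {n : ℕ}

/-- coordinate `i` set to one -/
def up (i : Fin n) (x : X n) : X n := Function.update x i true

/-- coordinate `i` set to zero -/
def dn (i : Fin n) (x : X n) : X n := Function.update x i false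

/-- the points whose coordinate `i` is zero -/
def lo (i : Fin n) : Finset (X n) := univ.filter (fun x => x i = false)

/-- indicator function -/
noncomputable def ind (A : Set (X n)) (x : X n) : ℝ := if x ∈ A then 1 else 0

/-- one coordinate noise kernel -/
noncomputable def q (t : ℝ) (a b : Bool) : ℝ := if a = b then 1 - t else t

/-- noise kernel: every coordinate is flipped with probability `t`, independently -/
noncomputable def Qk (t : ℝ) (x y : X n) : ℝ := ∏ i : Fin n, q t (x i) (y i)

/-- noise kernel without coordinate `i` -/
noncomputable def Qo (t : ℝ) (i : Fin n) (x y : X n) : ℝ := ∏ j ∈ univ.erase i, q t (x j) (y j)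

/-- noise operator -/
noncomputable def Qf (t : ℝ) (f : X n → ℝ) (x : X n) : ℝ := ∑ y : X n, Qk t x y * f y

/-- edge energy inside `A` (each edge counted once, at its lower end point) -/
noncomputable def En (A : Set (X n)) (g : X n → ℝ) : ℝ :=
  ∑ i : Fin n, ∑ x ∈ lo i, if x ∈ A then (g (up i x) - g x) ^ 2 else 0

/-- expectation under the uniform distribution on the cube -/
noncomputable def avg (f : X n → ℝ) : ℝ := (∑ x : X n, f x) / 2 ^ n

/-- normalised `L²` norm -/
noncomputable def nrm (f : X n → ℝ) : ℝ := √(avg (fun x => f x ^ 2))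

/-- heat bath at coordinate `i` for the uniform distribution on `A` (acting on densities) -/
noncomputable def P1 (A : Set (X n)) (i : Fin n) (f : X n → ℝ) (x : X n) : ℝ :=
  if dn i x ∈ A then (f (up i x) + f (dn i x)) / 2 else f x

/-- one step of the chain, acting on densities -/
noncomputable def P (A : Set (X n)) (f : X n → ℝ) (x : X n) : ℝ :=
  (1 / (n : ℝ)) * ∑ i : Fin n, P1 A i f x

/-- the auxiliary functions -/
noncomputable def chi (a b : ℝ) : ℝ := a ^ 2 * b ^ 2 / (a ^ 2 + b ^ 2)

/-- `Psi a b = (a² - b²)² / (a² + b²)` -/
noncomputable def Psi (a b : ℝ) : ℝ := a ^ 2 + b ^ 2 - 4 * chi a b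

/-- truncated entropy function -/
noncomputable def ph (a x : ℝ) : ℝ := if a ≤ x then x * Real.log (x / a) - x + a else 0

/-- truncated square root -/
noncomputable def gh (a x : ℝ) : ℝ := max (√x - √a) 0

/-- A population: `f` is the density of a (sub-)law of the censored walk, `ν` that of the uncensored walk
coupled below it. -/
def Pop (A : Set (X n)) (f ν : X n → ℝ) : Prop :=
  ∃ J : X n → X n → ℝ, (∀ z v, 0 ≤ J z v) ∧ (∀ z v, J z v ≠ 0 → v ≤ z ∧ z ∈ A) ∧
    (∀ z, f z = ∑ v, J z v) ∧ (∀ v, ν v = ∑ z, J z v)

/-- point mass (as a density with respect to the uniform probability) -/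
noncomputable def dir (x : X n) (z : X n) : ℝ := if z = x then 2 ^ n else 0

end Pool.Agent.MP_291ce2_pr
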