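import Pool.Agent.MP_291ce2_pr.Kernel

set_option autoImplicit false

/-! Basic properties of the heat bath operators. -/

namespace Pool.Agent.MP_291ce2_pr

open Finset
open scoped Classical

variable {n : ℕ}

theorem ops_dn_lo {i : Fin n} {x : X n} (hx : x ∈ lo i) : dn i x = x := by
  have h : x i = false := by simpa [lo] using hx
  unfold dn
  rw [← h]
  exact Function.update_eq_self i x

theorem ops_dn_up (i : Fin n) (x : X n) : dn i (up i x) = dn i x := by
  unfold dn up
  rw [Function.update_idem]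

theorem ops_up_up (i : Fin n) (x : X n) : up i (up i x) = up i x := by
  unfold up
  rw [Function.update_idem]

theorem ops_dn_le (i : Fin n) (x : X n) : dn i x ≤ x := by
  intro j
  unfold dn
  by_cases h : j = i
  · subst h; simp
  · rw [Function.update_of_ne h]

theorem ops_P1_lo (A : Set (X n)) {i : Fin n} {x : X n} (hx : x ∈ lo i) (f : X n → ℝ) :
    P1 A i f x = if x ∈ A then (f (up i x) + f x) / 2 else f x := by
  unfold P1
  rw [ops_dn_lo hx]

theorem ops_P1_up (A : Set (X n)) {i : Fin n} {x : X n} (hx : x ∈ lo i) (f : X n → ℝ) :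
    P1 A i f (up i x) = if x ∈ A then (f (up i x) + f x) / 2 else f (up i x) := by
  unfold P1
  rw [ops_dn_up, ops_dn_lo hx, ops_up_up]

theorem ops_P1_nonneg {A : Set (X n)} (i : Fin n) {f : X n → ℝ} (hf : ∀ x, 0 ≤ f x) (x : X n) :
    0 ≤ P1 A i f x := by
  unfold P1
  split_ifs
  · have h1 := hf (up i x)
    have h2 := hf (dn i x)
    linarith
  · exact hf x

theorem ops_P1_sum (A : Set (X n)) (i : Fin n) (f : X n → ℝ) :
    ∑ x : X n, P1 A i f x = ∑ x : X n, f x := by
  rw [sum_split i, sum_split i]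
  apply sum_congr rfl
  intro x hx
  rw [ops_P1_lo A hx, ops_P1_up A hx]
  split_ifs <;> ring

theorem P_nonneg {A : Set (X n)} {f : X n → ℝ} (hf : ∀ x, 0 ≤ f x) (x : X n) :
    0 ≤ P A f x := by
  unfold P
  exact mul_nonneg (by positivity) (sum_nonneg fun i _ => ops_P1_nonneg i hf x)

theorem P_supp {A : Set (X n)} (hA : IsUpperSet A) {f : X n → ℝ} (hf : ∀ x, x ∉ A → f x = 0)
    (x : X n) (hx : x ∉ A) : P A f x = 0 := by
  unfold P
  rw [sum_eq_zero, mul_zero]
  intro i _
  unfold P1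
  rw [if_neg fun h => hx (hA (ops_dn_le i x) h)]
  exact hf x hx

theorem ops_avg (hn : 1 ≤ n) (r : ℝ) : (1 / (n : ℝ)) * ∑ _i : Fin n, r = r := by
  have h : (n : ℝ) ≠ 0 := by
    have : 0 < n := hn
    positivity
  rw [sum_const, card_univ, Fintype.card_fin, nsmul_eq_mul]
  field_simp

theorem P_sum (hn : 1 ≤ n) {A : Set (X n)} (hA : IsUpperSet A) (f : X n → ℝ) :
    ∑ x : X n, P A f x = ∑ x : X n, f x := by
  unfold P
  rw [← mul_sum, sum_comm]
  simp_rw [ops_P1_sum A _ f]
  exact ops_avg hn _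

theorem P_le (hn : 1 ≤ n) {A : Set (X n)} {f : X n → ℝ} {B : ℝ} (hf : ∀ x, f x ≤ B)
    (x : X n) : P A f x ≤ B := by
  rw [← ops_avg hn B]
  unfold P
  apply mul_le_mul_of_nonneg_left _ (by positivity)
  apply sum_le_sum
  intro i _
  unfold P1
  split_ifs
  · have h1 := hf (up i x)
    have h2 := hf (dn i x)
    linarith
  · exact hf x

theorem P_add {A : Set (X n)} (f g : X n → ℝ) : P A (f + g) = P A f + P A g := by
  funext x
  rw [Pi.add_apply]
  unfold P
  rw [← mul_add, ← sum_add_distrib]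
  congr 1
  apply sum_congr rfl
  intro i _
  unfold P1
  simp only [Pi.add_apply]
  split_ifs <;> ring

theorem P_smul {A : Set (X n)} (r : ℝ) (f : X n → ℝ) :
    P A (fun x => r * f x) = fun x => r * P A f x := by
  funext x
  unfold P
  have h : ∀ i : Fin n, P1 A i (fun x => r * f x) x = r * P1 A i f x := by
    intro i
    unfold P1
    split_ifs <;> ring
  simp_rw [h]
  rw [← mul_sum]
  ring

theorem ops_P1_energy (A : Set (X n)) (i : Fin n) (f : X n → ℝ) :
    ∑ x : X n, f x * P1 A i f x = ∑ x : X n, f x ^ 2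
      - (1 / 2) * ∑ x ∈ lo i, if x ∈ A then (f (up i x) - f x) ^ 2 else 0 := by
  rw [sum_split i, sum_split i, mul_sum, ← sum_sub_distrib]
  apply sum_congr rfl
  intro x hx
  rw [ops_P1_lo A hx, ops_P1_up A hx]
  split_ifs <;> ring

theorem ops_P1_sq (A : Set (X n)) (i : Fin n) (f : X n → ℝ) :
    ∑ x : X n, (P1 A i f x) ^ 2 = ∑ x : X n, f x * P1 A i f x := by
  rw [sum_split i, sum_split i]
  apply sum_congr rfl
  intro x hx
  rw [ops_P1_lo A hx, ops_P1_up A hx]
  split_ifs <;> ring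

theorem ops_sum_mul (A : Set (X n)) (f : X n → ℝ) :
    ∑ x : X n, f x * P A f x = (1 / (n : ℝ)) * ∑ i : Fin n, ∑ x : X n, f x * P1 A i f x := by
  rw [sum_comm, mul_sum]
  apply sum_congr rfl
  intro x _
  unfold P
  rw [mul_sum, mul_sum, mul_sum]
  apply sum_congr rfl
  intro i _
  ring

/-- energy identity -/
theorem P_energy (hn : 1 ≤ n) {A : Set (X n)} (hA : IsUpperSet A) (f : X n → ℝ) :
    ∑ x : X n, f x * P A f x = ∑ x : X n, f x ^ 2 - En A f / (2 * n) := by
  rw [ops_sum_mul]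
  simp_rw [ops_P1_energy A _ f]
  rw [sum_sub_distrib, mul_sub, ops_avg hn, ← mul_sum]
  unfold En
  ring

/-- `P ^ 2 ≤ P` as quadratic forms -/
theorem P_sq_le (hn : 1 ≤ n) {A : Set (X n)} (hA : IsUpperSet A) (f : X n → ℝ) :
    ∑ x : X n, (P A f x) ^ 2 ≤ ∑ x : X n, f x * P A f x := by
  have h0 : 0 < (n : ℝ) := by
    have : 0 < n := hn
    positivity
  rw [ops_sum_mul]
  simp_rw [← ops_P1_sq A _ f]
  rw [sum_comm, mul_sum]
  apply sum_le_sum
  intro x _
  unfold P
  have h := sq_sum_le_card_mul_sum_sq (s := (univ : Finset (Fin n))) (f := fun i => P1 A i f x)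
  rw [card_univ, Fintype.card_fin] at h
  rw [mul_pow]
  have h1 : (1 / (n : ℝ)) ^ 2 * (∑ i : Fin n, P1 A i f x) ^ 2
      ≤ (1 / (n : ℝ)) ^ 2 * (n * ∑ i : Fin n, P1 A i f x ^ 2) :=
    mul_le_mul_of_nonneg_left h (by positivity)
  refine h1.trans (le_of_eq ?_)
  field_simp

/-- Jensen for one step: convex functions -/
theorem P_convex (hn : 1 ≤ n) {A : Set (X n)} (hA : IsUpperSet A) {φ : ℝ → ℝ}
    (hφ : ConvexOn ℝ (Set.Ici 0) φ) {f : X n → ℝ} (hf : ∀ x, 0 ≤ f x) :
    ∑ x : X n, φ (P A f x) ≤ (1 / (n : ℝ)) * ∑ i : Fin n, ∑ x : X n, φ (P1 A i f x) := by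
  have h0 : 0 < (n : ℝ) := by
    have : 0 < n := hn
    positivity
  rw [sum_comm, mul_sum]
  apply sum_le_sum
  intro x _
  have h := hφ.map_sum_le (t := (univ : Finset (Fin n))) (w := fun _ => 1 / (n : ℝ))
    (p := fun i => P1 A i f x) (fun i _ => by positivity)
    (by rw [sum_const, card_univ, Fintype.card_fin, nsmul_eq_mul]; field_simp)
    (fun i _ => ops_P1_nonneg i hf x)
  simp only [smul_eq_mul] at h
  unfold P
  rw [mul_sum, mul_sum]
  exact h

theorem min_mono (hn : 1 ≤ n) {A : Set (X n)} (hA : IsUpperSet A) {f : X n → ℝ}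
    (hf : ∀ x, 0 ≤ f x) (b : ℝ) :
    ∑ x : X n, min (f x) b ≤ ∑ x : X n, min (P A f x) b := by
  have hconv : ConvexOn ℝ (Set.Ici (0 : ℝ)) (fun x => -min x b) := by
    refine ⟨convex_Ici 0, ?_⟩
    intro x _ y _ s t hs ht hst
    simp only [smul_eq_mul]
    have h1 : s * min x b + t * min y b ≤ s * x + t * y :=
      add_le_add (mul_le_mul_of_nonneg_left (min_le_left _ _) hs)
        (mul_le_mul_of_nonneg_left (min_le_left _ _) ht)
    have h2 : s * min x b + t * min y b ≤ s * b + t * b :=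
      add_le_add (mul_le_mul_of_nonneg_left (min_le_right _ _) hs)
        (mul_le_mul_of_nonneg_left (min_le_right _ _) ht)
    have h3 : s * b + t * b = b := by rw [← add_mul, hst, one_mul]
    have h4 := le_min h1 (h2.trans_eq h3)
    linarith
  have h := P_convex hn hA hconv hf
  have h2 : ∀ i : Fin n, ∑ x : X n, -min (P1 A i f x) b ≤ ∑ x : X n, -min (f x) b := by
    intro i
    rw [sum_split i, sum_split i]
    apply sum_le_sum
    intro x hx
    rw [ops_P1_lo A hx, ops_P1_up A hx]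
    split_ifs with hxA
    · have h3 : (min (f (up i x)) b + min (f x) b) / 2 ≤ min ((f (up i x) + f x) / 2) b := by
        apply le_min
        · have h4 := min_le_left (f (up i x)) b
          have h5 := min_le_left (f x) b
          linarith
        · have h4 := min_le_right (f (up i x)) b
          have h5 := min_le_right (f x) b
          linarith
      linarith
    · exact le_rfl
  have h3 : (1 / (n : ℝ)) * ∑ i : Fin n, ∑ x : X n, -min (P1 A i f x) b ≤
      (1 / (n : ℝ)) * ∑ _i : Fin n, ∑ x : X n, -min (f x) b :=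
    mul_le_mul_of_nonneg_left (sum_le_sum fun i _ => h2 i) (by positivity)
  rw [ops_avg hn] at h3
  have h4 := h.trans h3
  rw [sum_neg_distrib, sum_neg_distrib] at h4
  linarith

end Pool.Agent.MP_291ce2_pr
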