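import Pool.Agent.MP_291ce2_pr.Kernel
import Pool.Agent.MP_291ce2_pr.Ops

set_option autoImplicit false

/-! [CW-9] the truncated entropy function. -/

namespace Pool.Agent.MP_291ce2_pr

open Finset
open scoped Classical

variable {n : ℕ}

private lemma key_log {p r : ℝ} (hp : 0 < p) (hr : 0 < r) :
    2 * p ^ 2 - 2 * p * r ≤ p ^ 2 * Real.log (p ^ 2 / r ^ 2) := by
  have h1 : Real.log (p ^ 2 / r ^ 2) = 2 * Real.log (p / r) := by
    rw [← div_pow, Real.log_pow]
    norm_num
  have h2 : 1 - (p / r)⁻¹ ≤ Real.log (p / r) := Real.one_sub_inv_le_log_of_pos (by positivity)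
  rw [inv_div] at h2
  rw [h1]
  have h3 : p ^ 2 * (1 - r / p) ≤ p ^ 2 * Real.log (p / r) :=
    mul_le_mul_of_nonneg_left h2 (by positivity)
  have h4 : p ^ 2 * (1 - r / p) = p ^ 2 - p * r := by
    field_simp
  linarith

private lemma ph_of_le {a x : ℝ} (h : a ≤ x) : ph a x = x * Real.log (x / a) - x + a := by
  rw [ph, if_pos h]

private lemma ph_of_lt {a x : ℝ} (h : x < a) : ph a x = 0 := by
  rw [ph, if_neg (not_le.2 h)]

theorem ph_nonneg {a : ℝ} (ha : 0 < a) (x : ℝ) : 0 ≤ ph a x := by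
  by_cases h : a ≤ x
  · rw [ph_of_le h]
    have hx : 0 < x := by linarith
    have h2 : 1 - (x / a)⁻¹ ≤ Real.log (x / a) := Real.one_sub_inv_le_log_of_pos (by positivity)
    rw [inv_div] at h2
    have h3 : x * (1 - a / x) ≤ x * Real.log (x / a) := mul_le_mul_of_nonneg_left h2 hx.le
    have h4 : x * (1 - a / x) = x - a := by field_simp
    linarith
  · rw [ph_of_lt (not_le.1 h)]

/-- supporting lines -/
private lemma ph_support {a t x : ℝ} (ha : 0 < a) (ht : a ≤ t) (hx : 0 ≤ x) :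
    x * Real.log (t / a) - t + a ≤ ph a x := by
  have ht0 : 0 < t := by linarith
  by_cases h : a ≤ x
  · rw [ph_of_le h]
    have hx0 : 0 < x := by linarith
    have h1 : Real.log (t / x) ≤ t / x - 1 := Real.log_le_sub_one_of_pos (by positivity)
    have h2 : Real.log (t / a) = Real.log (t / x) + Real.log (x / a) := by
      rw [← Real.log_mul (by positivity) (by positivity)]
      congr 1
      field_simp
    have h3 : x * Real.log (t / x) ≤ x * (t / x - 1) := mul_le_mul_of_nonneg_left h1 hx0.le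
    have h4 : x * (t / x - 1) = t - x := by field_simp
    rw [h2, mul_add]
    linarith
  · rw [ph_of_lt (not_le.1 h)]
    push Not at h
    have h1 : Real.log (t / a) ≤ t / a - 1 := Real.log_le_sub_one_of_pos (by positivity)
    have h2 : 0 ≤ t / a - 1 := by
      rw [sub_nonneg, le_div_iff₀ ha]
      linarith
    have h3 : x * Real.log (t / a) ≤ x * (t / a - 1) := mul_le_mul_of_nonneg_left h1 hx
    have h4 : x * (t / a - 1) ≤ a * (t / a - 1) := mul_le_mul_of_nonneg_right h.le h2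
    have h5 : a * (t / a - 1) = t - a := by field_simp
    linarith

private lemma ph_mono {a u v : ℝ} (ha : 0 < a) (hu : 0 ≤ u) (huv : u ≤ v) : ph a u ≤ ph a v := by
  by_cases h : a ≤ u
  · have hv : 0 ≤ v := hu.trans huv
    have h1 := ph_support (a := a) (t := u) (x := v) ha h hv
    rw [ph_of_le h]
    have h2 : 0 ≤ Real.log (u / a) := by
      apply Real.log_nonneg
      rw [le_div_iff₀ ha]
      linarith
    have h3 : u * Real.log (u / a) ≤ v * Real.log (u / a) := mul_le_mul_of_nonneg_right huv h2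
    linarith
  · rw [ph_of_lt (not_le.1 h)]
    exact ph_nonneg ha v

private lemma two_point_aux {a x y : ℝ} (ha : 0 < a) (hx : a ≤ x) (hy : a ≤ y) :
    (1 / 2 : ℝ) * (gh a x - gh a y) ^ 2 ≤ ph a x + ph a y - 2 * ph a ((x + y) / 2) := by
  have hx0 : 0 < x := by linarith
  have hy0 : 0 < y := by linarith
  have hm0 : 0 < (x + y) / 2 := by linarith
  have hgx : gh a x = √x - √a := by
    rw [gh, max_eq_left]
    rw [sub_nonneg]
    exact Real.sqrt_le_sqrt hx
  have hgy : gh a y = √y - √a := by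
    rw [gh, max_eq_left]
    rw [sub_nonneg]
    exact Real.sqrt_le_sqrt hy
  rw [hgx, hgy, ph_of_le hx, ph_of_le hy, ph_of_le (by linarith : a ≤ (x + y) / 2)]
  obtain ⟨p, hp, hpx⟩ : ∃ p : ℝ, 0 < p ∧ x = p ^ 2 := ⟨√x, Real.sqrt_pos.2 hx0, by
    rw [Real.sq_sqrt hx0.le]⟩
  obtain ⟨q, hq, hqy⟩ : ∃ q : ℝ, 0 < q ∧ y = q ^ 2 := ⟨√y, Real.sqrt_pos.2 hy0, by
    rw [Real.sq_sqrt hy0.le]⟩
  obtain ⟨r, hr, hrm⟩ : ∃ r : ℝ, 0 < r ∧ (x + y) / 2 = r ^ 2 := ⟨√((x + y) / 2),
    Real.sqrt_pos.2 hm0, by rw [Real.sq_sqrt hm0.le]⟩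
  have hsp : √x = p := by rw [hpx, Real.sqrt_sq hp.le]
  have hsq : √y = q := by rw [hqy, Real.sqrt_sq hq.le]
  have h1 := key_log hp hr
  have h2 := key_log hq hr
  have e1 : Real.log (x / a) = Real.log (p ^ 2 / r ^ 2) + Real.log ((x + y) / 2 / a) := by
    rw [← Real.log_mul (by positivity) (by positivity), hrm, hpx]
    congr 1
    field_simp
  have e2 : Real.log (y / a) = Real.log (q ^ 2 / r ^ 2) + Real.log ((x + y) / 2 / a) := by
    rw [← Real.log_mul (by positivity) (by positivity), hrm, hqy]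
    congr 1
    field_simp
  rw [e1, e2, hsp, hsq]
  set L := Real.log ((x + y) / 2 / a)
  set L1 := Real.log (p ^ 2 / r ^ 2)
  set L2 := Real.log (q ^ 2 / r ^ 2)
  have hsum : p ^ 2 + q ^ 2 = 2 * r ^ 2 := by
    rw [← hpx, ← hqy, ← hrm]
    ring
  have h3 : 0 ≤ (2 * r - (p + q)) ^ 2 := sq_nonneg _
  have e3 : x * (L1 + L) - x + a + (y * (L2 + L) - y + a) - 2 * ((x + y) / 2 * L - (x + y) / 2 + a)
      = x * L1 + y * L2 := by ring
  rw [e3, hpx, hqy]
  nlinarith

theorem two_point {a x y : ℝ} (ha : 0 < a) (hx : 0 ≤ x) (hy : 0 ≤ y) :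
    (1 / 2 : ℝ) * (gh a x - gh a y) ^ 2 ≤ ph a x + ph a y - 2 * ph a ((x + y) / 2) := by
  have hgh : ∀ z, z < a → gh a z = 0 := by
    intro z hz
    rw [gh, max_eq_right]
    rw [sub_nonpos]
    exact Real.sqrt_le_sqrt hz.le
  have hgha : gh a a = 0 := by
    rw [gh]
    simp
  have hpha : ph a a = 0 := by
    rw [ph_of_le le_rfl, div_self ha.ne', Real.log_one]
    ring
  -- the mixed case
  have mixed : ∀ x y : ℝ, 0 ≤ y → a ≤ x → y < a →
      (1 / 2 : ℝ) * (gh a x - gh a y) ^ 2 ≤ ph a x + ph a y - 2 * ph a ((x + y) / 2) := by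
    intro x y hy hx hya
    have h1 := two_point_aux ha hx (le_refl a)
    rw [hgha, hpha] at h1
    have h2 : ph a ((x + y) / 2) ≤ ph a ((x + a) / 2) := ph_mono ha (by linarith) (by linarith)
    rw [hgh y hya, ph_of_lt hya]
    linarith
  rcases le_or_gt a x with h1 | h1 <;> rcases le_or_gt a y with h2 | h2
  · exact two_point_aux ha h1 h2
  · exact mixed x y hy h1 h2
  · have h3 := mixed y x hx h2 h1
    have e1 : (gh a x - gh a y) ^ 2 = (gh a y - gh a x) ^ 2 := by ring
    have e2 : (x + y) / 2 = (y + x) / 2 := by ring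
    rw [e1, e2]
    linarith
  · rw [hgh x h1, hgh y h2, ph_of_lt h1, ph_of_lt h2, ph_of_lt (by linarith : (x + y) / 2 < a)]
    norm_num

theorem ph_le {a x B : ℝ} (ha : 0 < a) (hx : 0 ≤ x) (hxB : x ≤ B) (haB : a ≤ B) :
    ph a x ≤ x * Real.log (B / a) := by
  by_cases h : a ≤ x
  · rw [ph_of_le h]
    have hx0 : 0 < x := by linarith
    have h1 : Real.log (x / a) ≤ Real.log (B / a) := by
      apply Real.log_le_log (by positivity)
      exact div_le_div_of_nonneg_right hxB ha.le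
    have h2 := mul_le_mul_of_nonneg_left h1 hx
    linarith
  · rw [ph_of_lt (not_le.1 h)]
    apply mul_nonneg hx
    apply Real.log_nonneg
    rw [le_div_iff₀ ha]
    linarith

theorem ph_convex {a : ℝ} (ha : 0 < a) : ConvexOn ℝ (Set.Ici 0) (ph a) := by
  refine ⟨convex_Ici 0, ?_⟩
  intro x hx y hy α β hα hβ hαβ
  rw [Set.mem_Ici] at hx hy
  simp only [smul_eq_mul]
  have hpx := ph_nonneg ha x
  have hpy := ph_nonneg ha y
  by_cases h : a ≤ α * x + β * y
  · have h1 := ph_support ha h hx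
    have h2 := ph_support ha h hy
    rw [ph_of_le h]
    set L := Real.log ((α * x + β * y) / a)
    have h3 := mul_le_mul_of_nonneg_left h1 hα
    have h4 := mul_le_mul_of_nonneg_left h2 hβ
    have e : (α * x + β * y) * L - (α * x + β * y) + a =
        α * (x * L - (α * x + β * y) + a) + β * (y * L - (α * x + β * y) + a) := by
      have : β = 1 - α := by linarith
      rw [this]
      ring
    rw [e]
    linarith
  · rw [ph_of_lt (not_le.1 h)]
    positivity

theorem dissip (hn : 1 ≤ n) {A : Set (X n)} (hA : IsUpperSet A) {f : X n → ℝ}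
    (hf : ∀ x, 0 ≤ f x) {a : ℝ} (ha : 0 < a) :
    1 / (2 * n) * En A (fun x => gh a (f x)) ≤
      ∑ x : X n, ph a (f x) - ∑ x : X n, ph a (P A f x) := by
  have hn0 : (0 : ℝ) < n := by exact_mod_cast hn
  have h1 := P_convex hn hA (ph_convex ha) hf
  have h2 : ∀ i : Fin n, (1 / 2 : ℝ) * (∑ x ∈ lo i,
      if x ∈ A then (gh a (f (up i x)) - gh a (f x)) ^ 2 else 0) ≤
      ∑ x : X n, ph a (f x) - ∑ x : X n, ph a (P1 A i f x) := by
    intro i
    rw [sum_split i (fun x => ph a (f x)), sum_split i (fun x => ph a (P1 A i f x)),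
      ← sum_sub_distrib, mul_sum]
    apply sum_le_sum
    intro x hx
    rw [lo, mem_filter] at hx
    have hdn : dn i x = x := by
      rw [dn, ← hx.2, Function.update_eq_self]
    have hdnup : dn i (up i x) = x := by
      rw [dn, up, Function.update_idem]
      exact hdn
    have hupup : up i (up i x) = up i x := by
      rw [up, up, Function.update_idem]
    simp only [P1, hdn, hdnup, hupup]
    by_cases hxA : x ∈ A
    · simp only [if_pos hxA]
      have h3 := two_point ha (hf x) (hf (up i x))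
      have e1 : (gh a (f (up i x)) - gh a (f x)) ^ 2 = (gh a (f x) - gh a (f (up i x))) ^ 2 := by
        ring
      have e2 : (f (up i x) + f x) / 2 = (f x + f (up i x)) / 2 := by ring
      rw [e1, e2]
      linarith
    · simp only [if_neg hxA]
      linarith
  have h3 : (1 / 2 : ℝ) * En A (fun x => gh a (f x)) ≤
      ∑ i : Fin n, (∑ x : X n, ph a (f x) - ∑ x : X n, ph a (P1 A i f x)) := by
    rw [En, mul_sum]
    exact sum_le_sum fun i _ => h2 i
  rw [sum_sub_distrib, sum_const, card_univ, Fintype.card_fin, nsmul_eq_mul] at h3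
  have h4 : 1 / (2 * (n : ℝ)) * En A (fun x => gh a (f x)) =
      (1 / n) * ((1 / 2 : ℝ) * En A (fun x => gh a (f x))) := by
    field_simp
  rw [h4]
  have h5 := mul_le_mul_of_nonneg_left h3 (by positivity : (0 : ℝ) ≤ 1 / n)
  have h6 : (1 / (n : ℝ)) * ((n : ℝ) * ∑ x : X n, ph a (f x) -
      ∑ i : Fin n, ∑ x : X n, ph a (P1 A i f x)) =
      ∑ x : X n, ph a (f x) - (1 / (n : ℝ)) * ∑ i : Fin n, ∑ x : X n, ph a (P1 A i f x) := by
    field_simp
  linarith

end Pool.Agent.MP_291ce2_pr
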