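import Pool.Agent.MP_291ce2_pr.FaberKrahn

set_option autoImplicit false

/-! [CW-6a] Nash inequality -/

namespace Pool.Agent.MP_291ce2_pr

open Finset
open scoped Classical

variable {n : ℕ}

private theorem nash_En_nonneg (f : X n → ℝ) : 0 ≤ En Set.univ f := by
  unfold En
  refine Finset.sum_nonneg fun i _ => Finset.sum_nonneg fun x _ => ?_
  split_ifs
  · positivity
  · exact le_rfl

private theorem nash_trunc (a b t : ℝ) :
    (max (a - t) 0 - max (b - t) 0) ^ 2 ≤ (a - b) ^ 2 := by
  have h := abs_max_sub_max_le_abs (a - t) (b - t) 0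
  have h1 : a - t - (b - t) = a - b := by ring
  rw [h1] at h
  exact sq_le_sq.mpr h

private theorem nash_En_trunc (f : X n → ℝ) (t : ℝ) :
    En Set.univ (fun x => max (f x - t) 0) ≤ En Set.univ f := by
  unfold En
  refine Finset.sum_le_sum fun i _ => Finset.sum_le_sum fun x _ => ?_
  split_ifs
  · exact nash_trunc _ _ t
  · exact le_rfl

theorem nash (f : X n → ℝ) (hf : ∀ x, 0 ≤ f x) (hne : 0 < ∑ x : X n, f x ^ 2) :
    (1 / 4 : ℝ) * Real.log (2 ^ n * (∑ x : X n, f x ^ 2) / (4 * (∑ x : X n, f x) ^ 2)) *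
      ∑ x : X n, f x ^ 2 ≤ En Set.univ f := by
  set M := ∑ x : X n, f x ^ 2 with hM
  set a := ∑ x : X n, f x with ha
  have ha0 : 0 < a := by
    rcases (Finset.sum_nonneg fun x _ => hf x : 0 ≤ ∑ x : X n, f x).lt_or_eq with h | h
    · exact h
    · exfalso
      have h1 : ∀ x ∈ (Finset.univ : Finset (X n)), f x = 0 :=
        (Finset.sum_eq_zero_iff_of_nonneg fun x _ => hf x).mp h.symm
      have h2 : M = 0 := by
        rw [hM]
        apply Finset.sum_eq_zero
        intro x hx
        rw [h1 x hx]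
        norm_num
      linarith
  by_cases hL : Real.log (2 ^ n * M / (4 * a ^ 2)) ≤ 0
  · have h1 := nash_En_nonneg f
    have h2 : (1 / 4 : ℝ) * Real.log (2 ^ n * M / (4 * a ^ 2)) * M ≤ 0 := by
      apply mul_nonpos_of_nonpos_of_nonneg _ hne.le
      linarith
    linarith
  · push Not at hL
    set t := M / (4 * a) with ht
    have ht0 : 0 < t := by positivity
    set u : X n → ℝ := fun x => max (f x - t) 0 with hu
    have hpt : ∀ x, f x ^ 2 ≤ u x ^ 2 + 2 * t * f x := by
      intro x
      have hfx := hf x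
      rw [hu]
      by_cases h : f x ≤ t
      · have h1 : max (f x - t) 0 = 0 := max_eq_right (by linarith)
        change f x ^ 2 ≤ (max (f x - t) 0) ^ 2 + 2 * t * f x
        rw [h1]
        nlinarith
      · push Not at h
        have h1 : max (f x - t) 0 = f x - t := max_eq_left (by linarith)
        change f x ^ 2 ≤ (max (f x - t) 0) ^ 2 + 2 * t * f x
        rw [h1]
        nlinarith [sq_nonneg t]
    have hta : 2 * t * a = M / 2 := by
      rw [ht]
      field_simp
      ring
    have hsum : M / 2 ≤ ∑ x : X n, u x ^ 2 := by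
      have h1 : M ≤ ∑ x : X n, (u x ^ 2 + 2 * t * f x) :=
        Finset.sum_le_sum fun x _ => hpt x
      rw [Finset.sum_add_distrib, ← Finset.mul_sum, ← ha, hta] at h1
      linarith
    set S : Finset (X n) := Finset.univ.filter (fun x => t < f x) with hS
    have hSu : ∀ x, x ∉ S → u x = 0 := by
      intro x hx
      have h1 : ¬ t < f x := fun h => hx (Finset.mem_filter.mpr ⟨Finset.mem_univ _, h⟩)
      push Not at h1
      exact max_eq_right (by linarith)
    have hSne : S.Nonempty := by
      by_contra hcon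
      rw [Finset.not_nonempty_iff_eq_empty] at hcon
      have h1 : ∑ x : X n, u x ^ 2 = 0 := by
        apply Finset.sum_eq_zero
        intro x _
        rw [hSu x (by rw [hcon]; exact Finset.notMem_empty x)]
        norm_num
      linarith
    have hcard : t * (#S : ℝ) ≤ a := by
      calc t * (#S : ℝ) = ∑ x ∈ S, t := by
            rw [Finset.sum_const, nsmul_eq_mul, mul_comm]
        _ ≤ ∑ x ∈ S, f x := Finset.sum_le_sum fun x hx => (Finset.mem_filter.mp hx).2.le
        _ ≤ ∑ x : X n, f x :=
            Finset.sum_le_sum_of_subset_of_nonneg (Finset.subset_univ _) fun x _ _ => hf x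
    have hS0 : 0 < (#S : ℝ) := by exact_mod_cast hSne.card_pos
    have hlog : Real.log (2 ^ n * M / (4 * a ^ 2)) ≤ Real.log (2 ^ n / (#S : ℝ)) := by
      apply Real.log_le_log (by positivity)
      rw [div_le_div_iff₀ (by positivity) hS0]
      have h1 : M * (#S : ℝ) ≤ 4 * a ^ 2 := by
        have h2 : t * (#S : ℝ) * (4 * a) ≤ a * (4 * a) :=
          mul_le_mul_of_nonneg_right hcard (by positivity)
        have h3 : t * (#S : ℝ) * (4 * a) = M * (#S : ℝ) := by
          rw [ht]
          field_simp
        rw [h3] at h2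
        linarith
      have h4 : (0 : ℝ) ≤ 2 ^ n := by positivity
      calc 2 ^ n * M * (#S : ℝ) = 2 ^ n * (M * (#S : ℝ)) := by ring
        _ ≤ 2 ^ n * (4 * a ^ 2) := mul_le_mul_of_nonneg_left h1 h4
    have hFK := faber_krahn u S hSu hSne
    have hEn := nash_En_trunc f t
    have h5 : (1 / 2 : ℝ) * Real.log (2 ^ n * M / (4 * a ^ 2)) * (M / 2)
        ≤ (1 / 2 : ℝ) * Real.log (2 ^ n / (#S : ℝ)) * ∑ x : X n, u x ^ 2 := by
      apply mul_le_mul _ hsum (by positivity)
      · linarith
      · linarith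
    have h6 : (1 / 4 : ℝ) * Real.log (2 ^ n * M / (4 * a ^ 2)) * M
        = (1 / 2 : ℝ) * Real.log (2 ^ n * M / (4 * a ^ 2)) * (M / 2) := by ring
    rw [h6]
    exact h5.trans (hFK.trans hEn)

end Pool.Agent.MP_291ce2_pr
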