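import Pool.Agent.MP_291ce2_pr.Kernel
import Pool.Agent.MP_291ce2_pr.Nash

set_option autoImplicit false

/-! [CW-6b] hasDerivAt_noise, noise_small.
Uses sum_split, Qk_row, Qk_symm, Qk_nonneg, Qk_zero ([CW-1]) and nash ([CW-6a]). -/

namespace Pool.Agent.MP_291ce2_pr

open Finset
open scoped Classical

variable {n : ℕ}

/-- flip coordinate `i` -/
private def fl (i : Fin n) (x : X n) : X n := Function.update x i (!x i)

private theorem q_deriv (a b : Bool) (t : ℝ) :
    HasDerivAt (fun s => q s a b) (if a = b then (-1 : ℝ) else 1) t := by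
  unfold q
  by_cases h : a = b
  · simp only [h, if_true]
    simpa using (hasDerivAt_id t).const_sub 1
  · simp only [h, if_false]
    exact hasDerivAt_id t

private theorem q_flip (a b : Bool) {t : ℝ} (ht : 1 - 2 * t ≠ 0) :
    (if a = b then (-1 : ℝ) else 1) = -(1 / (1 - 2 * t)) * (q t a b - q t (!a) b) := by
  unfold q
  cases a <;> cases b <;> simp <;> field_simp <;> ring

private theorem Qk_deriv (x y : X n) {t : ℝ} (ht : 1 - 2 * t ≠ 0) :
    HasDerivAt (fun s => Qk s x y) (∑ i : Fin n, -(1 / (1 - 2 * t)) * (Qk t x y - Qk t (fl i x) y)) t := by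
  unfold Qk
  have h := HasDerivAt.fun_finsetProd (u := (Finset.univ : Finset (Fin n)))
    (f := fun i s => q s (x i) (y i)) (f' := fun i => if x i = y i then (-1 : ℝ) else 1) (x := t)
    (fun i _ => q_deriv (x i) (y i) t)
  refine h.congr_deriv ?_
  refine Finset.sum_congr rfl fun i _ => ?_
  rw [q_flip (x i) (y i) ht, smul_eq_mul, ← Finset.mul_prod_erase univ (fun j => q t (x j) (y j)) (Finset.mem_univ i),
    ← Finset.mul_prod_erase univ (fun j => q t (fl i x j) (y j)) (Finset.mem_univ i)]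
  have e1 : ∏ j ∈ univ.erase i, q t (fl i x j) (y j) = ∏ j ∈ univ.erase i, q t (x j) (y j) := by
    refine Finset.prod_congr rfl fun j hj => ?_
    rw [fl, Function.update_of_ne (Finset.ne_of_mem_erase hj)]
  have e2 : fl i x i = !x i := by simp [fl]
  rw [e1, e2]
  ring

private theorem Qf_deriv (g : X n → ℝ) (x : X n) {t : ℝ} (ht : 1 - 2 * t ≠ 0) :
    HasDerivAt (fun s => Qf s g x) (∑ i : Fin n, -(1 / (1 - 2 * t)) * (Qf t g x - Qf t g (fl i x))) t := by
  have h : HasDerivAt (fun s => ∑ y : X n, Qk s x y * g y)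
      (∑ y : X n, (∑ i : Fin n, -(1 / (1 - 2 * t)) * (Qk t x y - Qk t (fl i x) y)) * g y) t :=
    HasDerivAt.fun_sum fun y _ => (Qk_deriv x y ht).mul_const (g y)
  refine h.congr_deriv ?_
  unfold Qf
  simp only [Finset.sum_mul]
  rw [Finset.sum_comm]
  refine Finset.sum_congr rfl fun i _ => ?_
  rw [← Finset.sum_sub_distrib, Finset.mul_sum]
  refine Finset.sum_congr rfl fun y _ => ?_
  ring

theorem hasDerivAt_noise (g : X n → ℝ) {η : ℝ} (h0 : 0 ≤ η) (h1 : η < 1 / 2) :
    HasDerivAt (fun s => ∑ x : X n, (Qf s g x) ^ 2)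
      (-(2 / (1 - 2 * η)) * En Set.univ (Qf η g)) η := by
  have ht : 1 - 2 * η ≠ 0 := by linarith
  have h : HasDerivAt (fun s => ∑ x : X n, (Qf s g x) ^ 2)
      (∑ x : X n, (2 * Qf η g x) * (∑ i : Fin n, -(1 / (1 - 2 * η)) * (Qf η g x - Qf η g (fl i x)))) η := by
    refine HasDerivAt.fun_sum fun x _ => ?_
    have := (Qf_deriv g x ht).fun_pow 2
    simpa using this
  refine h.congr_deriv ?_
  have hup : ∀ (i : Fin n) (x : X n), x ∈ lo i → fl i x = up i x ∧ fl i (up i x) = x := by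
    intro i x hx
    have hxi : x i = false := by simpa [lo] using hx
    constructor
    · simp [fl, up, hxi]
    · simp only [fl, up, Function.update_self, Function.update_idem, Bool.not_true]
      rw [← hxi, Function.update_eq_self]
  unfold En
  simp only [Set.mem_univ, if_true]
  simp only [Finset.mul_sum]
  rw [Finset.sum_comm]
  refine Finset.sum_congr rfl fun i _ => ?_
  rw [sum_split i]
  refine Finset.sum_congr rfl fun x hx => ?_
  rw [(hup i x hx).1, (hup i x hx).2]
  ring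

private theorem Qf_nonneg {g : X n → ℝ} (hg : ∀ x, 0 ≤ g x) {t : ℝ} (h0 : 0 ≤ t) (h1 : t ≤ 1)
    (x : X n) : 0 ≤ Qf t g x :=
  Finset.sum_nonneg fun y _ => mul_nonneg (Qk_nonneg h0 h1 x y) (hg y)

private theorem sum_Qf (g : X n → ℝ) (t : ℝ) : ∑ x : X n, Qf t g x = ∑ x : X n, g x := by
  unfold Qf
  rw [Finset.sum_comm]
  refine Finset.sum_congr rfl fun y _ => ?_
  rw [← Finset.sum_mul]
  have : ∑ x : X n, Qk t x y = 1 := by
    rw [← Qk_row t y]
    exact Finset.sum_congr rfl fun x _ => Qk_symm t x y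
  rw [this, one_mul]

private theorem Qf_zero (g : X n → ℝ) (x : X n) : Qf 0 g x = g x := by
  unfold Qf
  simp [Qk_zero]

private theorem En_nonneg (g : X n → ℝ) : 0 ≤ En Set.univ g := by
  unfold En
  exact Finset.sum_nonneg fun _ _ => Finset.sum_nonneg fun _ _ => by split_ifs <;> positivity

theorem noise_small {g : X n → ℝ} (hg : ∀ x, 0 ≤ g x) (S : Finset (X n))
    (hS : ∀ x, x ∉ S → g x = 0) {σ δ η : ℝ} (hσ : 0 < σ) (hSσ : (#S : ℝ) ≤ σ * 2 ^ n)
    (hδ : 0 < δ) (hδ1 : δ ≤ 1) (h0 : 0 ≤ η) (h1 : η ≤ 1 / 4)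
    (h : 2 ≤ η * δ * Real.log (δ / (4 * σ))) :
    ∑ x : X n, (Qf η g x) ^ 2 ≤ δ * ∑ x : X n, g x ^ 2 := by
  by_contra hcon
  push Not at hcon
  set M : ℝ → ℝ := fun s => ∑ x : X n, (Qf s g x) ^ 2 with hM
  have hM0 : M 0 = ∑ x : X n, g x ^ 2 := by simp [hM, Qf_zero]
  rw [← hM0] at hcon
  have hder : ∀ s ∈ Set.Icc (0 : ℝ) η, HasDerivAt M (-(2 / (1 - 2 * s)) * En Set.univ (Qf s g)) s :=
    fun s hs => hasDerivAt_noise g hs.1 (by linarith [hs.2])
  have hle2 : ∀ s ∈ Set.Icc (0 : ℝ) η, -(2 / (1 - 2 * s)) * En Set.univ (Qf s g) ≤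
      -(2 * En Set.univ (Qf s g)) := by
    intro s hs
    have h2 : 2 ≤ 2 / (1 - 2 * s) := by
      rw [le_div_iff₀ (by linarith [hs.2])]
      linarith [hs.1]
    nlinarith [En_nonneg (Qf s g)]
  have hcont : ContinuousOn M (Set.Icc 0 η) := fun s hs => (hder s hs).continuousAt.continuousWithinAt
  have hanti : AntitoneOn M (Set.Icc 0 η) := by
    apply antitoneOn_of_deriv_nonpos (convex_Icc 0 η) hcont
    · intro s hs
      exact (hder s (interior_subset hs)).differentiableAt.differentiableWithinAt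
    · intro s hs
      rw [(hder s (interior_subset hs)).deriv]
      have := hle2 s (interior_subset hs)
      linarith [En_nonneg (Qf s g)]
  have hM0n : 0 ≤ M 0 := Finset.sum_nonneg fun _ _ => sq_nonneg _
  have hMη : M η ≤ M 0 := hanti ⟨le_rfl, h0⟩ ⟨h0, le_rfl⟩ h0
  have hM0p : 0 < M 0 := by
    rcases hM0n.eq_or_lt with h' | h'
    · rw [← h'] at hcon hMη
      linarith
    · exact h'
  have hlog : 0 < Real.log (δ / (4 * σ)) := by
    by_contra hneg
    push Not at hneg
    have : η * δ * Real.log (δ / (4 * σ)) ≤ 0 := mul_nonpos_of_nonneg_of_nonpos (by positivity) hneg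
    linarith
  -- the sum of g
  set a := ∑ x : X n, g x with ha
  have ha0 : 0 ≤ a := Finset.sum_nonneg fun x _ => hg x
  have hap : 0 < a := by
    rcases ha0.eq_or_lt with h' | h'
    · exfalso
      have hz : ∀ x, g x = 0 := by
        intro x
        exact (Finset.sum_eq_zero_iff_of_nonneg (fun x _ => hg x)).1 h'.symm x (Finset.mem_univ x)
      rw [hM0] at hM0p
      simp [hz] at hM0p
    · exact h'
  have ha2 : a ^ 2 ≤ σ * 2 ^ n * M 0 := by
    have e1 : a = ∑ x ∈ S, g x := by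
      rw [ha]
      exact (Finset.sum_subset (Finset.subset_univ S) (fun x _ hx => hS x hx)).symm
    have e2 : (∑ x ∈ S, g x) ^ 2 ≤ #S * ∑ x ∈ S, g x ^ 2 := sq_sum_le_card_mul_sum_sq
    have e3 : ∑ x ∈ S, g x ^ 2 ≤ M 0 := by
      rw [hM0]
      exact Finset.sum_le_sum_of_subset_of_nonneg (Finset.subset_univ S) (fun _ _ _ => sq_nonneg _)
    calc a ^ 2 ≤ #S * ∑ x ∈ S, g x ^ 2 := by rw [e1]; exact e2
      _ ≤ (σ * 2 ^ n) * M 0 := mul_le_mul hSσ e3 (Finset.sum_nonneg fun _ _ => sq_nonneg _) (by positivity)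
  set K := (1 / 2) * Real.log (δ / (4 * σ)) * (δ * M 0) with hK
  have hrate : ∀ s ∈ Set.Icc (0 : ℝ) η, -(2 / (1 - 2 * s)) * En Set.univ (Qf s g) ≤ -K := by
    intro s hs
    have hMs : δ * M 0 < M s := hcon.trans_le (hanti hs ⟨h0, le_rfl⟩ hs.2)
    have hMsp : 0 < M s := lt_of_le_of_lt (by positivity) hMs
    have hn := nash (Qf s g) (Qf_nonneg hg hs.1 (by linarith [hs.2])) hMsp
    rw [sum_Qf, ← ha] at hn
    change (1 / 4 : ℝ) * Real.log (2 ^ n * M s / (4 * a ^ 2)) * M s ≤ En Set.univ (Qf s g) at hn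
    have hll : Real.log (δ / (4 * σ)) ≤ Real.log (2 ^ n * M s / (4 * a ^ 2)) := by
      apply Real.log_le_log (by positivity)
      rw [div_le_div_iff₀ (by positivity) (by positivity)]
      have h5 : δ * (4 * a ^ 2) ≤ δ * (4 * (σ * 2 ^ n * M 0)) := by gcongr
      have h6 : (2 : ℝ) ^ n * (δ * M 0) * (4 * σ) ≤ 2 ^ n * M s * (4 * σ) := by gcongr
      linarith
    have h7 : Real.log (δ / (4 * σ)) * (δ * M 0) ≤ Real.log (2 ^ n * M s / (4 * a ^ 2)) * M s :=
      mul_le_mul hll hMs.le (by positivity) (hlog.le.trans hll)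
    have h8 := hle2 s hs
    rw [hK]
    linarith
  have hanti2 : AntitoneOn (fun s => M s + K * s) (Set.Icc 0 η) := by
    have hd2 : ∀ s ∈ Set.Icc (0 : ℝ) η, HasDerivAt (fun s => M s + K * s)
        (-(2 / (1 - 2 * s)) * En Set.univ (Qf s g) + K) s := by
      intro s hs
      have h2 : HasDerivAt (fun s : ℝ => K * s) K s := by
        simpa using (hasDerivAt_id s).const_mul K
      exact (hder s hs).fun_add h2
    apply antitoneOn_of_deriv_nonpos (convex_Icc 0 η)
      (fun s hs => (hd2 s hs).continuousAt.continuousWithinAt)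
    · intro s hs
      exact (hd2 s (interior_subset hs)).differentiableAt.differentiableWithinAt
    · intro s hs
      rw [(hd2 s (interior_subset hs)).deriv]
      have := hrate s (interior_subset hs)
      linarith
  have hfin := hanti2 ⟨le_rfl, h0⟩ ⟨h0, le_rfl⟩ h0
  simp only [mul_zero, add_zero] at hfin
  have hKη : M 0 ≤ K * η := by
    rw [hK]
    have : (1 / 2) * Real.log (δ / (4 * σ)) * (δ * M 0) * η
        = (1 / 2) * (η * δ * Real.log (δ / (4 * σ))) * M 0 := by ring
    rw [this]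
    nlinarith
  have : 0 < M η := lt_of_le_of_lt (by positivity) hcon
  linarith

end Pool.Agent.MP_291ce2_pr
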