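import Pool.Agent.MP_291ce2_pr.MainIneq
import Pool.Agent.MP_291ce2_pr.Noise
import Pool.Agent.MP_291ce2_pr.Kernel
import Pool.Agent.MP_291ce2_pr.Entropy

set_option autoImplicit false

/-! [CW-11a] dissipation of entropy when much mass is high and robust.
Uses `Qk_nonneg`, `Qk_row`, `Qf_semigroup`, `main_ineq`, `noise_small`. -/

namespace Pool.Agent.MP_291ce2_pr

open Finset
open scoped Classical

variable {n : ℕ}

private theorem Qf_ind_nonneg (A : Set (X n)) {t : ℝ} (h0 : 0 ≤ t) (h1 : t ≤ 1) (x : X n) :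
    0 ≤ Qf t (ind A) x := by
  unfold Qf
  apply Finset.sum_nonneg
  intro y _
  apply mul_nonneg (Qk_nonneg h0 h1 x y)
  unfold ind
  split_ifs <;> norm_num

private theorem Qf_ind_le (A : Set (X n)) {t : ℝ} (h0 : 0 ≤ t) (h1 : t ≤ 1) (x : X n) :
    Qf t (ind A) x ≤ 1 := by
  unfold Qf
  rw [← Qk_row t x]
  apply Finset.sum_le_sum
  intro y _
  have h2 : ind A y ≤ 1 := by
    unfold ind
    split_ifs <;> norm_num
  calc Qk t x y * ind A y ≤ Qk t x y * 1 :=
        mul_le_mul_of_nonneg_left h2 (Qk_nonneg h0 h1 x y)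
    _ = Qk t x y := mul_one _

private theorem En_nonneg (A : Set (X n)) (g : X n → ℝ) : 0 ≤ En A g := by
  unfold En
  apply Finset.sum_nonneg
  intro i _
  apply Finset.sum_nonneg
  intro x _
  split_ifs
  · positivity
  · exact le_rfl

private theorem gh_nonneg (a x : ℝ) : 0 ≤ gh a x := by
  unfold gh
  exact le_max_right _ _

private theorem gh_sq_le {a x : ℝ} (hx : 0 ≤ x) : gh a x ^ 2 ≤ x := by
  have h1 : gh a x ≤ √x := by
    unfold gh
    apply max_le
    · linarith [Real.sqrt_nonneg a]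
    · exact Real.sqrt_nonneg x
  calc gh a x ^ 2 ≤ (√x) ^ 2 := pow_le_pow_left₀ (gh_nonneg a x) h1 2
    _ = x := Real.sq_sqrt hx

private theorem gh_sq_ge {b x : ℝ} (hb : 0 < b) (hx : b ≤ x) : x / 4 ≤ gh (b / 4) x ^ 2 := by
  have h4 : √(b / 4) = √b / 2 := by
    rw [Real.sqrt_div hb.le]
    congr 1
    rw [show (4 : ℝ) = 2 ^ 2 by norm_num]
    exact Real.sqrt_sq (by norm_num)
  have h5 : √b ≤ √x := Real.sqrt_le_sqrt hx
  have h1 : √x / 2 ≤ gh (b / 4) x := by
    unfold gh
    apply le_trans _ (le_max_left _ _)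
    rw [h4]
    linarith
  calc x / 4 = (√x / 2) ^ 2 := by
        rw [div_pow, Real.sq_sqrt (hb.le.trans hx)]; norm_num
    _ ≤ gh (b / 4) x ^ 2 := pow_le_pow_left₀ (by positivity) h1 2

private theorem gh_zero_of_le {a x : ℝ} (hx : x ≤ a) : gh a x = 0 := by
  unfold gh
  apply max_eq_right
  have := Real.sqrt_le_sqrt hx
  linarith

/-- dissipation of entropy when much mass is high and robust -/
theorem energy_low (hn : 1 ≤ n) {A : Set (X n)} (hA : IsUpperSet A) {c : ℝ} (hc : 0 < c)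
    (hc1 : c ≤ 1)
    {f : X n → ℝ} (hf : ∀ x, 0 ≤ f x) (hfA : ∀ x, x ∉ A → f x = 0) {m b : ℝ}
    (hm : avg f = m) (hm1 : m ≤ 1) (hb0 : 0 < b) (hb1 : 256 / c ≤ Real.log b)
    (hlow : avg (fun x => min (f x) b) ≤ c / 4 * m)
    (hrob : ∀ t : ℝ, 0 ≤ t → t ≤ 1 / 2 → 3 / 4 * c * m ≤ avg (fun x => f x * Qf t (ind A) x)) :
    c ^ 3 / 11520000 * Real.log b * m * 2 ^ n ≤ En A (fun x => gh (b / 4) (f x)) := by
  have hN : (0 : ℝ) < 2 ^ n := by positivity
  have hsum : ∑ x : X n, f x = m * 2 ^ n := by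
    rw [← hm]
    unfold avg
    field_simp
  have hm0 : 0 ≤ m := by
    rw [← hm]
    unfold avg
    exact div_nonneg (Finset.sum_nonneg (fun x _ => hf x)) hN.le
  have hlow' : ∑ x : X n, min (f x) b ≤ c / 4 * m * 2 ^ n := by
    unfold avg at hlow
    rwa [div_le_iff₀ hN] at hlow
  rcases hm0.eq_or_lt with hmz | hmpos
  · rw [← hmz]
    simp only [mul_zero, zero_mul]
    exact En_nonneg _ _
  by_contra hcon
  push Not at hcon
  set h : ℝ := Real.log b with hh
  have hh256 : 256 ≤ h := by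
    have : (256 : ℝ) ≤ 256 / c := by
      rw [le_div_iff₀ hc]
      nlinarith
    linarith
  have hhpos : 0 < h := by linarith
  have hch : 256 ≤ c * h := by
    have := hb1
    rw [div_le_iff₀ hc] at this
    linarith
  set g : X n → ℝ := fun x => gh (b / 4) (f x) with hg
  have hg0 : ∀ x, 0 ≤ g x := fun x => gh_nonneg _ _
  have hgA : ∀ x, x ∉ A → g x = 0 := by
    intro x hx
    rw [hg]
    change gh (b / 4) (f x) = 0
    rw [hfA x hx]
    exact gh_zero_of_le (by positivity)
  have hgsq : ∀ x, g x ^ 2 ≤ f x := fun x => gh_sq_le (hf x)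
  have hGsum : ∑ x : X n, g x ^ 2 ≤ m * 2 ^ n := by
    rw [← hsum]
    exact Finset.sum_le_sum (fun x _ => hgsq x)
  -- the support
  set S : Finset (X n) := univ.filter (fun x => b / 4 < f x) with hS
  have hgS : ∀ x, x ∉ S → g x = 0 := by
    intro x hx
    apply gh_zero_of_le
    by_contra hcc
    push Not at hcc
    exact hx (Finset.mem_filter.mpr ⟨Finset.mem_univ x, hcc⟩)
  have hScard : (#S : ℝ) * (b / 4) ≤ c / 4 * m * 2 ^ n := by
    calc (#S : ℝ) * (b / 4) = ∑ x ∈ S, b / 4 := by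
          rw [Finset.sum_const, nsmul_eq_mul]
      _ ≤ ∑ x ∈ S, min (f x) b := by
          apply Finset.sum_le_sum
          intro x hx
          have := (Finset.mem_filter.mp hx).2
          apply le_min this.le
          linarith
      _ ≤ ∑ x : X n, min (f x) b := by
          apply Finset.sum_le_sum_of_subset_of_nonneg (Finset.subset_univ _)
          intro x _ _
          exact le_min (hf x) hb0.le
      _ ≤ c / 4 * m * 2 ^ n := hlow'
  have hSσ : (#S : ℝ) ≤ 1 / b * 2 ^ n := by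
    have e1 : c / 4 * m * 2 ^ n ≤ 1 / 4 * 2 ^ n := by
      apply mul_le_mul_of_nonneg_right _ hN.le
      nlinarith
    have e2 : (#S : ℝ) * b ≤ 2 ^ n := by linarith
    rw [one_div, inv_mul_eq_div, le_div_iff₀ hb0]
    exact e2
  set η : ℝ := 64 / (c * h) with hη
  have hchpos : 0 < c * h := by positivity
  have hη0 : 0 ≤ η := by positivity
  have hη4 : η ≤ 1 / 4 := by
    rw [hη, div_le_iff₀ hchpos]
    linarith
  have hlog : h / 2 ≤ Real.log (c / 16 / (4 * (1 / b))) := by
    have e1 : c / 16 / (4 * (1 / b)) = b * (c / 64) := by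
      field_simp
      norm_num
    rw [e1, Real.log_mul hb0.ne' (by positivity)]
    have e2 : Real.log (64 / c) ≤ 64 / c - 1 := Real.log_le_sub_one_of_pos (by positivity)
    have e3 : Real.log (c / 64) = - Real.log (64 / c) := by
      rw [← Real.log_inv, inv_div]
    have e4 : 64 / c = 256 / c / 4 := by ring
    rw [e3]
    linarith
  have hcond : 2 ≤ η * (c / 16) * Real.log (c / 16 / (4 * (1 / b))) := by
    have e1 : η * (c / 16) = 4 / h := by
      rw [hη]
      field_simp
      norm_num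
    rw [e1]
    calc (2 : ℝ) = 4 / h * (h / 2) := by field_simp; norm_num
      _ ≤ 4 / h * Real.log (c / 16 / (4 * (1 / b))) :=
          mul_le_mul_of_nonneg_left hlog (by positivity)
  have hnoise := noise_small hg0 S hgS (σ := 1 / b) (δ := c / 16) (η := η) (by positivity) hSσ
    (by positivity) (by linarith) hη0 hη4 hcond
  rw [← Qf_semigroup η g] at hnoise
  set τ : ℝ := 2 * η * (1 - η) with hτ
  have hτ0 : 0 ≤ τ := by
    rw [hτ]
    apply mul_nonneg (by linarith)
    linarith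
  have hτη : τ ≤ 2 * η := by
    rw [hτ]
    nlinarith
  have hτ2 : τ ≤ 1 / 2 := by linarith
  have hmain := main_ineq hA hg0 hgA hτ0 hτ2
  have hr := hrob τ hτ0 hτ2
  unfold avg at hr
  rw [le_div_iff₀ hN] at hr
  have hpt : ∀ x : X n, (1 / 4 : ℝ) * (f x * Qf τ (ind A) x - min (f x) b)
      ≤ g x ^ 2 * Qf τ (ind A) x := by
    intro x
    have r0 := Qf_ind_nonneg A hτ0 (by linarith) x
    have r1 := Qf_ind_le A hτ0 (by linarith) x
    rcases le_or_gt b (f x) with hbf | hbf
    · have e1 : f x / 4 ≤ g x ^ 2 := gh_sq_ge hb0 hbf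
      have e2 : 0 ≤ min (f x) b := le_min (hf x) hb0.le
      have e3 := mul_le_mul_of_nonneg_right e1 r0
      linarith
    · rw [min_eq_left hbf.le]
      have e1 : f x * Qf τ (ind A) x ≤ f x * 1 := mul_le_mul_of_nonneg_left r1 (hf x)
      have e2 : 0 ≤ g x ^ 2 * Qf τ (ind A) x := mul_nonneg (sq_nonneg _) r0
      linarith
  have hlower : c / 8 * (m * 2 ^ n) ≤ ∑ x : X n, g x ^ 2 * Qf τ (ind A) x := by
    calc c / 8 * (m * 2 ^ n) ≤ 1 / 4 * (∑ x : X n, f x * Qf τ (ind A) x
          - ∑ x : X n, min (f x) b) := by linarith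
      _ = ∑ x : X n, (1 / 4 : ℝ) * (f x * Qf τ (ind A) x - min (f x) b) := by
          rw [← Finset.sum_sub_distrib, Finset.mul_sum]
      _ ≤ ∑ x : X n, g x ^ 2 * Qf τ (ind A) x := Finset.sum_le_sum (fun x _ => hpt x)
  set M : ℝ := m * 2 ^ n with hM
  have hMpos : 0 < M := by positivity
  set E : ℝ := En A g with hE
  have hE0 : 0 ≤ E := En_nonneg _ _
  -- the energy is small by assumption
  have hEs : E < c ^ 3 / 11520000 * h * M := by
    calc E < c ^ 3 / 11520000 * h * m * 2 ^ n := hcon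
      _ = c ^ 3 / 11520000 * h * M := by rw [hM]; ring
  have hτE : τ * E ≤ c ^ 2 * M / 90000 := by
    calc τ * E ≤ 2 * η * E := mul_le_mul_of_nonneg_right hτη hE0
      _ ≤ 2 * η * (c ^ 3 / 11520000 * h * M) := mul_le_mul_of_nonneg_left hEs.le (by positivity)
      _ = c ^ 2 * M / 90000 := by
          rw [hη]
          field_simp
          norm_num
  have hsq : √τ * √(∑ x : X n, g x ^ 2) * √E ≤ c / 300 * M := by
    have e1 : √(∑ x : X n, g x ^ 2) ≤ √M := Real.sqrt_le_sqrt hGsum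
    have e2 : √τ * √E ≤ c / 300 * √M := by
      rw [← Real.sqrt_mul hτ0]
      calc √(τ * E) ≤ √(c ^ 2 * M / 90000) := Real.sqrt_le_sqrt hτE
        _ = √((c / 300) ^ 2 * M) := by congr 1; ring
        _ = c / 300 * √M := by
            rw [Real.sqrt_mul (by positivity), Real.sqrt_sq (by positivity)]
    calc √τ * √(∑ x : X n, g x ^ 2) * √E = (√τ * √E) * √(∑ x : X n, g x ^ 2) := by ring
      _ ≤ (c / 300 * √M) * √M := by
          apply mul_le_mul e2 e1 (Real.sqrt_nonneg _)
          positivity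
      _ = c / 300 * (√M * √M) := by ring
      _ = c / 300 * M := by rw [Real.mul_self_sqrt hMpos.le]
  have hc2 : c ^ 2 * M ≤ c * M := by
    apply mul_le_mul_of_nonneg_right _ hMpos.le
    nlinarith
  have hcM : 0 < c * M := by positivity
  have hn1 : ∑ x : X n, g x * Qf τ g x ≤ c / 16 * M := by
    calc ∑ x : X n, g x * Qf τ g x ≤ c / 16 * ∑ x : X n, g x ^ 2 := hnoise
      _ ≤ c / 16 * M := mul_le_mul_of_nonneg_left hGsum (by positivity)
  have hm3 : 17 * √τ * √(∑ x : X n, g x ^ 2) * √E ≤ 17 * (c / 300 * M) := by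
    calc 17 * √τ * √(∑ x : X n, g x ^ 2) * √E
        = 17 * (√τ * √(∑ x : X n, g x ^ 2) * √E) := by ring
      _ ≤ 17 * (c / 300 * M) := mul_le_mul_of_nonneg_left hsq (by norm_num)
  have hm4 : 11 * τ * E ≤ 11 * (c ^ 2 * M / 90000) := by
    calc 11 * τ * E = 11 * (τ * E) := by ring
      _ ≤ _ := mul_le_mul_of_nonneg_left hτE (by norm_num)
  linarith

end Pool.Agent.MP_291ce2_pr
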