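import Pool.Agent.MP_291ce2_pr.Defs

set_option autoImplicit false

/-! [CW-5] Faber-Krahn inequality on the cube -/

namespace Pool.Agent.MP_291ce2_pr

open Finset
open scoped Classical

variable {n : ℕ}

private theorem sum_cons (F : X (n + 1) → ℝ) :
    ∑ x : X (n + 1), F x = ∑ b : Bool, ∑ x : X n, F (Fin.cons b x) := by
  rw [← Fintype.sum_prod_type' (fun (b : Bool) (x : X n) => F (Fin.cons b x))]
  exact (Fintype.sum_equiv (Fin.consEquiv (fun _ : Fin (n + 1) => Bool))
    (fun p : Bool × X n => F (Fin.cons p.1 p.2)) F (fun p => rfl)).symm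

private theorem sum_lo (i : Fin n) (F : X n → ℝ) :
    ∑ x ∈ lo i, F x = ∑ x : X n, if x i = false then F x else 0 := by
  rw [lo, Finset.sum_filter]

private theorem En_univ (g : X n → ℝ) :
    En Set.univ g = ∑ i : Fin n, ∑ x : X n, if x i = false then (g (up i x) - g x) ^ 2 else 0 := by
  unfold En
  refine Finset.sum_congr rfl fun i _ => ?_
  rw [sum_lo]
  simp

private theorem En_cons (g : X (n + 1) → ℝ) :
    En Set.univ g = En Set.univ (fun x : X n => g (Fin.cons false x))
      + En Set.univ (fun x : X n => g (Fin.cons true x))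
      + ∑ x : X n, (g (Fin.cons true x) - g (Fin.cons false x)) ^ 2 := by
  rw [En_univ, En_univ, En_univ, Fin.sum_univ_succ]
  have h0 : (∑ x : X (n + 1), if x 0 = false then (g (up 0 x) - g x) ^ 2 else 0)
      = ∑ x : X n, (g (Fin.cons true x) - g (Fin.cons false x)) ^ 2 := by
    rw [sum_cons]
    simp [up, Fin.update_cons_zero]
  have h1 : ∀ i : Fin n, (∑ x : X (n + 1), if x i.succ = false then (g (up i.succ x) - g x) ^ 2 else 0)
      = (∑ x : X n, if x i = false then (g (Fin.cons false (up i x)) - g (Fin.cons false x)) ^ 2 else 0)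
        + (∑ x : X n, if x i = false then (g (Fin.cons true (up i x)) - g (Fin.cons true x)) ^ 2 else 0) := by
    intro i
    rw [sum_cons]
    simp [up, Fin.cons_update, add_comm]
  rw [h0, Finset.sum_congr rfl (fun i _ => h1 i), Finset.sum_add_distrib]
  ring

private theorem log_aux {A T θ : ℝ} (hA : 0 ≤ A) (hT : 0 < T) (hθ : 0 < θ) :
    A * Real.log (2 * θ) ≤ T * θ - A + A * (2 * A / T - 1) := by
  rcases hA.eq_or_lt with rfl | hA
  · simp; positivity
  · have h1 : Real.log (2 * θ) = Real.log (θ * T / A) + Real.log (2 * A / T) := by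
      rw [← Real.log_mul (by positivity) (by positivity)]
      congr 1
      field_simp
    have h2 : Real.log (θ * T / A) ≤ θ * T / A - 1 := Real.log_le_sub_one_of_pos (by positivity)
    have h3 : Real.log (2 * A / T) ≤ 2 * A / T - 1 := Real.log_le_sub_one_of_pos (by positivity)
    rw [h1, mul_add]
    have h4 : A * Real.log (θ * T / A) ≤ A * (θ * T / A - 1) := mul_le_mul_of_nonneg_left h2 hA.le
    have h5 : A * Real.log (2 * A / T) ≤ A * (2 * A / T - 1) := mul_le_mul_of_nonneg_left h3 hA.le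
    have h6 : A * (θ * T / A - 1) = T * θ - A := by field_simp
    linarith

private theorem two_aux {A0 A1 θ0 θ1 : ℝ} (h0 : 0 ≤ A0) (h1 : 0 ≤ A1) (hθ0 : 0 < θ0) (hθ1 : 0 < θ1)
    (hθ : θ0 + θ1 = 1) :
    A0 * Real.log (2 * θ0) + A1 * Real.log (2 * θ1) ≤ 2 * (√A0 - √A1) ^ 2 := by
  rcases (add_nonneg h0 h1).eq_or_lt with hT | hT
  · have e0 : A0 = 0 := by linarith
    have e1 : A1 = 0 := by linarith
    simp [e0, e1]
  · have i0 := log_aux h0 hT hθ0
    have i1 := log_aux h1 hT hθ1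
    set a0 := √A0 with ha0
    set a1 := √A1 with ha1
    have e0 : A0 = a0 ^ 2 := (Real.sq_sqrt h0).symm
    have e1 : A1 = a1 ^ 2 := (Real.sq_sqrt h1).symm
    have hsum : (A0 + A1) * θ0 - A0 + A0 * (2 * A0 / (A0 + A1) - 1)
        + ((A0 + A1) * θ1 - A1 + A1 * (2 * A1 / (A0 + A1) - 1)) = (A0 - A1) ^ 2 / (A0 + A1) := by
      have : θ1 = 1 - θ0 := by linarith
      rw [this]
      field_simp
      ring
    have hlast : (A0 - A1) ^ 2 / (A0 + A1) ≤ 2 * (a0 - a1) ^ 2 := by
      rw [div_le_iff₀ hT, e0, e1]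
      nlinarith [mul_nonneg (sq_nonneg (a0 - a1)) (sq_nonneg (a0 - a1)), sq_nonneg (a0 - a1), sq_nonneg (a0 + a1)]
    linarith

private theorem cs_aux (g0 g1 : X n → ℝ) :
    (√(∑ x, g0 x ^ 2) - √(∑ x, g1 x ^ 2)) ^ 2 ≤ ∑ x, (g1 x - g0 x) ^ 2 := by
  have h0 : 0 ≤ ∑ x, g0 x ^ 2 := Finset.sum_nonneg fun _ _ => sq_nonneg _
  have h1 : 0 ≤ ∑ x, g1 x ^ 2 := Finset.sum_nonneg fun _ _ => sq_nonneg _
  have hcs : ∑ x, g0 x * g1 x ≤ √(∑ x, g0 x ^ 2) * √(∑ x, g1 x ^ 2) :=
    Real.sum_mul_le_sqrt_mul_sqrt _ _ _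
  have e : ∑ x, (g1 x - g0 x) ^ 2 = ∑ x, g0 x ^ 2 + ∑ x, g1 x ^ 2 - 2 * ∑ x, g0 x * g1 x := by
    rw [Finset.mul_sum, ← Finset.sum_add_distrib, ← Finset.sum_sub_distrib]
    refine Finset.sum_congr rfl fun x _ => ?_
    ring
  rw [e]
  have s0 := Real.sq_sqrt h0
  have s1 := Real.sq_sqrt h1
  nlinarith

theorem faber_krahn (g : X n → ℝ) (S : Finset (X n)) (hS : ∀ x, x ∉ S → g x = 0)
    (hne : S.Nonempty) :
    (1 / 2 : ℝ) * Real.log (2 ^ n / (#S : ℝ)) * ∑ x : X n, g x ^ 2 ≤ En Set.univ g := by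
  induction n with
  | zero =>
    have hc : #S = 1 := by
      have h1 : #S ≤ Fintype.card (X 0) := Finset.card_le_univ S
      have h2 : Fintype.card (X 0) = 1 := by simp [X]
      have h3 := hne.card_pos
      omega
    simp [hc, En]
  | succ n ih =>
    set g0 : X n → ℝ := fun x => g (Fin.cons false x) with hg0
    set g1 : X n → ℝ := fun x => g (Fin.cons true x) with hg1
    set S0 : Finset (X n) := univ.filter (fun x => (Fin.cons false x : X (n + 1)) ∈ S) with hS0
    set S1 : Finset (X n) := univ.filter (fun x => (Fin.cons true x : X (n + 1)) ∈ S) with hS1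
    have hz0 : ∀ x, x ∉ S0 → g0 x = 0 := fun x hx => hS _ (by simpa [hS0] using hx)
    have hz1 : ∀ x, x ∉ S1 → g1 x = 0 := fun x hx => hS _ (by simpa [hS1] using hx)
    have hcard : (#S : ℝ) = #S0 + #S1 := by
      have e1 : (#S : ℝ) = ∑ x : X (n + 1), if x ∈ S then (1 : ℝ) else 0 := by simp
      rw [e1, sum_cons, Fintype.sum_bool, hS0, hS1, Finset.card_filter, Finset.card_filter]
      push_cast
      ring
    have hsum : ∑ x : X (n + 1), g x ^ 2 = ∑ x, g0 x ^ 2 + ∑ x, g1 x ^ 2 := by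
      rw [sum_cons, Fintype.sum_bool, add_comm]
    have hEn := En_cons g
    have hcs := cs_aux g0 g1
    have hA0 : 0 ≤ ∑ x, g0 x ^ 2 := Finset.sum_nonneg fun _ _ => sq_nonneg _
    have hA1 : 0 ≤ ∑ x, g1 x ^ 2 := Finset.sum_nonneg fun _ _ => sq_nonneg _
    have hEnn : ∀ f : X n → ℝ, 0 ≤ En Set.univ f := by
      intro f
      rw [En_univ]
      exact Finset.sum_nonneg fun _ _ => Finset.sum_nonneg fun _ _ => by split_ifs <;> positivity
    rw [hsum, hEn]
    set A0 := ∑ x, g0 x ^ 2 with hA0'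
    set A1 := ∑ x, g1 x ^ 2 with hA1'
    have hlog2 : Real.log 2 ≤ 1 := by
      have := Real.log_two_lt_d9
      linarith
    rcases S0.eq_empty_or_nonempty with h0 | h0
    · have hz : ∀ x, g0 x = 0 := fun x => hz0 x (by simp [h0])
      have hA00 : A0 = 0 := by simp [hA0', hz]
      have h1 : S1.Nonempty := by
        rw [← Finset.card_pos]
        have : (0 : ℝ) < #S := by exact_mod_cast hne.card_pos
        rw [hcard, h0] at this
        simpa using this
      have ih1 := ih g1 S1 hz1 h1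
      have hc1 : (0 : ℝ) < #S1 := by exact_mod_cast h1.card_pos
      have hl : Real.log (2 ^ (n + 1) / (#S : ℝ)) = Real.log (2 ^ n / (#S1 : ℝ)) + Real.log 2 := by
        rw [hcard, h0, ← Real.log_mul (by positivity) (by positivity)]
        congr 1
        simp only [Finset.card_empty, Nat.cast_zero, zero_add, pow_succ]
        ring
      have hs : ∑ x, (g1 x - g0 x) ^ 2 = A1 := by simp [hA1', hz]
      rw [hl, hA00]
      have := hEnn g0
      have h5 : Real.log 2 * A1 ≤ 1 * A1 := mul_le_mul_of_nonneg_right hlog2 hA1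
      change _ ≤ En Set.univ g0 + En Set.univ g1 + ∑ x, (g1 x - g0 x) ^ 2
      rw [hs]
      linarith
    rcases S1.eq_empty_or_nonempty with h1 | h1
    · have hz : ∀ x, g1 x = 0 := fun x => hz1 x (by simp [h1])
      have hA10 : A1 = 0 := by simp [hA1', hz]
      have ih0 := ih g0 S0 hz0 h0
      have hc0 : (0 : ℝ) < #S0 := by exact_mod_cast h0.card_pos
      have hl : Real.log (2 ^ (n + 1) / (#S : ℝ)) = Real.log (2 ^ n / (#S0 : ℝ)) + Real.log 2 := by
        rw [hcard, h1, ← Real.log_mul (by positivity) (by positivity)]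
        congr 1
        simp only [Finset.card_empty, Nat.cast_zero, add_zero, pow_succ]
        ring
      have hs : ∑ x, (g1 x - g0 x) ^ 2 = A0 := by simp [hA0', hz]
      rw [hl, hA10]
      have := hEnn g1
      have h5 : Real.log 2 * A0 ≤ 1 * A0 := mul_le_mul_of_nonneg_right hlog2 hA0
      change _ ≤ En Set.univ g0 + En Set.univ g1 + ∑ x, (g1 x - g0 x) ^ 2
      rw [hs]
      linarith
    · have ih0 := ih g0 S0 hz0 h0
      have ih1 := ih g1 S1 hz1 h1
      have hc0 : (0 : ℝ) < #S0 := by exact_mod_cast h0.card_pos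
      have hc1 : (0 : ℝ) < #S1 := by exact_mod_cast h1.card_pos
      have hl0 : Real.log (2 ^ (n + 1) / (#S : ℝ))
          = Real.log (2 ^ n / (#S0 : ℝ)) + Real.log (2 * ((#S0 : ℝ) / (#S0 + #S1))) := by
        rw [hcard, ← Real.log_mul (by positivity) (by positivity)]
        congr 1
        field_simp
        ring
      have hl1 : Real.log (2 ^ (n + 1) / (#S : ℝ))
          = Real.log (2 ^ n / (#S1 : ℝ)) + Real.log (2 * ((#S1 : ℝ) / (#S0 + #S1))) := by
        rw [hcard, ← Real.log_mul (by positivity) (by positivity)]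
        congr 1
        field_simp
        ring
      have htwo := two_aux hA0 hA1 (θ0 := (#S0 : ℝ) / (#S0 + #S1)) (θ1 := (#S1 : ℝ) / (#S0 + #S1))
        (by positivity) (by positivity) (by field_simp)
      change _ ≤ En Set.univ g0 + En Set.univ g1 + ∑ x, (g1 x - g0 x) ^ 2
      have e : (1 / 2 : ℝ) * Real.log (2 ^ (n + 1) / (#S : ℝ)) * (A0 + A1)
          = (1 / 2 : ℝ) * Real.log (2 ^ n / (#S0 : ℝ)) * A0
            + (1 / 2 : ℝ) * Real.log (2 ^ n / (#S1 : ℝ)) * A1
            + (1 / 2) * (A0 * Real.log (2 * ((#S0 : ℝ) / (#S0 + #S1)))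
              + A1 * Real.log (2 * ((#S1 : ℝ) / (#S0 + #S1)))) := by
        have : (1 / 2 : ℝ) * Real.log (2 ^ (n + 1) / (#S : ℝ)) * (A0 + A1)
          = (1 / 2 : ℝ) * Real.log (2 ^ (n + 1) / (#S : ℝ)) * A0
            + (1 / 2 : ℝ) * Real.log (2 ^ (n + 1) / (#S : ℝ)) * A1 := by ring
        rw [this]
        nth_rewrite 1 [hl0]
        rw [hl1]
        ring
      rw [e]
      linarith

end Pool.Agent.MP_291ce2_pr
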