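import Pool.Agent.MP_291ce2_pr.MainIneq
import Pool.Agent.MP_291ce2_pr.Ops
import Pool.Agent.MP_291ce2_pr.Kernel

set_option autoImplicit false

/-! Spectral gap of the censored walk. -/

namespace Pool.Agent.MP_291ce2_pr

open Finset
open scoped Classical

variable {n : ℕ}

theorem En_nonneg_aux (A : Set (X n)) (g : X n → ℝ) : 0 ≤ En A g := by
  unfold En
  refine Finset.sum_nonneg fun i _ => Finset.sum_nonneg fun x _ => ?_
  split_ifs
  · positivity
  · exact le_rfl

theorem cnt_eq_card_aux (A : Set (X n)) :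
    cnt A = ((univ.filter fun x => x ∈ A).card : ℝ) := by
  unfold cnt
  rw [Finset.sum_boole]

theorem gap_half {A : Set (X n)} (hA : IsUpperSet A) {c : ℝ} (hc : 0 < c) (hc1 : c ≤ 1)
    (hcA : c ≤ prob A) {g : X n → ℝ} (hg : ∀ x, 0 ≤ g x) (S : Finset (X n))
    (hS : ∀ x, x ∉ S → g x = 0) (hSA : ∀ x ∈ S, x ∈ A) (hcard : (#S : ℝ) ≤ cnt A / 2) :
    c ^ 2 / 1000 * ∑ x : X n, g x ^ 2 ≤ En A g := by
  have hgA : ∀ x, x ∉ A → g x = 0 := fun x hx => hS x fun h => hx (hSA x h)
  have key := main_ineq hA hg hgA (t := 1 / 2) (by norm_num) le_rfl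
  set N := ∑ x : X n, g x ^ 2 with hN
  set E := En A g with hE
  have hN0 : 0 ≤ N := Finset.sum_nonneg fun x _ => by positivity
  have hE0 : 0 ≤ E := En_nonneg_aux A g
  have hp2 : (0 : ℝ) < 2 ^ n := by positivity
  -- the left hand side
  have e1 : ∀ x : X n, Qf (1 / 2) (ind A) x = prob A := by
    intro x
    unfold Qf prob cnt ind
    rw [Finset.sum_div]
    refine Finset.sum_congr rfl fun y _ => ?_
    rw [Qk_half]
    ring
  have e2 : ∀ x : X n, Qf (1 / 2) g x = (∑ y : X n, g y) / 2 ^ n := by
    intro x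
    unfold Qf
    rw [Finset.sum_div]
    refine Finset.sum_congr rfl fun y _ => ?_
    rw [Qk_half]
    ring
  have e3 : ∑ x : X n, g x ^ 2 * Qf (1 / 2) (ind A) x = prob A * N := by
    rw [hN, Finset.mul_sum]
    refine Finset.sum_congr rfl fun x _ => ?_
    rw [e1]
    ring
  have e4 : ∑ x : X n, g x * Qf (1 / 2) g x = (∑ x : X n, g x) ^ 2 / 2 ^ n := by
    have : ∀ x : X n, g x * Qf (1 / 2) g x = g x * ((∑ y : X n, g y) / 2 ^ n) := fun x => by
      rw [e2]
    rw [Finset.sum_congr rfl fun x _ => this x, ← Finset.sum_mul]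
    ring
  have e5 : ∑ x : X n, g x = ∑ x ∈ S, g x := by
    symm
    apply Finset.sum_subset (Finset.subset_univ S)
    intro x _ hx
    exact hS x hx
  have e6 : (∑ x : X n, g x) ^ 2 ≤ (#S : ℝ) * N := by
    rw [e5]
    refine (sq_sum_le_card_mul_sum_sq).trans ?_
    apply mul_le_mul_of_nonneg_left _ (Nat.cast_nonneg _)
    exact Finset.sum_le_sum_of_subset_of_nonneg (Finset.subset_univ S) fun x _ _ => by positivity
  have e7 : (∑ x : X n, g x) ^ 2 / 2 ^ n ≤ prob A / 2 * N := by
    have h1 : (∑ x : X n, g x) ^ 2 ≤ cnt A / 2 * N :=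
      e6.trans (mul_le_mul_of_nonneg_right hcard hN0)
    have h2 : prob A / 2 * N = cnt A / 2 * N / 2 ^ n := by
      unfold prob
      ring
    rw [h2]
    exact div_le_div_of_nonneg_right h1 hp2.le
  rw [e3, e4] at key
  have e8 : c / 2 * N ≤ prob A * N - (∑ x : X n, g x) ^ 2 / 2 ^ n := by
    have : c / 2 * N ≤ prob A / 2 * N := by
      apply mul_le_mul_of_nonneg_right _ hN0
      linarith
    linarith
  have hs : √(1 / 2 : ℝ) ≤ 708 / 1000 := by
    rw [Real.sqrt_le_left (by norm_num)]
    norm_num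
  set y := √N * √E with hy
  have hy0 : 0 ≤ y := by positivity
  have hy2 : y ^ 2 = N * E := by
    rw [hy, mul_pow, Real.sq_sqrt hN0, Real.sq_sqrt hE0]
  have e9 : c / 2 * N ≤ 11 / 2 * E + 12036 / 1000 * y := by
    have h3 : 17 * √(1 / 2 : ℝ) * √N * √E ≤ 12036 / 1000 * y := by
      have : 17 * √(1 / 2 : ℝ) * √N * √E = (17 * √(1 / 2 : ℝ)) * y := by rw [hy]; ring
      rw [this]
      apply mul_le_mul_of_nonneg_right _ hy0
      linarith
    linarith
  by_contra hcon
  push Not at hcon
  have hN1 : 0 < N := by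
    by_contra h
    have : N = 0 := le_antisymm (not_lt.mp h) hN0
    rw [this] at hcon
    simp at hcon
    linarith
  have h4 : y ^ 2 ≤ (32 / 1000 * c * N) ^ 2 := by
    rw [hy2]
    have : N * E ≤ N * (c ^ 2 / 1000 * N) := mul_le_mul_of_nonneg_left hcon.le hN0
    refine this.trans ?_
    have h5 : 0 ≤ c ^ 2 * N ^ 2 := by positivity
    nlinarith
  have h6 : y ≤ 32 / 1000 * c * N := by
    have h7 : 0 ≤ 32 / 1000 * c * N := by positivity
    exact (pow_le_pow_iff_left₀ hy0 h7 (by norm_num)).mp h4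
  have h8 : c ^ 2 / 1000 * N ≤ c / 1000 * N := by
    apply mul_le_mul_of_nonneg_right _ hN0
    nlinarith
  have h9 : 0 < c * N := by positivity
  nlinarith

/-- The median. -/
theorem exists_median_aux (s : Finset (X n)) (hs : s.Nonempty) (f : X n → ℝ) :
    ∃ m : ℝ, 2 * (s.filter fun x => m < f x).card ≤ s.card ∧
      2 * (s.filter fun x => f x < m).card ≤ s.card := by
  set T := s.filter fun x => 2 * (s.filter fun y => f x < f y).card ≤ s.card with hT
  have hTne : T.Nonempty := by
    obtain ⟨x, hx, hmax⟩ := Finset.exists_max_image s f hs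
    refine ⟨x, Finset.mem_filter.mpr ⟨hx, ?_⟩⟩
    have : (s.filter fun y => f x < f y) = ∅ := by
      apply Finset.filter_false_of_mem
      intro y hy
      exact not_lt.mpr (hmax y hy)
    rw [this]
    simp
  obtain ⟨x₀, hx₀, hmin⟩ := Finset.exists_min_image T f hTne
  obtain ⟨hx₀s, hx₀T⟩ := Finset.mem_filter.mp hx₀
  refine ⟨f x₀, hx₀T, ?_⟩
  by_contra hcon
  push Not at hcon
  set B := s.filter fun x => f x < f x₀ with hB
  have hBne : B.Nonempty := by
    rw [← Finset.card_pos]
    omega
  obtain ⟨x₁, hx₁, hmax⟩ := Finset.exists_max_image B f hBne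
  obtain ⟨hx₁s, hx₁B⟩ := Finset.mem_filter.mp hx₁
  have hx₁T : x₁ ∉ T := fun h => absurd (hmin x₁ h) (not_le.mpr hx₁B)
  have h1 : s.card < 2 * (s.filter fun y => f x₁ < f y).card := by
    by_contra h
    push Not at h
    exact hx₁T (Finset.mem_filter.mpr ⟨hx₁s, h⟩)
  have hd : Disjoint B (s.filter fun y => f x₁ < f y) := by
    rw [Finset.disjoint_left]
    intro y hy hy'
    exact absurd (hmax y hy) (not_le.mpr (Finset.mem_filter.mp hy').2)
  have h2 : (B ∪ s.filter fun y => f x₁ < f y).card ≤ s.card := by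
    apply Finset.card_le_card
    exact Finset.union_subset (Finset.filter_subset _ _) (Finset.filter_subset _ _)
  rw [Finset.card_union_of_disjoint hd] at h2
  omega

theorem two_sq_aux (a b : ℝ) :
    (max a 0 - max b 0) ^ 2 + (max (-a) 0 - max (-b) 0) ^ 2 ≤ (a - b) ^ 2 := by
  rcases le_total 0 a with ha | ha <;> rcases le_total 0 b with hb | hb
  · rw [max_eq_left ha, max_eq_left hb, max_eq_right (by linarith), max_eq_right (by linarith)]
    nlinarith
  · rw [max_eq_left ha, max_eq_right hb, max_eq_right (by linarith), max_eq_left (by linarith)]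
    nlinarith [mul_nonneg ha (neg_nonneg.mpr hb)]
  · rw [max_eq_right ha, max_eq_left hb, max_eq_left (by linarith), max_eq_right (by linarith)]
    nlinarith [mul_nonneg hb (neg_nonneg.mpr ha)]
  · rw [max_eq_right ha, max_eq_right hb, max_eq_left (by linarith), max_eq_left (by linarith)]
    nlinarith

theorem max_sq_aux (a : ℝ) : (max a 0) ^ 2 + (max (-a) 0) ^ 2 = a ^ 2 := by
  rcases le_total 0 a with ha | ha
  · rw [max_eq_left ha, max_eq_right (by linarith)]; ring
  · rw [max_eq_right ha, max_eq_left (by linarith)]; ring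

theorem gap {A : Set (X n)} (hA : IsUpperSet A) {c : ℝ} (hc : 0 < c) (hc1 : c ≤ 1)
    (hcA : c ≤ prob A) {f : X n → ℝ} (hf : ∀ x, x ∉ A → f x = 0) (h0 : ∑ x : X n, f x = 0) :
    c ^ 2 / 1000 * ∑ x : X n, f x ^ 2 ≤ En A f := by
  set s : Finset (X n) := univ.filter fun x => x ∈ A with hs
  have hcnt : cnt A = (s.card : ℝ) := cnt_eq_card_aux A
  have hp2 : (0 : ℝ) < 2 ^ n := by positivity
  have hcpos : 0 < cnt A := by
    have : 0 < prob A := lt_of_lt_of_le hc hcA
    unfold prob at this
    exact (div_pos_iff_of_pos_right hp2).mp this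
  have hsne : s.Nonempty := by
    rw [← Finset.card_pos]
    rw [hcnt] at hcpos
    exact_mod_cast hcpos
  obtain ⟨m, hm1, hm2⟩ := exists_median_aux s hsne f
  set u : X n → ℝ := fun x => if x ∈ A then max (f x - m) 0 else 0 with hu
  set w : X n → ℝ := fun x => if x ∈ A then max (-(f x - m)) 0 else 0 with hw
  have hms : ∀ x, x ∈ s ↔ x ∈ A := fun x => by simp [hs]
  have hu1 := gap_half hA hc hc1 hcA (g := u) (fun x => by
      simp only [hu]; split_ifs
      · exact le_max_right _ _
      · exact le_rfl) (s.filter fun x => m < f x)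
    (by
      intro x hx
      simp only [hu]
      split_ifs with h
      · apply max_eq_right
        by_contra h2
        apply hx
        rw [Finset.mem_filter]
        exact ⟨(hms x).mpr h, by linarith⟩
      · rfl)
    (fun x hx => (hms x).mp (Finset.mem_filter.mp hx).1)
    (by
      rw [hcnt]
      have : ((2 * (s.filter fun x => m < f x).card : ℕ) : ℝ) ≤ (s.card : ℝ) := by
        exact_mod_cast hm1
      push_cast at this
      linarith)
  have hw1 := gap_half hA hc hc1 hcA (g := w) (fun x => by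
      simp only [hw]; split_ifs
      · exact le_max_right _ _
      · exact le_rfl) (s.filter fun x => f x < m)
    (by
      intro x hx
      simp only [hw]
      split_ifs with h
      · apply max_eq_right
        by_contra h2
        apply hx
        rw [Finset.mem_filter]
        exact ⟨(hms x).mpr h, by linarith⟩
      · rfl)
    (fun x hx => (hms x).mp (Finset.mem_filter.mp hx).1)
    (by
      rw [hcnt]
      have : ((2 * (s.filter fun x => f x < m).card : ℕ) : ℝ) ≤ (s.card : ℝ) := by
        exact_mod_cast hm2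
      push_cast at this
      linarith)
  have hE : En A u + En A w ≤ En A f := by
    unfold En
    rw [← Finset.sum_add_distrib]
    refine Finset.sum_le_sum fun i _ => ?_
    rw [← Finset.sum_add_distrib]
    refine Finset.sum_le_sum fun x hx => ?_
    by_cases hxA : x ∈ A
    · have hup : up i x ∈ A := by
        apply hA _ hxA
        intro j
        unfold up
        by_cases hj : j = i
        · subst hj
          rw [Function.update_self]
          exact Bool.le_true _
        · rw [Function.update_of_ne hj]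
      rw [if_pos hxA, if_pos hxA, if_pos hxA]
      simp only [hu, hw, if_pos hxA, if_pos hup]
      have := two_sq_aux (f (up i x) - m) (f x - m)
      have e : (f (up i x) - m - (f x - m)) ^ 2 = (f (up i x) - f x) ^ 2 := by ring
      linarith
    · rw [if_neg hxA, if_neg hxA, if_neg hxA]
      simp
  have hsum : ∑ x : X n, f x ^ 2 ≤ ∑ x : X n, u x ^ 2 + ∑ x : X n, w x ^ 2 := by
    rw [← Finset.sum_add_distrib]
    have e1 : ∀ x : X n, u x ^ 2 + w x ^ 2 = f x ^ 2 - 2 * m * f x + m ^ 2 * (if x ∈ A then 1 else 0) := by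
      intro x
      by_cases hxA : x ∈ A
      · simp only [hu, hw, if_pos hxA]
        rw [max_sq_aux]
        ring
      · simp only [hu, hw, if_neg hxA]
        rw [hf x hxA]
        ring
    rw [Finset.sum_congr rfl fun x _ => e1 x, Finset.sum_add_distrib, Finset.sum_sub_distrib,
      ← Finset.mul_sum, ← Finset.mul_sum, h0]
    have : 0 ≤ m ^ 2 * ∑ x : X n, (if x ∈ A then (1 : ℝ) else 0) := by
      apply mul_nonneg (sq_nonneg m)
      exact Finset.sum_nonneg fun x _ => by split_ifs <;> norm_num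
    linarith
  have hc2 : 0 ≤ c ^ 2 / 1000 := by positivity
  calc c ^ 2 / 1000 * ∑ x : X n, f x ^ 2
      ≤ c ^ 2 / 1000 * (∑ x : X n, u x ^ 2 + ∑ x : X n, w x ^ 2) :=
        mul_le_mul_of_nonneg_left hsum hc2
    _ = c ^ 2 / 1000 * ∑ x : X n, u x ^ 2 + c ^ 2 / 1000 * ∑ x : X n, w x ^ 2 := by ring
    _ ≤ En A u + En A w := add_le_add hu1 hw1
    _ ≤ En A f := hE

/-- `L²` contraction of the chain -/
theorem P_contr (hn : 1 ≤ n) {A : Set (X n)} (hA : IsUpperSet A) {c : ℝ} (hc : 0 < c) (hc1 : c ≤ 1)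
    (hcA : c ≤ prob A) {f : X n → ℝ} (hf : ∀ x, x ∉ A → f x = 0) (h0 : ∑ x : X n, f x = 0) (t : ℕ) :
    nrm ((P A)^[t] f) ≤ Real.exp (-(c ^ 2 * t / (4000 * n))) * nrm f := by
  have hn0 : (0 : ℝ) < n := by exact_mod_cast hn
  have hp2 : (0 : ℝ) < 2 ^ n := by positivity
  induction t generalizing f with
  | zero => simp
  | succ t ih =>
    rw [Function.iterate_succ_apply]
    have h1 := ih (f := P A f) (fun x hx => P_supp hA hf x hx) (by rw [P_sum hn hA, h0])
    refine h1.trans ?_
    have h2 : ∑ x : X n, (P A f x) ^ 2 ≤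
        Real.exp (-(c ^ 2 / (2000 * n))) * ∑ x : X n, f x ^ 2 := by
      have h3 := P_sq_le hn hA f
      rw [P_energy hn hA f] at h3
      have h4 := gap hA hc hc1 hcA hf h0
      have h5 : c ^ 2 / (2000 * n) * ∑ x : X n, f x ^ 2 ≤ En A f / (2 * n) := by
        have : c ^ 2 / (2000 * n) * ∑ x : X n, f x ^ 2
            = (c ^ 2 / 1000 * ∑ x : X n, f x ^ 2) / (2 * n) := by
          field_simp
          ring
        rw [this]
        exact div_le_div_of_nonneg_right h4 (by positivity)
      have h6 : 1 - c ^ 2 / (2000 * n) ≤ Real.exp (-(c ^ 2 / (2000 * n))) := by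
        have := Real.add_one_le_exp (-(c ^ 2 / (2000 * n)))
        linarith
      have h7 : 0 ≤ ∑ x : X n, f x ^ 2 := Finset.sum_nonneg fun x _ => by positivity
      have h8 := mul_le_mul_of_nonneg_right h6 h7
      linarith
    have h9 : nrm (P A f) ≤ Real.exp (-(c ^ 2 / (4000 * n))) * nrm f := by
      unfold nrm avg
      have e1 : Real.exp (-(c ^ 2 / (4000 * n))) = √(Real.exp (-(c ^ 2 / (2000 * n)))) := by
        symm
        rw [Real.sqrt_eq_iff_mul_self_eq (Real.exp_pos _).le (Real.exp_pos _).le, ← Real.exp_add]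
        congr 1
        field_simp
        ring
      rw [e1, ← Real.sqrt_mul (Real.exp_pos _).le]
      apply Real.sqrt_le_sqrt
      rw [← mul_div_assoc]
      exact div_le_div_of_nonneg_right h2 hp2.le
    calc Real.exp (-(c ^ 2 * t / (4000 * n))) * nrm (P A f)
        ≤ Real.exp (-(c ^ 2 * t / (4000 * n))) * (Real.exp (-(c ^ 2 / (4000 * n))) * nrm f) :=
          mul_le_mul_of_nonneg_left h9 (Real.exp_pos _).le
      _ = Real.exp (-(c ^ 2 * (t + 1 : ℕ) / (4000 * n))) * nrm f := by
          rw [← mul_assoc, ← Real.exp_add]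
          congr 2
          push_cast
          field_simp
          ring

end Pool.Agent.MP_291ce2_pr
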