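import Pool.Agent.MP_291ce2_pr.Pop

set_option autoImplicit false

namespace Pool.Agent.MP_291ce2_pr

open Finset
open scoped Classical

variable {n : ℕ}

/-- the density of the law of a point whose coordinates in `S` are refreshed -/
private noncomputable def uS (x : X n) (S : Finset (Fin n)) (v : X n) : ℝ :=
  ∏ i : Fin n, if i ∈ S then (1 : ℝ) else if v i = x i then 2 else 0

private lemma uS_empty (x : X n) : uS x ∅ = dir x := by
  funext v
  unfold uS dir
  by_cases h : v = x
  · subst h; simp
  · rw [if_neg h]
    obtain ⟨i, hi⟩ : ∃ i, v i ≠ x i := by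
      by_contra hc; push Not at hc; exact h (funext hc)
    exact Finset.prod_eq_zero (Finset.mem_univ i) (by simp [hi])

private lemma uS_univ (x : X n) (v : X n) : uS x univ v = 1 := by
  unfold uS; simp

private lemma uS_nonneg (x : X n) (S : Finset (Fin n)) (v : X n) : 0 ≤ uS x S v := by
  unfold uS
  apply Finset.prod_nonneg
  intro i _
  split_ifs <;> norm_num

private lemma P1_uS (x : X n) (S : Finset (Fin n)) (i : Fin n) :
    P1 Set.univ i (uS x S) = uS x (insert i S) := by
  funext v
  unfold P1
  rw [if_pos (Set.mem_univ _)]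
  unfold uS
  rw [← Finset.mul_prod_erase univ _ (Finset.mem_univ i),
    ← Finset.mul_prod_erase univ (fun j => if j ∈ S then (1 : ℝ) else if dn i v j = x j then 2 else 0)
      (Finset.mem_univ i),
    ← Finset.mul_prod_erase univ (fun j => if j ∈ insert i S then (1 : ℝ) else if v j = x j then 2 else 0)
      (Finset.mem_univ i)]
  have e1 : ∀ j ∈ univ.erase i, (if j ∈ S then (1 : ℝ) else if up i v j = x j then 2 else 0) =
      (if j ∈ insert i S then (1 : ℝ) else if v j = x j then 2 else 0) := by
    intro j hj
    have hji : j ≠ i := Finset.ne_of_mem_erase hj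
    simp [up, Finset.mem_insert, hji]
  have e2 : ∀ j ∈ univ.erase i, (if j ∈ S then (1 : ℝ) else if dn i v j = x j then 2 else 0) =
      (if j ∈ insert i S then (1 : ℝ) else if v j = x j then 2 else 0) := by
    intro j hj
    have hji : j ≠ i := Finset.ne_of_mem_erase hj
    simp [dn, Finset.mem_insert, hji]
  rw [Finset.prod_congr rfl e1, Finset.prod_congr rfl e2]
  have e3 : ((if i ∈ S then (1 : ℝ) else if up i v i = x i then 2 else 0) +
      (if i ∈ S then (1 : ℝ) else if dn i v i = x i then 2 else 0)) = 2 := by
    by_cases hi : i ∈ S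
    · simp [hi]; norm_num
    · simp only [hi, if_false, up, dn, Function.update_self]
      cases x i <;> simp
  rw [← add_mul, e3]
  simp only [Finset.mem_insert_self, if_true]
  ring

private lemma P1_sum {ι : Type*} (A : Set (X n)) (i : Fin n) (s : Finset ι) (f : ι → X n → ℝ) (x : X n) :
    P1 A i (fun y => ∑ k ∈ s, f k y) x = ∑ k ∈ s, P1 A i (f k) x := by
  unfold P1
  split_ifs with h
  · rw [← Finset.sum_add_distrib, Finset.sum_div]
  · rfl

private lemma P1_mul (A : Set (X n)) (i : Fin n) (r : ℝ) (f : X n → ℝ) (x : X n) :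
    P1 A i (fun y => r * f y) x = r * P1 A i f x := by
  unfold P1
  split_ifs with h
  · ring
  · rfl

private lemma state (hn : 1 ≤ n) {A : Set (X n)} (hA : IsUpperSet A) {x : X n} (hx : x ∈ A) (T : ℕ) :
    ∃ (Fs : Finset (Fin n) → X n → ℝ) (w : Finset (Fin n) → ℝ),
      (∀ S, Pop A (Fs S) (fun v => w S * uS x S v)) ∧
      (∀ z, (P A)^[T] (dir x) z = ∑ S : Finset (Fin n), Fs S z) ∧
      (∀ S, 0 ≤ w S) ∧ (∑ S : Finset (Fin n), w S = 1) ∧
      (∀ i : Fin n, ∑ S ∈ univ.filter (fun S : Finset (Fin n) => i ∉ S), w S = (1 - 1 / (n : ℝ)) ^ T) := by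
  have hn0 : (n : ℝ) ≠ 0 := by positivity
  induction T with
  | zero =>
    refine ⟨fun S => if S = ∅ then dir x else fun _ => 0, fun S => if S = ∅ then 1 else 0,
      ?_, ?_, ?_, ?_, ?_⟩
    · intro S
      by_cases h : S = ∅
      · subst h
        have := Pop.dir hx
        simp only [if_true, one_mul]
        rw [show (fun v => uS x ∅ v) = dir x from uS_empty x]
        exact this
      · simp only [h, if_false, zero_mul]
        exact Pop.zero A
    · intro z
      rw [Function.iterate_zero, id]
      rw [Finset.sum_eq_single (∅ : Finset (Fin n))]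
      · simp
      · intro b _ hb; simp [hb]
      · intro h; exact absurd (Finset.mem_univ _) h
    · intro S; dsimp only; split_ifs <;> norm_num
    · simp
    · intro i
      rw [Finset.sum_eq_single (∅ : Finset (Fin n))]
      · simp
      · intro b _ hb; simp [hb]
      · intro h; exact absurd (by simp) h
  | succ T ih =>
    obtain ⟨Fs, w, h1, h2, h3, h4, h5⟩ := ih
    let fil : Finset (Fin n) → Finset (Finset (Fin n) × Fin n) :=
      fun S' => univ.filter (fun p => insert p.2 p.1 = S')
    refine ⟨fun S' z => ∑ p ∈ fil S', (1 / (n : ℝ)) * P1 A p.2 (Fs p.1) z,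
      fun S' => ∑ p ∈ fil S', (1 / (n : ℝ)) * w p.1, ?_, ?_, ?_, ?_, ?_⟩
    · intro S'
      have key : Pop A (fun z => ∑ p ∈ fil S', (1 / (n : ℝ)) * P1 A p.2 (Fs p.1) z)
          (fun z => ∑ p ∈ fil S', (1 / (n : ℝ)) * P1 Set.univ p.2 (fun v => w p.1 * uS x p.1 v) z) := by
        apply Pop.sum (fil S') (f := fun p z => (1 / (n : ℝ)) * P1 A p.2 (Fs p.1) z)
          (ν := fun p z => (1 / (n : ℝ)) * P1 Set.univ p.2 (fun v => w p.1 * uS x p.1 v) z)
        intro p _
        exact Pop.smul (Pop.step1 hA (h1 p.1) p.2) (by positivity)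
      have e : (fun z => ∑ p ∈ fil S', (1 / (n : ℝ)) * P1 Set.univ p.2 (fun v => w p.1 * uS x p.1 v) z)
          = fun v => (∑ p ∈ fil S', (1 / (n : ℝ)) * w p.1) * uS x S' v := by
        funext z
        rw [Finset.sum_mul]
        apply Finset.sum_congr rfl
        intro p hp
        have hp' : insert p.2 p.1 = S' := (Finset.mem_filter.mp hp).2
        rw [P1_mul, P1_uS, hp']
        ring
      rw [e] at key
      exact key
    · intro z
      rw [Function.iterate_succ_apply']
      have e : (P A)^[T] (dir x) = fun z => ∑ S : Finset (Fin n), Fs S z := funext h2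
      rw [e]
      dsimp only
      rw [Finset.sum_fiberwise univ (fun p : Finset (Fin n) × Fin n => insert p.2 p.1)
        (fun p => (1 / (n : ℝ)) * P1 A p.2 (Fs p.1) z)]
      unfold P
      rw [Fintype.sum_prod_type_right, Finset.mul_sum]
      apply Finset.sum_congr rfl
      intro i _
      rw [P1_sum, Finset.mul_sum]
    · intro S
      exact Finset.sum_nonneg (fun p _ => mul_nonneg (by positivity) (h3 p.1))
    · dsimp only
      rw [Finset.sum_fiberwise univ (fun p : Finset (Fin n) × Fin n => insert p.2 p.1)
        (fun p => (1 / (n : ℝ)) * w p.1)]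
      rw [Fintype.sum_prod_type_right]
      simp only [← Finset.mul_sum, h4]
      simp
      field_simp
    · intro i
      dsimp only
      have e1 : ∑ S ∈ univ.filter (fun S : Finset (Fin n) => i ∉ S), ∑ p ∈ fil S, (1 / (n : ℝ)) * w p.1
          = ∑ S : Finset (Fin n), ∑ p ∈ fil S, if i ∉ insert p.2 p.1 then (1 / (n : ℝ)) * w p.1 else 0 := by
        rw [Finset.sum_filter]
        apply Finset.sum_congr rfl
        intro S _
        by_cases hS : i ∉ S
        · rw [if_pos hS]
          apply Finset.sum_congr rfl
          intro p hp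
          have hp' : insert p.2 p.1 = S := (Finset.mem_filter.mp hp).2
          rw [hp', if_pos hS]
        · rw [if_neg hS]
          symm
          apply Finset.sum_eq_zero
          intro p hp
          have hp' : insert p.2 p.1 = S := (Finset.mem_filter.mp hp).2
          rw [hp', if_neg hS]
      rw [e1, Finset.sum_fiberwise univ (fun p : Finset (Fin n) × Fin n => insert p.2 p.1)
        (fun p => if i ∉ insert p.2 p.1 then (1 / (n : ℝ)) * w p.1 else 0)]
      rw [Fintype.sum_prod_type]
      have e2 : ∀ S : Finset (Fin n), ∑ j : Fin n, (if i ∉ insert j S then (1 / (n : ℝ)) * w S else 0)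
          = if i ∉ S then (1 - 1 / (n : ℝ)) * w S else 0 := by
        intro S
        by_cases hS : i ∈ S
        · rw [if_neg (by simpa using hS)]
          apply Finset.sum_eq_zero
          intro j _
          rw [if_neg]
          simp [hS]
        · rw [if_pos hS]
          have : ∀ j : Fin n, (if i ∉ insert j S then (1 / (n : ℝ)) * w S else 0)
              = (1 / (n : ℝ)) * w S - if j = i then (1 / (n : ℝ)) * w S else 0 := by
            intro j
            by_cases hj : j = i
            · subst hj; simp
            · have : i ≠ j := fun h => hj h.symm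
              simp [Finset.mem_insert, hS, hj, this]
          rw [Finset.sum_congr rfl (fun j _ => this j), Finset.sum_sub_distrib]
          simp
          field_simp
      rw [Finset.sum_congr rfl (fun S _ => e2 S), ← Finset.sum_filter, ← Finset.mul_sum, h5 i]
      ring

theorem initial (hn : 1 ≤ n) {A : Set (X n)} (hA : IsUpperSet A) {x : X n} (hx : x ∈ A) (T : ℕ) :
    ∃ F ν : X n → ℝ, Pop A F ν ∧ (∀ v, ν v ≤ 1) ∧ (∀ z, F z ≤ (P A)^[T] (dir x) z) ∧
      1 - n * (1 - 1 / (n : ℝ)) ^ T ≤ avg F := by
  obtain ⟨Fs, w, h1, h2, h3, h4, h5⟩ := state hn hA hx T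
  have hw1 : w univ ≤ 1 := by
    rw [← h4]
    exact Finset.single_le_sum (fun S _ => h3 S) (Finset.mem_univ (univ : Finset (Fin n)))
  refine ⟨Fs univ, fun v => w univ * uS x univ v, h1 univ, ?_, ?_, ?_⟩
  · intro v
    have : w univ * uS x univ v ≤ 1 := by rw [uS_univ, mul_one]; exact hw1
    exact this
  · intro z
    rw [h2 z]
    exact Finset.single_le_sum (fun S _ => (h1 S).nonneg.1 z) (Finset.mem_univ (univ : Finset (Fin n)))
  · have hav : avg (Fs univ) = w univ := by
      unfold avg
      rw [(h1 univ).sum_eq]
      simp only [uS_univ, mul_one, Finset.sum_const, Finset.card_univ, nsmul_eq_mul]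
      have : (Fintype.card (X n) : ℝ) = 2 ^ n := by simp [X]
      rw [this]
      field_simp
    rw [hav]
    have hun : (1 : ℝ) ≤ w univ + ∑ i : Fin n, ∑ S ∈ univ.filter (fun S : Finset (Fin n) => i ∉ S), w S := by
      have hsw : ∑ i : Fin n, ∑ S ∈ univ.filter (fun S : Finset (Fin n) => i ∉ S), w S
          = ∑ S : Finset (Fin n), ∑ i : Fin n, if i ∉ S then w S else 0 := by
        rw [Finset.sum_comm]
        apply Finset.sum_congr rfl
        intro i _
        rw [Finset.sum_filter]
      rw [hsw, ← h4]
      rw [← Finset.add_sum_erase univ w (Finset.mem_univ (univ : Finset (Fin n)))]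
      have h0 : ∑ S ∈ (univ : Finset (Finset (Fin n))).erase univ, w S ≤
          ∑ S ∈ (univ : Finset (Finset (Fin n))).erase univ, ∑ i : Fin n, if i ∉ S then w S else 0 := by
        apply Finset.sum_le_sum
        intro S hS
        have hne : S ≠ univ := Finset.ne_of_mem_erase hS
        obtain ⟨i, hi⟩ : ∃ i, i ∉ S := by
          by_contra hc; push Not at hc
          exact hne (Finset.eq_univ_of_forall hc)
        calc w S = (if i ∉ S then w S else 0) := by rw [if_pos hi]
          _ ≤ ∑ i : Fin n, if i ∉ S then w S else 0 :=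
            Finset.single_le_sum (f := fun i => if i ∉ S then w S else 0)
              (fun j _ => by split_ifs <;> first | exact h3 S | exact le_refl _) (Finset.mem_univ i)
      have h00 : ∑ S ∈ (univ : Finset (Finset (Fin n))).erase univ, (∑ i : Fin n, if i ∉ S then w S else 0) ≤
          ∑ S : Finset (Fin n), ∑ i : Fin n, if i ∉ S then w S else 0 := by
        apply Finset.sum_le_sum_of_subset_of_nonneg (Finset.erase_subset _ _)
        intro S _ _
        apply Finset.sum_nonneg
        intro i _
        split_ifs <;> first | exact h3 S | exact le_refl _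
      linarith
    have hsum : ∑ i : Fin n, ∑ S ∈ univ.filter (fun S : Finset (Fin n) => i ∉ S), w S
        = n * (1 - 1 / (n : ℝ)) ^ T := by
      rw [Finset.sum_congr rfl (fun i _ => h5 i)]
      simp
    rw [hsum] at hun
    linarith

end Pool.Agent.MP_291ce2_pr
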