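import Pool.Agent.MP_291ce2_pr.Levels
import Pool.Agent.MP_291ce2_pr.Initial
import Pool.Agent.MP_291ce2_pr.Bridge
import Pool.Agent.MP_291ce2_pr.Gap

set_option autoImplicit false

namespace Pool.Agent.MP_291ce2_pr

open Finset
open scoped Classical

variable {n : ℕ}

theorem iter_add {A : Set (X n)} (f g : X n → ℝ) (t : ℕ) :
    (P A)^[t] (f + g) = (P A)^[t] f + (P A)^[t] g := by
  induction t with
  | zero => rfl
  | succ t ih => rw [Function.iterate_succ_apply', ih, P_add, Function.iterate_succ_apply',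
      Function.iterate_succ_apply']

theorem iter_smul {A : Set (X n)} (r : ℝ) (f : X n → ℝ) (t : ℕ) :
    (P A)^[t] (fun x => r * f x) = fun x => r * (P A)^[t] f x := by
  induction t with
  | zero => rfl
  | succ t ih => rw [Function.iterate_succ_apply', ih, P_smul]; funext x
                 rw [Function.iterate_succ_apply']

theorem iter_nonneg {A : Set (X n)} {f : X n → ℝ} (hf : ∀ x, 0 ≤ f x) (t : ℕ) (x : X n) :
    0 ≤ (P A)^[t] f x := by
  induction t generalizing x with
  | zero => exact hf x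
  | succ t ih => rw [Function.iterate_succ_apply']; exact P_nonneg ih x

theorem iter_sum (hn : 1 ≤ n) {A : Set (X n)} (hA : IsUpperSet A) (f : X n → ℝ) (t : ℕ) :
    ∑ x : X n, (P A)^[t] f x = ∑ x : X n, f x := by
  induction t with
  | zero => rfl
  | succ t ih =>
    have : ∀ x, (P A)^[t+1] f x = P A ((P A)^[t] f) x := fun x => by
      rw [Function.iterate_succ_apply']
    simp_rw [this]
    rw [P_sum hn hA, ih]

theorem avg_iter (hn : 1 ≤ n) {A : Set (X n)} (hA : IsUpperSet A) (f : X n → ℝ) (t : ℕ) :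
    avg ((P A)^[t] f) = avg f := by
  unfold avg; rw [iter_sum hn hA]

theorem avg_nonneg {f : X n → ℝ} (hf : ∀ x, 0 ≤ f x) : 0 ≤ avg f := by
  unfold avg; exact div_nonneg (Finset.sum_nonneg fun x _ => hf x) (by positivity)

theorem avg_add (f g : X n → ℝ) : avg (fun x => f x + g x) = avg f + avg g := by
  unfold avg; rw [Finset.sum_add_distrib, add_div]

theorem avg_mul (r : ℝ) (f : X n → ℝ) : avg (fun x => r * f x) = r * avg f := by
  unfold avg; rw [← Finset.mul_sum, mul_div_assoc]

theorem avg_mono {f g : X n → ℝ} (h : ∀ x, f x ≤ g x) : avg f ≤ avg g := by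
  unfold avg
  exact div_le_div_of_nonneg_right (Finset.sum_le_sum fun x _ => h x) (by positivity)

theorem card_X : (Fintype.card (X n) : ℝ) = 2 ^ n := by
  simp [X]

theorem avg_abs_le (f : X n → ℝ) : avg (fun x => |f x|) ≤ nrm f := by
  unfold nrm
  apply Real.le_sqrt_of_sq_le
  unfold avg
  have h := sum_mul_sq_le_sq_mul_sq (Finset.univ : Finset (X n)) (fun x => |f x|) (fun _ => (1:ℝ))
  simp only [mul_one, one_pow, Finset.sum_const, nsmul_eq_mul, sq_abs] at h
  rw [Finset.card_univ, card_X] at h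
  rw [div_pow, div_le_div_iff₀ (by positivity) (by positivity)]
  have h2 : (0:ℝ) < 2 ^ n := by positivity
  nlinarith

theorem nrm_le_of_bound {f : X n → ℝ} {B : ℝ} (h0 : ∀ x, 0 ≤ f x) (hB : ∀ x, f x ≤ B) (hB0 : 0 ≤ B) :
    nrm f ≤ B := by
  unfold nrm
  rw [Real.sqrt_le_left hB0]
  have : avg (fun x => f x ^ 2) ≤ avg (fun _ : X n => B ^ 2) :=
    avg_mono fun x => by nlinarith [h0 x, hB x]
  refine this.trans (le_of_eq ?_)
  unfold avg
  simp only [Finset.sum_const, nsmul_eq_mul]
  rw [Finset.card_univ, card_X]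
  field_simp

theorem cnt_le (A : Set (X n)) : cnt A ≤ 2 ^ n := by
  unfold cnt
  calc ∑ x : X n, (if x ∈ A then (1:ℝ) else 0) ≤ ∑ _x : X n, (1:ℝ) :=
        Finset.sum_le_sum fun x _ => by split_ifs <;> norm_num
    _ = 2 ^ n := by simp [X]

theorem prob_le_one (A : Set (X n)) : prob A ≤ 1 := by
  unfold prob
  rw [div_le_one (by positivity)]
  exact cnt_le A

/-- the stationary density -/
noncomputable def un (A : Set (X n)) (x : X n) : ℝ := ind A x / prob A

theorem avg_un {A : Set (X n)} (hA : 0 < prob A) : avg (un A) = 1 := by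
  unfold avg un
  rw [← Finset.sum_div]
  have : ∑ x : X n, ind A x = cnt A := rfl
  rw [this]
  unfold prob at *
  have h1 : cnt A ≠ 0 := by
    intro h; rw [h] at hA; simp at hA
  field_simp

theorem P1_un {A : Set (X n)} (hA : IsUpperSet A) (i : Fin n) (x : X n) : P1 A i (un A) x = un A x := by
  unfold P1
  split_ifs with h
  · have h1 : x ∈ A := hA (show dn i x ≤ x from by
      intro j
      unfold dn
      by_cases hj : j = i
      · subst hj; simp
      · simp [Function.update_of_ne hj]) h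
    have h2 : up i x ∈ A := hA (show x ≤ up i x from by
      intro j
      unfold up
      by_cases hj : j = i
      · subst hj; simp [Bool.le_true]
      · simp [Function.update_of_ne hj]) h1
    simp [un, ind, h, h1, h2]
  · rfl

theorem P_un (hn : 1 ≤ n) {A : Set (X n)} (hA : IsUpperSet A) : P A (un A) = un A := by
  funext x
  unfold P
  simp_rw [P1_un hA]
  have : (n:ℝ) ≠ 0 := by positivity
  simp
  field_simp

theorem iter_un (hn : 1 ≤ n) {A : Set (X n)} (hA : IsUpperSet A) (t : ℕ) :
    (P A)^[t] (un A) = un A := by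
  induction t with
  | zero => rfl
  | succ t ih => rw [Function.iterate_succ_apply', ih, P_un hn hA]

/-- relaxation of a warm density -/
theorem relax (hn : 1 ≤ n) {A : Set (X n)} (hA : IsUpperSet A) {c : ℝ} (hc : 0 < c) (hc1 : c ≤ 1)
    (hcA : c ≤ prob A) {f : X n → ℝ} (h0 : ∀ x, 0 ≤ f x) (hf : ∀ x, x ∉ A → f x = 0) {B : ℝ}
    (hB : ∀ x, f x ≤ B) (hB0 : 0 ≤ B) (t : ℕ) :
    avg (fun x => |(P A)^[t] f x - avg f * un A x|) ≤
      Real.exp (-(c ^ 2 * t / (4000 * n))) * B := by
  have hp : 0 < prob A := lt_of_lt_of_le hc hcA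
  set m := avg f with hm
  have hm0 : 0 ≤ m := avg_nonneg h0
  set w : X n → ℝ := fun x => f x + (-m) * un A x with hw
  have hwA : ∀ x, x ∉ A → w x = 0 := fun x hx => by
    simp [hw, hf x hx, un, ind, hx]
  have hw0 : ∑ x : X n, w x = 0 := by
    have h1 : avg w = 0 := by
      rw [hw, avg_add, avg_mul, avg_un hp, ← hm]; ring
    unfold avg at h1
    have h2 : (2:ℝ) ^ n ≠ 0 := by positivity
    rcases div_eq_zero_iff.1 h1 with h | h
    · exact h
    · exact absurd h h2
  have hP : (P A)^[t] w = fun x => (P A)^[t] f x - m * un A x := by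
    have : w = f + fun x => (-m) * un A x := by funext x; simp [hw]
    rw [this, iter_add, iter_smul, iter_un hn hA]
    funext x; simp [sub_eq_add_neg]
  have h3 := P_contr hn hA hc hc1 hcA hwA hw0 t
  have h4 := avg_abs_le ((P A)^[t] w)
  rw [hP] at h4 h3
  refine (h4.trans h3).trans ?_
  refine mul_le_mul_of_nonneg_left ?_ (Real.exp_pos _).le
  -- nrm w ≤ nrm f ≤ B
  refine le_trans ?_ (nrm_le_of_bound h0 hB hB0)
  unfold nrm
  apply Real.sqrt_le_sqrt
  -- avg w² = avg f² - 2 m avg (f un) + m² avg un²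
  have e1 : ∀ x, w x ^ 2 = f x ^ 2 + (-(2 * m / prob A)) * f x + (m ^ 2 / prob A) * un A x := by
    intro x
    by_cases hx : x ∈ A
    · simp only [hw, un, ind, hx, if_true]; field_simp; ring
    · simp [hw, un, ind, hx, hf x hx]
  have e2 : avg (fun x => w x ^ 2) = avg (fun x => f x ^ 2) + (-(2 * m / prob A)) * m
      + (m ^ 2 / prob A) * 1 := by
    simp_rw [e1]
    rw [avg_add, avg_add, avg_mul, avg_mul, avg_un hp, ← hm]
  rw [e2]
  have : 0 ≤ m ^ 2 / prob A := by positivity
  have h5 : -(2 * m / prob A) * m = - 2 * (m ^ 2 / prob A) := by ring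
  rw [h5]; linarith

end Pool.Agent.MP_291ce2_pr
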