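import Pool.Agent.MP_291ce2_pr.Final

set_option autoImplicit false

namespace Pool.Agent.MP_291ce2_pr

open Finset
open scoped Classical

variable {n : ℕ}

/-- assembling the three phases -/
theorem tv_of_phases (hn : 1 ≤ n) {A : Set (X n)} (hA : IsUpperSet A) {c : ℝ} (hc : 0 < c)
    (hc1 : c ≤ 1) (hcA : c ≤ prob A) {x : X n} (hx : x ∈ A) {F fK rest : X n → ℝ} {T₀ T₁ T₂ : ℕ}
    {B : ℝ}
    (hF : ∀ z, F z ≤ (P A)^[T₀] (dir x) z) (hF0 : ∀ z, 0 ≤ F z)
    (hFm : 15 / 16 ≤ avg F)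
    (hfK0 : ∀ z, 0 ≤ fK z) (hr0 : ∀ z, 0 ≤ rest z) (hfKA : ∀ z, z ∉ A → fK z = 0)
    (hsum : ∀ z, (P A)^[T₁] F z = fK z + rest z) (hB : ∀ z, fK z ≤ B) (hB0 : 0 ≤ B)
    (hrest : avg rest ≤ 1 / 16)
    (hT₂ : Real.exp (-(c ^ 2 * T₂ / (4000 * n))) * B ≤ 1 / 16) :
    tv A x (T₂ + (T₁ + T₀)) ≤ 1 / 4 := by
  have hp : 0 < prob A := lt_of_lt_of_le hc hcA
  have hcnt : 0 < cnt A := by
    unfold prob at hp
    by_contra h
    have : cnt A / 2 ^ n ≤ 0 := div_nonpos_of_nonpos_of_nonneg (not_lt.1 h) (by positivity)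
    linarith
  have hdir : avg (dir x) = 1 := by
    unfold avg dir
    rw [Finset.sum_ite_eq' Finset.univ x]
    simp
  set G : X n → ℝ := fun z => (P A)^[T₀] (dir x) z - F z with hG
  have hG0 : ∀ z, 0 ≤ G z := fun z => sub_nonneg.2 (hF z)
  have hGm : avg G ≤ 1 / 16 := by
    have : avg (fun z => F z + G z) = 1 := by
      have e : (fun z => F z + G z) = (P A)^[T₀] (dir x) := by funext z; simp [hG]
      rw [e, avg_iter hn hA, hdir]
    rw [avg_add] at this; linarith
  -- decomposition of the final density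
  have hdec : (P A)^[T₂ + (T₁ + T₀)] (dir x) =
      (P A)^[T₂] fK + ((P A)^[T₂] rest + (P A)^[T₂] ((P A)^[T₁] G)) := by
    rw [Function.iterate_add_apply, Function.iterate_add_apply (P A) T₁ T₀]
    have e1 : (P A)^[T₀] (dir x) = F + G := by funext z; simp [hG]
    rw [e1, iter_add]
    have e2 : (P A)^[T₁] F = fK + rest := by funext z; simp [hsum]
    rw [e2, iter_add, iter_add, add_assoc]
  set m := avg fK with hm
  have hm0 : 0 ≤ m := avg_nonneg hfK0
  have hmF : m + avg rest = avg F := by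
    have : avg ((P A)^[T₁] F) = avg F := avg_iter hn hA _ _
    rw [← this]
    have e2 : (P A)^[T₁] F = fun z => fK z + rest z := by funext z; simp [hsum]
    rw [e2, avg_add]
  have hm1 : 7 / 8 ≤ m := by linarith
  have hF1 : avg F ≤ 1 := by
    have : avg F ≤ avg ((P A)^[T₀] (dir x)) := avg_mono hF
    rwa [avg_iter hn hA, hdir] at this
  have hrm : 0 ≤ avg rest := avg_nonneg hr0
  have hm2 : m ≤ 1 := by linarith
  have hrel := relax hn hA hc hc1 hcA hfK0 hfKA hB hB0 T₂
  -- total variation as an average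
  have htv : tv A x (T₂ + (T₁ + T₀)) =
      1 / 2 * avg (fun y => |(P A)^[T₂ + (T₁ + T₀)] (dir x) y - un A y|) := by
    unfold tv avg
    congr 1
    rw [Finset.sum_div]
    refine Finset.sum_congr rfl fun y _ => ?_
    rw [law_eq hn hA hx]
    have e : (if y ∈ A then 1 / cnt A else 0) = un A y / 2 ^ n := by
      unfold un ind prob
      split_ifs
      · field_simp
      · simp
    rw [e, ← sub_div, abs_div, abs_of_pos (by positivity : (0:ℝ) < 2 ^ n)]
  rw [htv]
  have hb : avg (fun y => |(P A)^[T₂ + (T₁ + T₀)] (dir x) y - un A y|) ≤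
      avg (fun y => (|(P A)^[T₂] fK y - m * un A y| + ((1 - m) * un A y +
        ((P A)^[T₂] rest y + (P A)^[T₂] ((P A)^[T₁] G) y)))) := by
    apply avg_mono
    intro y
    rw [hdec]
    have hu : 0 ≤ un A y := by unfold un ind; split_ifs <;> positivity
    have h1 : 0 ≤ (P A)^[T₂] rest y := iter_nonneg hr0 _ _
    have h2 : 0 ≤ (P A)^[T₂] ((P A)^[T₁] G) y := iter_nonneg (fun z => iter_nonneg hG0 _ _) _ _
    have h3 : 0 ≤ (1 - m) * un A y := mul_nonneg (by linarith) hu
    simp only [Pi.add_apply]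
    have e : (P A)^[T₂] fK y + ((P A)^[T₂] rest y + (P A)^[T₂] ((P A)^[T₁] G) y) - un A y =
      ((P A)^[T₂] fK y - m * un A y) + ((P A)^[T₂] rest y + (P A)^[T₂] ((P A)^[T₁] G) y
        - (1 - m) * un A y) := by ring
    rw [e]
    refine (abs_add_le _ _).trans ?_
    gcongr
    rw [abs_le]
    constructor <;> linarith
  rw [avg_add, avg_add, avg_add, avg_mul, avg_un hp] at hb
  have e1 : avg (fun x => (P A)^[T₂] rest x) = avg rest := avg_iter hn hA _ _
  have e2 : avg (fun x => (P A)^[T₂] ((P A)^[T₁] G) x) = avg G := by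
    have := avg_iter hn hA ((P A)^[T₁] G) T₂
    rw [show (fun x => (P A)^[T₂] ((P A)^[T₁] G) x) = (P A)^[T₂] ((P A)^[T₁] G) from rfl, this,
      avg_iter hn hA]
  rw [e1, e2] at hb
  have := hrel.trans hT₂
  linarith

end Pool.Agent.MP_291ce2_pr
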