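import Pool.Agent.MP_291ce2_pr.Defs

set_option autoImplicit false

/-! [CW-3] the function Psi -/

namespace Pool.Agent.MP_291ce2_pr

theorem Psi_self (a : ℝ) : Psi a a = 0 := by
  unfold Psi chi
  by_cases h : a = 0
  · simp [h]
  · have h2 : a ^ 2 + a ^ 2 ≠ 0 := by positivity
    field_simp
    ring

theorem Psi_nonneg (a b : ℝ) : 0 ≤ Psi a b := by
  unfold Psi chi
  by_cases h : a ^ 2 + b ^ 2 = 0
  · rw [h]
    simp
  · have hp : 0 < a ^ 2 + b ^ 2 := lt_of_le_of_ne (by positivity) (Ne.symm h)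
    have : a ^ 2 + b ^ 2 - 4 * (a ^ 2 * b ^ 2 / (a ^ 2 + b ^ 2))
        = (a ^ 2 - b ^ 2) ^ 2 / (a ^ 2 + b ^ 2) := by
      field_simp
      ring
    rw [this]
    positivity

theorem chi_le {a b : ℝ} (ha : 0 ≤ a) (hb : 0 ≤ b) : 4 * chi a b ≤ 2 * (a * b) := by
  unfold chi
  by_cases h : a ^ 2 + b ^ 2 = 0
  · rw [h]
    simp
    positivity
  · have hp : 0 < a ^ 2 + b ^ 2 := lt_of_le_of_ne (by positivity) (Ne.symm h)
    rw [mul_div_assoc', div_le_iff₀ hp]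
    have h1 : 0 ≤ a * b := mul_nonneg ha hb
    have h2 : 0 ≤ (a - b) ^ 2 := sq_nonneg _
    nlinarith [mul_nonneg h1 h2]

theorem Psi_lip (a a' b : ℝ) : |Psi a b - Psi a' b| ≤ 3 * |a ^ 2 - a' ^ 2| := by
  by_cases hb : b = 0
  · have e : ∀ c : ℝ, Psi c b = c ^ 2 := by
      intro c
      unfold Psi chi
      rw [hb]
      simp
    rw [e, e]
    linarith [abs_nonneg (a ^ 2 - a' ^ 2)]
  · have hv : 0 < b ^ 2 := by positivity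
    have hw : 0 ≤ a ^ 2 := by positivity
    have hw' : 0 ≤ a' ^ 2 := by positivity
    have h1 : 0 < a ^ 2 + b ^ 2 := by positivity
    have h2 : 0 < a' ^ 2 + b ^ 2 := by positivity
    have e : Psi a b - Psi a' b
        = (a ^ 2 - a' ^ 2) * (1 - 4 * (b ^ 2 * b ^ 2 / ((a ^ 2 + b ^ 2) * (a' ^ 2 + b ^ 2)))) := by
      unfold Psi chi
      field_simp
      ring
    rw [e, abs_mul, mul_comm]
    refine mul_le_mul_of_nonneg_right ?_ (abs_nonneg _)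
    have hq0 : 0 ≤ b ^ 2 * b ^ 2 / ((a ^ 2 + b ^ 2) * (a' ^ 2 + b ^ 2)) := by positivity
    have hq1 : b ^ 2 * b ^ 2 / ((a ^ 2 + b ^ 2) * (a' ^ 2 + b ^ 2)) ≤ 1 := by
      rw [div_le_one (by positivity)]
      exact mul_le_mul (by linarith) (by linarith) hv.le h1.le
    rw [abs_le]
    constructor <;> linarith

theorem Psi_symm (a b : ℝ) : Psi a b = Psi b a := by
  unfold Psi chi
  rw [mul_comm (a ^ 2) (b ^ 2), add_comm (a ^ 2) (b ^ 2)]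

private theorem chi_nonneg (a b : ℝ) : 0 ≤ chi a b := by
  unfold chi
  positivity

private theorem chi_zero_left (b : ℝ) : chi 0 b = 0 := by
  unfold chi
  simp

private theorem chi_zero_right (a : ℝ) : chi a 0 = 0 := by
  unfold chi
  simp

private theorem poly_bound (x y z w : ℝ) :
    (x + y) * (z + w) * (x ^ 2 * y ^ 2 * (z ^ 2 + w ^ 2) + z ^ 2 * w ^ 2 * (x ^ 2 + y ^ 2)) ≤
      2 * ((x ^ 2 + z ^ 2) * (x ^ 2 + w ^ 2) * ((y ^ 2 + z ^ 2) * (y ^ 2 + w ^ 2))) := by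
  have hA : 0 ≤ x ^ 2 := by positivity
  have ha : 0 ≤ y ^ 2 := by positivity
  have hB : 0 ≤ z ^ 2 := by positivity
  have hb : 0 ≤ w ^ 2 := by positivity
  have hS : 0 ≤ x ^ 2 * y ^ 2 * (z ^ 2 + w ^ 2) + z ^ 2 * w ^ 2 * (x ^ 2 + y ^ 2) := by positivity
  have k1 : x * z ≤ (x ^ 2 + z ^ 2) / 2 := by nlinarith [sq_nonneg (x - z)]
  have k2 : x * w ≤ (x ^ 2 + w ^ 2) / 2 := by nlinarith [sq_nonneg (x - w)]
  have k3 : y * z ≤ (y ^ 2 + z ^ 2) / 2 := by nlinarith [sq_nonneg (y - z)]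
  have k4 : y * w ≤ (y ^ 2 + w ^ 2) / 2 := by nlinarith [sq_nonneg (y - w)]
  generalize x ^ 2 = A at *
  generalize y ^ 2 = a at *
  generalize z ^ 2 = B at *
  generalize w ^ 2 = b at *
  have b1 : A * a * (B + b) + B * b * (A + a) ≤ (A + b) * ((a + B) * (a + b)) := by
    have : 0 ≤ A * a * a + a * a * b + a * b * b + b * b * B := by positivity
    nlinarith
  have b2 : A * a * (B + b) + B * b * (A + a) ≤ (A + B) * ((a + B) * (a + b)) := by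
    have : 0 ≤ A * a * a + a * a * B + a * B * B + B * B * b := by positivity
    nlinarith
  have b3 : A * a * (B + b) + B * b * (A + a) ≤ (A + B) * ((A + b) * (a + b)) := by
    have : 0 ≤ A * A * a + A * A * b + A * b * b + b * b * B := by positivity
    nlinarith
  have b4 : A * a * (B + b) + B * b * (A + a) ≤ (A + B) * ((A + b) * (a + B)) := by
    have : 0 ≤ A * A * a + A * A * B + A * B * B + B * B * b := by positivity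
    nlinarith
  have c1 := mul_le_mul k1 b1 hS (by positivity)
  have c2 := mul_le_mul k2 b2 hS (by positivity)
  have c3 := mul_le_mul k3 b3 hS (by positivity)
  have c4 := mul_le_mul k4 b4 hS (by positivity)
  nlinarith

private theorem chi_mixed {a₀ a₁ b₀ b₁ : ℝ} (ha₀ : 0 ≤ a₀) (ha₁ : 0 ≤ a₁) (hb₀ : 0 ≤ b₀)
    (hb₁ : 0 ≤ b₁) :
    chi a₁ b₁ - chi a₁ b₀ - chi a₀ b₁ + chi a₀ b₀ ≤ 2 * (|a₁ - a₀| * |b₁ - b₀|) := by
  by_cases h11 : a₁ ^ 2 + b₁ ^ 2 = 0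
  · have e1 : a₁ = 0 := by nlinarith [sq_nonneg a₁, sq_nonneg b₁]
    have e2 : b₁ = 0 := by nlinarith [sq_nonneg a₁, sq_nonneg b₁]
    have f1 : |(0 : ℝ) - a₀| = a₀ := by rw [zero_sub, abs_neg, abs_of_nonneg ha₀]
    have f2 : |(0 : ℝ) - b₀| = b₀ := by rw [zero_sub, abs_neg, abs_of_nonneg hb₀]
    rw [e1, e2, chi_zero_left, chi_zero_left, chi_zero_right, f1, f2]
    have := chi_le ha₀ hb₀
    have := mul_nonneg ha₀ hb₀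
    linarith
  by_cases h10 : a₁ ^ 2 + b₀ ^ 2 = 0
  · have e1 : a₁ = 0 := by nlinarith [sq_nonneg a₁, sq_nonneg b₀]
    have e2 : b₀ = 0 := by nlinarith [sq_nonneg a₁, sq_nonneg b₀]
    rw [e1, e2, chi_zero_left, chi_zero_left, chi_zero_right]
    have := chi_nonneg a₀ b₁
    have := mul_nonneg (abs_nonneg (0 - a₀)) (abs_nonneg (b₁ - 0))
    linarith
  by_cases h01 : a₀ ^ 2 + b₁ ^ 2 = 0
  · have e1 : a₀ = 0 := by nlinarith [sq_nonneg a₀, sq_nonneg b₁]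
    have e2 : b₁ = 0 := by nlinarith [sq_nonneg a₀, sq_nonneg b₁]
    rw [e1, e2, chi_zero_left, chi_zero_left, chi_zero_right]
    have := chi_nonneg a₁ b₀
    have := mul_nonneg (abs_nonneg (a₁ - 0)) (abs_nonneg (0 - b₀))
    linarith
  by_cases h00 : a₀ ^ 2 + b₀ ^ 2 = 0
  · have e1 : a₀ = 0 := by nlinarith [sq_nonneg a₀, sq_nonneg b₀]
    have e2 : b₀ = 0 := by nlinarith [sq_nonneg a₀, sq_nonneg b₀]
    have f1 : |a₁ - (0 : ℝ)| = a₁ := by rw [sub_zero, abs_of_nonneg ha₁]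
    have f2 : |b₁ - (0 : ℝ)| = b₁ := by rw [sub_zero, abs_of_nonneg hb₁]
    rw [e1, e2, chi_zero_left, chi_zero_left, chi_zero_right, f1, f2]
    have := chi_le ha₁ hb₁
    have := mul_nonneg ha₁ hb₁
    linarith
  have p11 : 0 < a₁ ^ 2 + b₁ ^ 2 := lt_of_le_of_ne (by positivity) (Ne.symm h11)
  have p10 : 0 < a₁ ^ 2 + b₀ ^ 2 := lt_of_le_of_ne (by positivity) (Ne.symm h10)
  have p01 : 0 < a₀ ^ 2 + b₁ ^ 2 := lt_of_le_of_ne (by positivity) (Ne.symm h01)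
  have p00 : 0 < a₀ ^ 2 + b₀ ^ 2 := lt_of_le_of_ne (by positivity) (Ne.symm h00)
  have hD : 0 < (a₁ ^ 2 + b₁ ^ 2) * (a₁ ^ 2 + b₀ ^ 2) * ((a₀ ^ 2 + b₁ ^ 2) * (a₀ ^ 2 + b₀ ^ 2)) := by
    positivity
  have e : chi a₁ b₁ - chi a₁ b₀ - chi a₀ b₁ + chi a₀ b₀
      = (a₁ - a₀) * (b₁ - b₀) * ((a₁ + a₀) * (b₁ + b₀) *
          (a₁ ^ 2 * a₀ ^ 2 * (b₁ ^ 2 + b₀ ^ 2) + b₁ ^ 2 * b₀ ^ 2 * (a₁ ^ 2 + a₀ ^ 2)) /
          ((a₁ ^ 2 + b₁ ^ 2) * (a₁ ^ 2 + b₀ ^ 2) * ((a₀ ^ 2 + b₁ ^ 2) * (a₀ ^ 2 + b₀ ^ 2)))) := by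
    unfold chi
    field_simp
    ring
  rw [e]
  have hq0 : 0 ≤ (a₁ + a₀) * (b₁ + b₀) *
          (a₁ ^ 2 * a₀ ^ 2 * (b₁ ^ 2 + b₀ ^ 2) + b₁ ^ 2 * b₀ ^ 2 * (a₁ ^ 2 + a₀ ^ 2)) /
          ((a₁ ^ 2 + b₁ ^ 2) * (a₁ ^ 2 + b₀ ^ 2) * ((a₀ ^ 2 + b₁ ^ 2) * (a₀ ^ 2 + b₀ ^ 2))) := by
    positivity
  have hq1 : (a₁ + a₀) * (b₁ + b₀) *
          (a₁ ^ 2 * a₀ ^ 2 * (b₁ ^ 2 + b₀ ^ 2) + b₁ ^ 2 * b₀ ^ 2 * (a₁ ^ 2 + a₀ ^ 2)) /
          ((a₁ ^ 2 + b₁ ^ 2) * (a₁ ^ 2 + b₀ ^ 2) * ((a₀ ^ 2 + b₁ ^ 2) * (a₀ ^ 2 + b₀ ^ 2))) ≤ 2 := by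
    rw [div_le_iff₀ hD]
    exact poly_bound a₁ a₀ b₁ b₀
  rw [← abs_mul, mul_comm 2]
  exact (mul_le_mul_of_nonneg_right (le_abs_self _) hq0).trans
    (mul_le_mul_of_nonneg_left hq1 (abs_nonneg _))

theorem Psi_mixed {a₀ a₁ b₀ b₁ : ℝ} (ha₀ : 0 ≤ a₀) (ha₁ : 0 ≤ a₁) (hb₀ : 0 ≤ b₀) (hb₁ : 0 ≤ b₁) :
    Psi a₁ b₀ + Psi a₀ b₁ - Psi a₀ b₀ - Psi a₁ b₁ ≤ 16 * (|a₁ - a₀| * |b₁ - b₀|) := by
  have h := chi_mixed ha₀ ha₁ hb₀ hb₁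
  have h2 := mul_nonneg (abs_nonneg (a₁ - a₀)) (abs_nonneg (b₁ - b₀))
  unfold Psi
  linarith

end Pool.Agent.MP_291ce2_pr
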