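import Pool.Agent.MP_291ce2_pr.Kernel
import Pool.Agent.MP_291ce2_pr.Bessel
import Pool.Agent.MP_291ce2_pr.Psi

set_option autoImplicit false

/-! [CW-4a] G_deriv_le.
Uses Qo_row, Qo_nonneg, Qo_symm ([CW-1]), bessel ([CW-2]), Psi_lip, Psi_symm, Psi_nonneg, Psi_mixed ([CW-3]). -/

namespace Pool.Agent.MP_291ce2_pr

open Finset
open scoped Classical

variable {n : ℕ}

private noncomputable def dd (A : Set (X n)) (g : X n → ℝ) (i : Fin n) (x : X n) : ℝ :=
  if x ∈ A then |g (up i x) - g x| else 0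

private noncomputable def ww (A : Set (X n)) (g : X n → ℝ) (i : Fin n) (x : X n) : ℝ :=
  if x ∈ A then |g (up i x) ^ 2 - g x ^ 2| else 0

private noncomputable def bb (A : Set (X n)) (i : Fin n) (y : X n) : ℝ :=
  ind A (up i y) - ind A y

private theorem le_up (i : Fin n) (x : X n) : x ≤ up i x := by
  intro j
  by_cases h : j = i
  · subst h
    simp only [up, Function.update_self]
    exact le_top
  · simp [up, Function.update_of_ne h]

private theorem bb_nonneg {A : Set (X n)} (hA : IsUpperSet A) (i : Fin n) (y : X n) :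
    0 ≤ bb A i y := by
  unfold bb ind
  by_cases h : y ∈ A
  · have := hA (le_up i y) h
    simp [h, this]
  · simp only [h, if_false, sub_zero]
    split_ifs <;> norm_num

private theorem bb_le_one (A : Set (X n)) (i : Fin n) (y : X n) : bb A i y ≤ 1 := by
  unfold bb ind
  split_ifs <;> norm_num

private theorem dd_nonneg (A : Set (X n)) (g : X n → ℝ) (i : Fin n) (x : X n) : 0 ≤ dd A g i x := by
  unfold dd
  split_ifs
  · exact abs_nonneg _
  · exact le_rfl

private theorem ww_nonneg (A : Set (X n)) (g : X n → ℝ) (i : Fin n) (x : X n) : 0 ≤ ww A g i x := by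
  unfold ww
  split_ifs
  · exact abs_nonneg _
  · exact le_rfl

private theorem ww_le (A : Set (X n)) {g : X n → ℝ} (hg : ∀ x, 0 ≤ g x) (i : Fin n) (x : X n) :
    ww A g i x ≤ 2 * (ind A x * g x) * dd A g i x + dd A g i x ^ 2 := by
  unfold ww dd ind
  split_ifs with h
  · have e : g (up i x) ^ 2 - g x ^ 2 = (g (up i x) - g x) * (g (up i x) + g x) := by ring
    rw [e, abs_mul, abs_of_nonneg (add_nonneg (hg _) (hg _))]
    have h1 := le_abs_self (g (up i x) - g x)
    have h2 := abs_nonneg (g (up i x) - g x)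
    nlinarith
  · simp

private theorem pointwise {A : Set (X n)} (hA : IsUpperSet A) {g : X n → ℝ} (hg : ∀ x, 0 ≤ g x)
    (i : Fin n) (x y : X n) :
    (ind A (up i x) * ind A y * Psi (g (up i x)) (g y)
        + ind A x * ind A (up i y) * Psi (g x) (g (up i y))
        - ind A x * ind A y * Psi (g x) (g y)
        - ind A (up i x) * ind A (up i y) * Psi (g (up i x)) (g (up i y)))
      ≤ 16 * (dd A g i x * dd A g i y) + 3 * (ww A g i x * bb A i y) + 3 * (ww A g i y * bb A i x) := by
  by_cases hx : x ∈ A <;> by_cases hy : y ∈ A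
  · have hx' := hA (le_up i x) hx
    have hy' := hA (le_up i y) hy
    have := Psi_mixed (hg x) (hg (up i x)) (hg y) (hg (up i y))
    simp only [dd, ww, bb, ind, hx, hy, hx', hy', if_true]
    linarith
  · have hx' := hA (le_up i x) hx
    have h1 := Psi_lip (g x) (g (up i x)) (g (up i y))
    have h2 := le_abs_self (Psi (g x) (g (up i y)) - Psi (g (up i x)) (g (up i y)))
    have h3 : |g x ^ 2 - g (up i x) ^ 2| = |g (up i x) ^ 2 - g x ^ 2| := abs_sub_comm _ _
    simp only [dd, ww, bb, ind, hx, hy, hx', if_true, if_false]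
    split_ifs <;> linarith
  · have hy' := hA (le_up i y) hy
    have h1 := Psi_lip (g y) (g (up i y)) (g (up i x))
    have h2 := le_abs_self (Psi (g y) (g (up i x)) - Psi (g (up i y)) (g (up i x)))
    have h3 : |g y ^ 2 - g (up i y) ^ 2| = |g (up i y) ^ 2 - g y ^ 2| := abs_sub_comm _ _
    have h4 := Psi_symm (g y) (g (up i x))
    have h5 := Psi_symm (g (up i y)) (g (up i x))
    simp only [dd, ww, bb, ind, hx, hy, hy', if_true, if_false]
    split_ifs <;> linarith
  · have h1 := Psi_nonneg (g (up i x)) (g (up i y))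
    simp only [dd, ww, bb, ind, hx, hy, if_false]
    split_ifs <;> linarith

private theorem En_eq (A : Set (X n)) (g : X n → ℝ) :
    ∑ i : Fin n, ∑ x ∈ lo i, dd A g i x ^ 2 = En A g := by
  unfold En
  refine Finset.sum_congr rfl fun i _ => Finset.sum_congr rfl fun x _ => ?_
  unfold dd
  split_ifs
  · rw [sq_abs]
  · simp

/-- the sum over `y` of the boundary term -/
private noncomputable def be (A : Set (X n)) (t : ℝ) (i : Fin n) (x : X n) : ℝ :=
  ∑ y ∈ lo i, Qo t i x y * bb A i y

private theorem be_nonneg {A : Set (X n)} (hA : IsUpperSet A) {t : ℝ} (ht : 0 < t) (ht1 : t < 1)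
    (i : Fin n) (x : X n) : 0 ≤ be A t i x :=
  Finset.sum_nonneg fun y _ => mul_nonneg (Qo_nonneg ht.le ht1.le i x y) (bb_nonneg hA i y)

private theorem be_le_one (A : Set (X n)) {t : ℝ} (ht : 0 < t) (ht1 : t < 1)
    (i : Fin n) (x : X n) : be A t i x ≤ 1 := by
  unfold be
  calc ∑ y ∈ lo i, Qo t i x y * bb A i y ≤ ∑ y ∈ lo i, Qo t i x y * 1 :=
        Finset.sum_le_sum fun y _ =>
          mul_le_mul_of_nonneg_left (bb_le_one A i y) (Qo_nonneg ht.le ht1.le i x y)
    _ = 1 := by simp only [mul_one]; exact Qo_row t i x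

private theorem sum_swap (F : Fin n → X n → ℝ) :
    ∑ i : Fin n, ∑ x ∈ lo i, F i x = ∑ x : X n, ∑ i ∈ univ.filter (fun i => x i = false), F i x := by
  simp only [lo, Finset.sum_filter]
  rw [Finset.sum_comm]

private theorem part2 {A : Set (X n)} (hA : IsUpperSet A) {g : X n → ℝ} (hg : ∀ x, 0 ≤ g x)
    {t : ℝ} (ht : 0 < t) (ht1 : t < 1) :
    ∑ i : Fin n, ∑ x ∈ lo i, ww A g i x * be A t i x ≤
      En A g + 2 / √(t * (1 - t)) * √(∑ x : X n, ind A x * g x ^ 2) * √(En A g) := by
  have h1 : ∀ i x, ww A g i x * be A t i x ≤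
      dd A g i x ^ 2 + 2 * (ind A x * g x) * (dd A g i x * be A t i x) := by
    intro i x
    have hb0 := be_nonneg hA ht ht1 i x
    have hb1 := be_le_one A ht ht1 i x
    have hw := ww_le A hg i x
    have := mul_le_mul_of_nonneg_right hw hb0
    have h2 : dd A g i x ^ 2 * be A t i x ≤ dd A g i x ^ 2 * 1 :=
      mul_le_mul_of_nonneg_left hb1 (sq_nonneg _)
    nlinarith
  have h2 : ∑ i : Fin n, ∑ x ∈ lo i, ww A g i x * be A t i x ≤
      En A g + ∑ i : Fin n, ∑ x ∈ lo i, 2 * (ind A x * g x) * (dd A g i x * be A t i x) := by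
    rw [← En_eq, ← Finset.sum_add_distrib]
    refine Finset.sum_le_sum fun i _ => ?_
    rw [← Finset.sum_add_distrib]
    exact Finset.sum_le_sum fun x _ => h1 i x
  refine h2.trans (add_le_add le_rfl ?_)
  rw [sum_swap]
  have h3 : ∀ x : X n, ∑ i ∈ univ.filter (fun i => x i = false),
      2 * (ind A x * g x) * (dd A g i x * be A t i x) ≤
      2 / √(t * (1 - t)) * ((ind A x * g x) * √(∑ i ∈ univ.filter (fun i => x i = false), dd A g i x ^ 2)) := by
    intro x
    rw [← Finset.mul_sum]
    have hi : 0 ≤ ind A x * g x := by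
      refine mul_nonneg ?_ (hg x)
      unfold ind
      split_ifs <;> norm_num
    have hcs := Real.sum_mul_le_sqrt_mul_sqrt (univ.filter (fun i => x i = false))
      (fun i => dd A g i x) (fun i => be A t i x)
    have hbes := bessel (F := ind A) (fun x => by unfold ind; split_ifs <;> norm_num)
      (fun x => by unfold ind; split_ifs <;> norm_num) ht ht1 x
    have hs : √(∑ i ∈ univ.filter (fun i => x i = false), be A t i x ^ 2) ≤ 1 / √(t * (1 - t)) := by
      rw [← Real.sqrt_one, ← Real.sqrt_div zero_le_one, Real.sqrt_one]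
      exact Real.sqrt_le_sqrt hbes
    have h4 : ∑ i ∈ univ.filter (fun i => x i = false), dd A g i x * be A t i x ≤
        √(∑ i ∈ univ.filter (fun i => x i = false), dd A g i x ^ 2) * (1 / √(t * (1 - t))) :=
      hcs.trans (mul_le_mul_of_nonneg_left hs (Real.sqrt_nonneg _))
    calc 2 * (ind A x * g x) * ∑ i ∈ univ.filter (fun i => x i = false), dd A g i x * be A t i x
        ≤ 2 * (ind A x * g x) *
          (√(∑ i ∈ univ.filter (fun i => x i = false), dd A g i x ^ 2) * (1 / √(t * (1 - t)))) :=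
          mul_le_mul_of_nonneg_left h4 (by positivity)
      _ = _ := by ring
  refine (Finset.sum_le_sum fun x _ => h3 x).trans ?_
  rw [← Finset.mul_sum, mul_assoc (2 / √(t * (1 - t)))]
  refine mul_le_mul_of_nonneg_left ?_ (by positivity)
  refine (Real.sum_mul_le_sqrt_mul_sqrt _ _ _).trans (le_of_eq ?_)
  congr 2
  · refine Finset.sum_congr rfl fun x _ => ?_
    unfold ind
    split_ifs <;> ring
  · rw [← En_eq, sum_swap]
    refine Finset.sum_congr rfl fun x _ => ?_
    exact Real.sq_sqrt (Finset.sum_nonneg fun _ _ => sq_nonneg _)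

/-- bound for the derivative of `t ↦ ∑ Q_t(x,y) Psi(g x, g y)` over `A × A` -/
theorem G_deriv_le {A : Set (X n)} (hA : IsUpperSet A) {g : X n → ℝ} (hg : ∀ x, 0 ≤ g x)
    {t : ℝ} (ht : 0 < t) (ht1 : t < 1) :
    ∑ i : Fin n, ∑ x ∈ lo i, ∑ y ∈ lo i, Qo t i x y *
      (ind A (up i x) * ind A y * Psi (g (up i x)) (g y)
        + ind A x * ind A (up i y) * Psi (g x) (g (up i y))
        - ind A x * ind A y * Psi (g x) (g y)
        - ind A (up i x) * ind A (up i y) * Psi (g (up i x)) (g (up i y)))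
      ≤ 22 * En A g + 12 / √(t * (1 - t)) * √(∑ x : X n, ind A x * g x ^ 2) * √(En A g) := by
  have hi : ∀ i : Fin n, ∑ x ∈ lo i, ∑ y ∈ lo i, Qo t i x y *
      (ind A (up i x) * ind A y * Psi (g (up i x)) (g y)
        + ind A x * ind A (up i y) * Psi (g x) (g (up i y))
        - ind A x * ind A y * Psi (g x) (g y)
        - ind A (up i x) * ind A (up i y) * Psi (g (up i x)) (g (up i y)))
      ≤ 16 * ∑ x ∈ lo i, dd A g i x ^ 2 + 6 * ∑ x ∈ lo i, ww A g i x * be A t i x := by
    intro i
    have hrow : ∀ x, ∑ y ∈ lo i, Qo t i x y = 1 := Qo_row t i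
    have s1 : ∑ x ∈ lo i, ∑ y ∈ lo i, Qo t i x y * (dd A g i x * dd A g i y)
        ≤ ∑ x ∈ lo i, dd A g i x ^ 2 := by
      have e1 : ∑ x ∈ lo i, ∑ y ∈ lo i, Qo t i x y * (dd A g i x ^ 2 / 2)
          = (∑ x ∈ lo i, dd A g i x ^ 2) / 2 := by
        rw [Finset.sum_div]
        refine Finset.sum_congr rfl fun x _ => ?_
        rw [← Finset.sum_mul, hrow, one_mul]
      have e2 : ∑ x ∈ lo i, ∑ y ∈ lo i, Qo t i x y * (dd A g i y ^ 2 / 2)
          = (∑ x ∈ lo i, dd A g i x ^ 2) / 2 := by
        rw [Finset.sum_comm, ← e1]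
        refine Finset.sum_congr rfl fun x _ => Finset.sum_congr rfl fun y _ => ?_
        rw [Qo_symm]
      calc ∑ x ∈ lo i, ∑ y ∈ lo i, Qo t i x y * (dd A g i x * dd A g i y)
          ≤ ∑ x ∈ lo i, ∑ y ∈ lo i,
              (Qo t i x y * (dd A g i x ^ 2 / 2) + Qo t i x y * (dd A g i y ^ 2 / 2)) := by
            refine Finset.sum_le_sum fun x _ => Finset.sum_le_sum fun y _ => ?_
            rw [← mul_add]
            refine mul_le_mul_of_nonneg_left ?_ (Qo_nonneg ht.le ht1.le i x y)
            nlinarith [sq_nonneg (dd A g i x - dd A g i y)]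
        _ = ∑ x ∈ lo i, dd A g i x ^ 2 := by
            simp only [Finset.sum_add_distrib]
            rw [e1, e2]
            ring
    have s2 : ∑ x ∈ lo i, ∑ y ∈ lo i, Qo t i x y * (ww A g i x * bb A i y)
        = ∑ x ∈ lo i, ww A g i x * be A t i x := by
      refine Finset.sum_congr rfl fun x _ => ?_
      rw [be, Finset.mul_sum]
      refine Finset.sum_congr rfl fun y _ => ?_
      ring
    have s3 : ∑ x ∈ lo i, ∑ y ∈ lo i, Qo t i x y * (ww A g i y * bb A i x)
        = ∑ x ∈ lo i, ww A g i x * be A t i x := by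
      rw [← s2, Finset.sum_comm]
      refine Finset.sum_congr rfl fun x _ => Finset.sum_congr rfl fun y _ => ?_
      rw [Qo_symm]
    calc _ ≤ ∑ x ∈ lo i, ∑ y ∈ lo i, Qo t i x y *
          (16 * (dd A g i x * dd A g i y) + 3 * (ww A g i x * bb A i y)
            + 3 * (ww A g i y * bb A i x)) :=
          Finset.sum_le_sum fun x _ => Finset.sum_le_sum fun y _ =>
            mul_le_mul_of_nonneg_left (pointwise hA hg i x y) (Qo_nonneg ht.le ht1.le i x y)
      _ = 16 * (∑ x ∈ lo i, ∑ y ∈ lo i, Qo t i x y * (dd A g i x * dd A g i y))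
          + 3 * (∑ x ∈ lo i, ∑ y ∈ lo i, Qo t i x y * (ww A g i x * bb A i y))
          + 3 * (∑ x ∈ lo i, ∑ y ∈ lo i, Qo t i x y * (ww A g i y * bb A i x)) := by
          simp only [Finset.mul_sum, ← Finset.sum_add_distrib]
          refine Finset.sum_congr rfl fun x _ => Finset.sum_congr rfl fun y _ => ?_
          ring
      _ ≤ _ := by
          rw [s2, s3]
          linarith
  calc _ ≤ ∑ i : Fin n, (16 * ∑ x ∈ lo i, dd A g i x ^ 2 + 6 * ∑ x ∈ lo i, ww A g i x * be A t i x) :=
        Finset.sum_le_sum fun i _ => hi i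
    _ = 16 * En A g + 6 * ∑ i : Fin n, ∑ x ∈ lo i, ww A g i x * be A t i x := by
        rw [Finset.sum_add_distrib, ← Finset.mul_sum, ← Finset.mul_sum, En_eq]
    _ ≤ 16 * En A g + 6 * (En A g + 2 / √(t * (1 - t)) * √(∑ x : X n, ind A x * g x ^ 2) * √(En A g)) := by
        have := part2 hA hg ht ht1
        linarith
    _ = _ := by ring

end Pool.Agent.MP_291ce2_pr
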