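import Pool.Agent.MP_291ce2_pr.Progress

set_option autoImplicit false

/-! One window for one level. -/

namespace Pool.Agent.MP_291ce2_pr

open Finset
open scoped Classical

variable {n : ℕ}

private theorem ls_card : ((univ : Finset (X n)).card : ℝ) = 2 ^ n := by
  rw [Finset.card_univ, Fintype.card_fun, Fintype.card_bool, Fintype.card_fin]
  push_cast
  rfl

private theorem ls_avg_sq (g : X n → ℝ) (r : ℝ) :
    avg (fun x => (g x + r) ^ 2) = avg (fun x => g x ^ 2) + 2 * r * avg g + r ^ 2 := by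
  unfold avg
  have h2 : (2 : ℝ) ^ n ≠ 0 := by positivity
  have e : ∑ x : X n, (g x + r) ^ 2
      = ∑ x : X n, g x ^ 2 + 2 * r * ∑ x : X n, g x + 2 ^ n * r ^ 2 := by
    have : ∀ x : X n, (g x + r) ^ 2 = g x ^ 2 + 2 * r * g x + r ^ 2 := fun x => by ring
    rw [Finset.sum_congr rfl (fun x _ => this x), Finset.sum_add_distrib, Finset.sum_add_distrib,
      ← Finset.mul_sum, Finset.sum_const, nsmul_eq_mul, ls_card]
  rw [e]
  field_simp

private theorem ls_avg_sub (g : X n → ℝ) (r : ℝ) :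
    ∑ x : X n, (g x - r) = ∑ x : X n, g x - 2 ^ n * r := by
  rw [Finset.sum_sub_distrib, Finset.sum_const, nsmul_eq_mul, ls_card]

private theorem ls_nrm_mono {g h : X n → ℝ} (h0 : ∀ x, 0 ≤ g x) (h1 : ∀ x, g x ≤ h x) :
    nrm g ≤ nrm h := by
  unfold nrm
  apply Real.sqrt_le_sqrt
  unfold avg
  apply div_le_div_of_nonneg_right _ (by positivity)
  apply Finset.sum_le_sum
  intro x _
  exact pow_le_pow_left₀ (h0 x) (h1 x) 2

private theorem ls_avg_nonneg {g : X n → ℝ} (h0 : ∀ x, 0 ≤ g x) : 0 ≤ avg g := by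
  unfold avg
  exact div_nonneg (Finset.sum_nonneg (fun x _ => h0 x)) (by positivity)

private theorem ls_P_sub (hn : 1 ≤ n) (g : X n → ℝ) (r : ℝ) :
    P Set.univ (fun x => g x - r) = fun x => P Set.univ g x - r := by
  funext x
  unfold P
  have h1 : ∀ i : Fin n, P1 Set.univ i (fun x => g x - r) x = P1 Set.univ i g x - r := by
    intro i
    unfold P1
    rw [if_pos (Set.mem_univ _), if_pos (Set.mem_univ _)]
    ring
  rw [Finset.sum_congr rfl (fun i _ => h1 i), Finset.sum_sub_distrib, Finset.sum_const,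
    nsmul_eq_mul, Finset.card_univ, Fintype.card_fin]
  have : (n : ℝ) ≠ 0 := by
    have : 0 < n := hn
    positivity
  field_simp

private theorem ls_iter_sub (hn : 1 ≤ n) (g : X n → ℝ) (r : ℝ) (t : ℕ) :
    (P Set.univ)^[t] (fun x => g x - r) = fun x => (P Set.univ)^[t] g x - r := by
  induction t with
  | zero => rfl
  | succ t ih =>
    rw [Function.iterate_succ_apply', ih, ls_P_sub hn, Function.iterate_succ_apply']

private theorem ls_iter_sum (hn : 1 ≤ n) {A : Set (X n)} (hA : IsUpperSet A) (f : X n → ℝ)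
    (t : ℕ) : ∑ x : X n, (P A)^[t] f x = ∑ x : X n, f x := by
  induction t with
  | zero => rfl
  | succ t ih =>
    rw [Function.iterate_succ_apply', P_sum hn hA, ih]

private theorem ls_iter_le (hn : 1 ≤ n) {A : Set (X n)} {f : X n → ℝ} {B : ℝ}
    (hf : ∀ x, f x ≤ B) (t : ℕ) : ∀ x, (P A)^[t] f x ≤ B := by
  induction t with
  | zero => exact hf
  | succ t ih =>
    intro x
    rw [Function.iterate_succ_apply']
    exact P_le hn ih x

/-- The norm of the uncensored population contracts towards its mean. -/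
private theorem ls_contr (hn : 1 ≤ n) {ν : X n → ℝ} {m : ℝ} (hm : avg ν = m) (hm0 : 0 ≤ m)
    (L : ℕ) {c : ℝ} (hL2 : Real.exp (-(L / 4000 : ℝ)) ≤ c ^ 2 / 1024) (hc : 0 < c)
    (hc1 : c ≤ 1) :
    nrm ((P Set.univ)^[2 * L * n] ν) ≤ m + 1 / 1024 * nrm ν := by
  have h2 : (2 : ℝ) ^ n ≠ 0 := by positivity
  have hn' : (0 : ℝ) < n := by
    have : 0 < n := hn
    positivity
  have hsumν : ∑ x : X n, ν x = 2 ^ n * m := by
    rw [← hm]; unfold avg; field_simp
  have hprob : (1 : ℝ) ≤ prob (Set.univ : Set (X n)) := by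
    unfold prob cnt
    simp only [Set.mem_univ, if_true]
    rw [Finset.sum_const, nsmul_eq_mul, mul_one, ls_card, div_self h2]
  have h0 : ∑ x : X n, (ν x - m) = 0 := by
    rw [ls_avg_sub, hsumν, sub_self]
  have hcon := P_contr hn (A := Set.univ) isUpperSet_univ one_pos le_rfl hprob
    (f := fun x => ν x - m) (fun x hx => absurd (Set.mem_univ x) hx) h0 (2 * L * n)
  have hexp : Real.exp (-((1 : ℝ) ^ 2 * ((2 * L * n : ℕ) : ℝ) / (4000 * n))) ≤ 1 / 1024 := by
    have e1 : (1 : ℝ) ^ 2 * ((2 * L * n : ℕ) : ℝ) / (4000 * n) = L / 4000 + L / 4000 := by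
      push_cast
      field_simp
      ring
    rw [e1]
    have e2 : Real.exp (-((L : ℝ) / 4000 + L / 4000)) ≤ Real.exp (-(L / 4000 : ℝ)) := by
      apply Real.exp_le_exp.mpr
      have : (0 : ℝ) ≤ L / 4000 := by positivity
      linarith
    have e3 : c ^ 2 ≤ 1 := by nlinarith
    linarith
  set g : X n → ℝ := (P Set.univ)^[2 * L * n] (fun x => ν x - m) with hg
  have hg0 : avg g = 0 := by
    unfold avg
    rw [hg, ls_iter_sum hn isUpperSet_univ, h0, zero_div]
  have hνT : (P Set.univ)^[2 * L * n] ν = fun x => g x + m := by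
    funext x
    rw [hg, ls_iter_sub hn]
    ring
  have hnn : 0 ≤ avg (fun x => g x ^ 2) := ls_avg_nonneg (fun x => sq_nonneg _)
  have h3 : nrm ((P Set.univ)^[2 * L * n] ν) ≤ nrm g + m := by
    rw [hνT]
    unfold nrm
    rw [ls_avg_sq, hg0, Real.sqrt_le_left (by positivity)]
    have := Real.sq_sqrt hnn
    have h4 : 0 ≤ √(avg fun x => g x ^ 2) * m := by positivity
    nlinarith
  have h5 : nrm (fun x => ν x - m) ≤ nrm ν := by
    unfold nrm
    apply Real.sqrt_le_sqrt
    have := ls_avg_sq ν (-m)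
    simp only [← sub_eq_add_neg] at this
    rw [this, hm]
    nlinarith [sq_nonneg m]
  have h6 : 0 ≤ nrm (fun x => ν x - m) := Real.sqrt_nonneg _
  have h7 : nrm g ≤ 1 / 1024 * nrm ν := by
    calc nrm g ≤ _ := hcon
      _ ≤ 1 / 1024 * nrm (fun x => ν x - m) := mul_le_mul_of_nonneg_right hexp h6
      _ ≤ 1 / 1024 * nrm ν := mul_le_mul_of_nonneg_left h5 (by norm_num)
  linarith

theorem level_step (hn : 1 ≤ n) {A : Set (X n)} (hA : IsUpperSet A) {c : ℝ} (hc : 0 < c) (hc1 : c ≤ 1)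
    (hcA : c ≤ prob A) {f ν : X n → ℝ} (hp : Pop A f ν) (hm1 : avg f ≤ 1) {B b : ℝ}
    (hB : ∀ x, f x ≤ B) (hb0 : 0 < b) (hb1 : 256 / c ≤ Real.log b) (hbB : b ≤ 4 * B)
    (hBb : Real.log (4 * B / b) ≤ 2 * Real.log b)
    {L : ℕ} (hL1 : 46080000 / c ^ 3 < L) (hL2 : Real.exp (-(L / 4000 : ℝ)) ≤ c ^ 2 / 1024) :
    ∃ fa fb νa νb : X n → ℝ, Pop A fa νa ∧ Pop A fb νb ∧
      (∀ x, (P A)^[2 * L * n] f x = fa x + fb x) ∧ (∀ x, fa x ≤ b) ∧ (∀ x, fb x ≤ B) ∧
      2 * (avg fb + c / 32 * nrm νb) + (avg fa + c / 32 * nrm νa) ≤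
        2 * (1 - c / 16) * (avg f + c / 32 * nrm ν) := by
  set fT : X n → ℝ := (P A)^[2 * L * n] f with hfT
  set νT : X n → ℝ := (P Set.univ)^[2 * L * n] ν with hνT
  have hpT : Pop A fT νT := Pop.step hA hp (2 * L * n)
  have hfT0 := hpT.nonneg.1
  let θ : X n → ℝ := fun x => if fT x ≤ b then 1 else b / fT x
  have hθ0 : ∀ x, 0 ≤ θ x := by
    intro x
    show 0 ≤ if fT x ≤ b then (1 : ℝ) else b / fT x
    split_ifs
    · norm_num
    · exact div_nonneg hb0.le (hfT0 x)
  have hθ1 : ∀ x, θ x ≤ 1 := by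
    intro x
    show (if fT x ≤ b then (1 : ℝ) else b / fT x) ≤ 1
    split_ifs with h
    · exact le_rfl
    · push Not at h
      rw [div_le_one (by linarith)]
      exact h.le
  have hθf : ∀ x, θ x * fT x = min (fT x) b := by
    intro x
    show (if fT x ≤ b then (1 : ℝ) else b / fT x) * fT x = min (fT x) b
    split_ifs with h
    · rw [min_eq_left h, one_mul]
    · push Not at h
      rw [min_eq_right h.le, div_mul_cancel₀ _ (by linarith : fT x ≠ 0)]
  obtain ⟨νa, νb, hpa, hpb, hνab⟩ := Pop.split hpT θ hθ0 hθ1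
  refine ⟨fun x => θ x * fT x, fun x => (1 - θ x) * fT x, νa, νb, hpa, hpb, ?_, ?_, ?_, ?_⟩
  · intro x; ring
  · intro x
    show θ x * fT x ≤ b
    rw [hθf]; exact min_le_right _ _
  · intro x
    show (1 - θ x) * fT x ≤ B
    have h1 : fT x ≤ B := ls_iter_le hn hB _ x
    have h2 : 0 ≤ θ x * fT x := mul_nonneg (hθ0 x) (hfT0 x)
    linarith
  · have hf0 := hp.nonneg.1
    have hm0 : 0 ≤ avg f := ls_avg_nonneg hf0
    have hq0 : 0 ≤ nrm ν := Real.sqrt_nonneg _
    have hmν : avg ν = avg f := by unfold avg; rw [hp.sum_eq]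
    have hsum : avg (fun x => θ x * fT x) + avg (fun x => (1 - θ x) * fT x) = avg f := by
      unfold avg
      rw [← add_div, ← Finset.sum_add_distrib, ← ls_iter_sum hn hA f (2 * L * n)]
      congr 1
      apply Finset.sum_congr rfl
      intro x _
      ring
    have hnT : nrm νT ≤ avg f + 1 / 1024 * nrm ν := ls_contr hn hmν hm0 L hL2 hc hc1
    have hna : nrm νa ≤ nrm νT := ls_nrm_mono hpa.nonneg.2 (fun x => by
      have := hνab x
      have := hpb.nonneg.2 x
      linarith)
    have hnb : nrm νb ≤ nrm νT := ls_nrm_mono hpb.nonneg.2 (fun x => by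
      have := hνab x
      have := hpa.nonneg.2 x
      linarith)
    have hfa0 : 0 ≤ avg (fun x => θ x * fT x) := ls_avg_nonneg hpa.nonneg.1
    set a := avg (fun x => θ x * fT x) with ha
    set b' := avg (fun x => (1 - θ x) * fT x) with hb'
    set m := avg f with hm
    set q := nrm ν with hq
    have hlhs : 2 * (b' + c / 32 * nrm νb) + (a + c / 32 * nrm νa) ≤
        2 * m - a + 3 * (c / 32) * (m + 1 / 1024 * q) := by
      have e1 : c / 32 * nrm νa ≤ c / 32 * (m + 1 / 1024 * q) :=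
        mul_le_mul_of_nonneg_left (hna.trans hnT) (by positivity)
      have e2 : c / 32 * nrm νb ≤ c / 32 * (m + 1 / 1024 * q) :=
        mul_le_mul_of_nonneg_left (hnb.trans hnT) (by positivity)
      linarith
    have hcq : 0 ≤ c * q := by positivity
    have hcm : 0 ≤ c * m := by positivity
    have hccq : c * c * q ≤ c * q := by nlinarith
    by_cases hcase : q ≤ 256 / c * m
    · have hpr := progress hn hA hc hc1 hcA hp hm1 hB hb0 hb1 hbB hBb hcase hL1 hL2
      have hpr' : c / 4 * m ≤ a := by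
        rw [ha]
        have : (fun x => θ x * fT x) = (fun x => min (fT x) b) := funext hθf
        rw [this]
        exact hpr
      nlinarith
    · push Not at hcase
      have h1 : 256 * m < c * q := by
        rw [div_mul_eq_mul_div, div_lt_iff₀ hc] at hcase
        linarith
      have h2 : 256 * (c * m) ≤ c * q := by nlinarith
      nlinarith

end Pool.Agent.MP_291ce2_pr
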