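import Pool.Agent.MP_291ce2_pr.LevelStep

set_option autoImplicit false

/-! [CW-12b] levels (bookkeeping induction).
Uses Pop.nonneg, Pop.supp, Pop.zero, Pop.add, Pop.step, P_add, P_le, P_sum, level_step. -/

namespace Pool.Agent.MP_291ce2_pr

open Finset
open scoped Classical

variable {n : ℕ}

namespace LevelsAux

theorem avg_add (f g : X n → ℝ) : avg (f + g) = avg f + avg g := by
  unfold avg
  simp only [Pi.add_apply]
  rw [Finset.sum_add_distrib]
  ring

theorem avg_nonneg {f : X n → ℝ} (hf : ∀ x, 0 ≤ f x) : 0 ≤ avg f := by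
  unfold avg
  exact div_nonneg (Finset.sum_nonneg fun x _ => hf x) (by positivity)

theorem avg_zero : avg (fun _ : X n => (0 : ℝ)) = 0 := by
  unfold avg
  simp

theorem avg_sum (s : Finset ℕ) (f : ℕ → X n → ℝ) :
    avg (fun x => ∑ k ∈ s, f k x) = ∑ k ∈ s, avg (f k) := by
  unfold avg
  rw [Finset.sum_comm, Finset.sum_div]

theorem nrm_nonneg (f : X n → ℝ) : 0 ≤ nrm f := Real.sqrt_nonneg _

theorem nrm_zero : nrm (fun _ : X n => (0 : ℝ)) = 0 := by
  unfold nrm avg
  simp

theorem nrm_eq (f : X n → ℝ) :
    nrm f = ‖(WithLp.toLp 2 f : EuclideanSpace ℝ (X n))‖ / √(2 ^ n) := by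
  unfold nrm avg
  rw [EuclideanSpace.norm_eq, Real.sqrt_div (Finset.sum_nonneg fun x _ => sq_nonneg _)]
  congr 2
  apply Finset.sum_congr rfl
  intro x _
  simp

theorem nrm_add (f g : X n → ℝ) : nrm (f + g) ≤ nrm f + nrm g := by
  rw [nrm_eq, nrm_eq, nrm_eq, ← add_div]
  apply div_le_div_of_nonneg_right _ (Real.sqrt_nonneg _)
  rw [WithLp.toLp_add]
  exact norm_add_le _ _

theorem iter_zero (A : Set (X n)) (t : ℕ) :
    (P A)^[t] (fun _ : X n => (0 : ℝ)) = fun _ => 0 := by
  induction t with
  | zero => rfl
  | succ t ih =>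
    rw [Function.iterate_succ_apply', ih]
    funext x
    unfold P P1
    simp

theorem iter_add (A : Set (X n)) (t : ℕ) (f g : X n → ℝ) :
    (P A)^[t] (f + g) = (P A)^[t] f + (P A)^[t] g := by
  induction t with
  | zero => rfl
  | succ t ih =>
    rw [Function.iterate_succ_apply', Function.iterate_succ_apply',
      Function.iterate_succ_apply', ih, P_add]

theorem iter_sum (A : Set (X n)) (t : ℕ) (m : ℕ) (f : ℕ → X n → ℝ) :
    (P A)^[t] (fun x => ∑ k ∈ range m, f k x) = fun x => ∑ k ∈ range m, (P A)^[t] (f k) x := by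
  induction m with
  | zero =>
    simp only [Finset.range_zero, Finset.sum_empty]
    exact iter_zero A t
  | succ m ih =>
    have h1 : (fun x => ∑ k ∈ range (m + 1), f k x) = (fun x => ∑ k ∈ range m, f k x) + f m := by
      funext x
      rw [Finset.sum_range_succ]
      rfl
    rw [h1, iter_add, ih]
    funext x
    rw [Finset.sum_range_succ]
    rfl

theorem iter_le (hn : 1 ≤ n) {A : Set (X n)} {f : X n → ℝ} {B : ℝ} (hf : ∀ x, f x ≤ B) (t : ℕ) :
    ∀ x, (P A)^[t] f x ≤ B := by
  induction t with
  | zero => exact hf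
  | succ t ih =>
    intro x
    rw [Function.iterate_succ_apply']
    exact P_le hn ih x

theorem avg_iter (hn : 1 ≤ n) {A : Set (X n)} (hA : IsUpperSet A) (f : X n → ℝ) (t : ℕ) :
    avg ((P A)^[t] f) = avg f := by
  induction t with
  | zero => rfl
  | succ t ih =>
    rw [Function.iterate_succ_apply', ← ih]
    unfold avg
    rw [P_sum hn hA]

end LevelsAux

open LevelsAux in
theorem levels (hn : 1 ≤ n) {A : Set (X n)} (hA : IsUpperSet A) {c : ℝ} (hc : 0 < c) (hc1 : c ≤ 1)
    (hcA : c ≤ prob A) {F ν : X n → ℝ} (hp : Pop A F ν) (hm1 : avg F ≤ 1) (hν : nrm ν ≤ 1)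
    (K W : ℕ) (H : ℕ → ℝ) (hH : ∀ k, H (k + 1) = H k / 2)
    (hF : ∀ x, F x ≤ Real.exp (H 0))
    (hHK : 256 / c ≤ H K) (hHW : Real.log (4 * (W + 1)) ≤ H K)
    {L : ℕ} (hL1 : 46080000 / c ^ 3 < L) (hL2 : Real.exp (-(L / 4000 : ℝ)) ≤ c ^ 2 / 1024) :
    ∃ fK rest : X n → ℝ, (∀ x, 0 ≤ fK x) ∧ (∀ x, 0 ≤ rest x) ∧ (∀ x, x ∉ A → fK x = 0) ∧
      (∀ x, (P A)^[W * (2 * L * n)] F x = fK x + rest x) ∧
      (∀ x, fK x ≤ (W + 1) * Real.exp (H K)) ∧
      avg rest ≤ 2 ^ (K + 1) * (1 - c / 16) ^ W := by
  -- the heights
  have hH' : ∀ k, H k = H 0 / 2 ^ k := by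
    intro k
    induction k with
    | zero => simp
    | succ k ih =>
      rw [hH k, ih, pow_succ]
      field_simp
  have hHKpos : 0 < H K := lt_of_lt_of_le (by positivity) hHK
  have hH0 : 0 < H 0 := by
    have h1 := hH' K
    have h2 : H 0 = H K * 2 ^ K := by
      rw [h1]
      field_simp
    rw [h2]
    positivity
  have hHanti : ∀ k k', k ≤ k' → H k' ≤ H k := by
    intro k k' hkk
    rw [hH' k, hH' k']
    exact div_le_div_of_nonneg_left hH0.le (by positivity)
      (pow_le_pow_right₀ (by norm_num) hkk)
  have hc16 : 0 ≤ 1 - c / 16 := by linarith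
  -- the invariant
  have main : ∀ j : ℕ, j ≤ W → ∃ f ν : ℕ → X n → ℝ, (∀ k, Pop A (f k) (ν k)) ∧
      (∀ k ≤ K, ∀ x, f k x ≤ (j + 1) * Real.exp (H k)) ∧
      (∀ x, (P A)^[j * (2 * L * n)] F x = ∑ k ∈ range (K + 1), f k x) ∧
      ∑ k ∈ range K, 2 ^ (K - k) * (avg (f k) + c / 32 * nrm (ν k)) ≤
        2 ^ (K + 1) * (1 - c / 16) ^ j := by
    intro j
    induction j with
    | zero =>
      intro _
      refine ⟨fun k => if k = 0 then F else fun _ => 0, fun k => if k = 0 then ν else fun _ => 0,
        ?_, ?_, ?_, ?_⟩
      · intro k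
        by_cases hk : k = 0
        · simp only [hk, if_true]
          exact hp
        · simp only [hk, if_false]
          exact Pop.zero A
      · intro k _ x
        by_cases hk : k = 0
        · simp only [hk, if_true]
          have := hF x
          simpa using this
        · simp only [hk, if_false]
          positivity
      · intro x
        rw [Nat.zero_mul, Function.iterate_zero, id_eq, Finset.sum_range_succ']
        simp
      · rcases Nat.eq_zero_or_pos K with hK | hK
        · subst hK
          simp
        · obtain ⟨K', rfl⟩ : ∃ K', K = K' + 1 := ⟨K - 1, by omega⟩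
          rw [Finset.sum_range_succ']
          have h0 : ∀ k ∈ range K', (2 : ℝ) ^ (K' + 1 - (k + 1)) *
              (avg ((fun k => if k = 0 then F else fun _ => 0) (k + 1)) +
                c / 32 * nrm ((fun k => if k = 0 then ν else fun _ => 0) (k + 1))) = 0 := by
            intro k _
            simp [avg_zero, nrm_zero]
          rw [Finset.sum_eq_zero h0]
          simp only [if_true, Nat.sub_zero, pow_zero, mul_one, zero_add]
          have h1 : avg F + c / 32 * nrm ν ≤ 2 := by
            have : c / 32 * nrm ν ≤ 1 / 32 * 1 :=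
              mul_le_mul (by linarith) hν (nrm_nonneg _) (by norm_num)
            linarith
          calc (2 : ℝ) ^ (K' + 1) * (avg F + c / 32 * nrm ν) ≤ 2 ^ (K' + 1) * 2 :=
                mul_le_mul_of_nonneg_left h1 (by positivity)
            _ = 2 ^ (K' + 1 + 1) := by ring
    | succ j ih =>
      intro hj
      obtain ⟨f, μ, hpop, hbd, hsum, hS⟩ := ih (by omega)
      -- total mass
      have havg : ∑ k ∈ range (K + 1), avg (f k) = avg F := by
        rw [← avg_sum, ← avg_iter hn hA F (j * (2 * L * n))]
        congr 1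
        funext x
        rw [hsum x]
      have hfk1 : ∀ k ∈ range (K + 1), avg (f k) ≤ 1 := by
        intro k hk
        have h1 : avg (f k) ≤ ∑ k ∈ range (K + 1), avg (f k) :=
          Finset.single_le_sum (f := fun k => avg (f k))
            (fun i _ => avg_nonneg (hpop i).nonneg.1) hk
        linarith
      -- one window
      have step : ∀ k, ∃ fa fb νa νb : X n → ℝ, Pop A fa νa ∧ Pop A fb νb ∧
          (∀ x, (P A)^[2 * L * n] (f k) x = fa x + fb x) ∧
          (k < K → (∀ x, fa x ≤ Real.exp (H (k + 1))) ∧
            2 * (avg fb + c / 32 * nrm νb) + (avg fa + c / 32 * nrm νa) ≤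
              2 * (1 - c / 16) * (avg (f k) + c / 32 * nrm (μ k))) ∧
          (k ≤ K → ∀ x, fb x ≤ (j + 1) * Real.exp (H k)) ∧
          (¬ k < K → ∀ x, fa x = 0) := by
        intro k
        by_cases hk : k < K
        · have hHk : H K ≤ H (k + 1) := hHanti (k + 1) K hk
          have hHk0 : 0 < H (k + 1) := lt_of_lt_of_le hHKpos hHk
          have hHk2 : H k = 2 * H (k + 1) := by
            rw [hH k]
            ring
          have hj1 : (1 : ℝ) ≤ (j : ℝ) + 1 := by
            have : (0 : ℝ) ≤ j := Nat.cast_nonneg j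
            linarith
          have hjW : (j : ℝ) + 1 ≤ (W : ℝ) + 1 := by
            have : (j : ℝ) ≤ W := by
              exact_mod_cast (by omega : j ≤ W)
            linarith
          obtain ⟨fa, fb, νa, νb, h1, h2, h3, h4, h5, h6⟩ :=
            level_step hn hA hc hc1 hcA (hpop k) (hfk1 k (by simp; omega))
              (B := (j + 1) * Real.exp (H k)) (b := Real.exp (H (k + 1)))
              (hbd k hk.le) (Real.exp_pos _)
              (by rw [Real.log_exp]; exact hHK.trans hHk)
              (by
                have e1 : Real.exp (H (k + 1)) ≤ Real.exp (H k) :=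
                  Real.exp_le_exp.2 (by linarith)
                have e2 : Real.exp (H k) ≤ ((j : ℝ) + 1) * Real.exp (H k) :=
                  le_mul_of_one_le_left (Real.exp_pos _).le hj1
                have e3 : 0 < ((j : ℝ) + 1) * Real.exp (H k) := by positivity
                linarith)
              (by
                have e1 : 4 * (((j : ℝ) + 1) * Real.exp (H k)) / Real.exp (H (k + 1)) =
                    (4 * ((j : ℝ) + 1)) * Real.exp (H (k + 1)) := by
                  rw [hHk2, two_mul, Real.exp_add]
                  field_simp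
                rw [e1, Real.log_mul (by positivity) (Real.exp_pos _).ne', Real.log_exp]
                have e2 : Real.log (4 * ((j : ℝ) + 1)) ≤ Real.log (4 * ((W : ℝ) + 1)) :=
                  Real.log_le_log (by positivity) (by linarith)
                linarith) hL1 hL2
          exact ⟨fa, fb, νa, νb, h1, h2, h3, fun _ => ⟨h4, h6⟩, fun _ => h5,
            fun h => absurd hk h⟩
        · refine ⟨fun _ => 0, (P A)^[2 * L * n] (f k), fun _ => 0,
            (P Set.univ)^[2 * L * n] (μ k), Pop.zero A, Pop.step hA (hpop k) _, ?_, ?_, ?_, ?_⟩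
          · intro x
            simp
          · intro h
            exact absurd h hk
          · intro hkK
            exact iter_le hn (hbd k hkK) _
          · intro _ x
            rfl
      choose fa fb νa νb s1 s2 s3 s4 s5 s6 using step
      refine ⟨fun k => Nat.casesOn k (fb 0) (fun k' => fb (k' + 1) + fa k'),
        fun k => Nat.casesOn k (νb 0) (fun k' => νb (k' + 1) + νa k'), ?_, ?_, ?_, ?_⟩
      · intro k
        cases k with
        | zero => exact s2 0
        | succ k => exact Pop.add (s2 (k + 1)) (s1 k)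
      · intro k hk x
        have hexp : 0 < Real.exp (H k) := Real.exp_pos _
        cases k with
        | zero =>
          have h1 := s5 0 hk x
          change fb 0 x ≤ _
          push_cast
          linarith
        | succ k =>
          have h1 := s5 (k + 1) hk x
          have h2 := (s4 k (by omega)).1 x
          change fb (k + 1) x + fa k x ≤ _
          push_cast
          linarith
      · intro x
        have e0 : (j + 1) * (2 * L * n) = (2 * L * n) + j * (2 * L * n) := by ring
        have e1 : (P A)^[j * (2 * L * n)] F = fun x => ∑ k ∈ range (K + 1), f k x :=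
          funext hsum
        rw [e0, Function.iterate_add_apply, e1, iter_sum, Finset.sum_range_succ' (n := K)]
        change ∑ k ∈ range (K + 1), (P A)^[2 * L * n] (f k) x =
          ∑ k ∈ range K, (fb (k + 1) x + fa k x) + fb 0 x
        rw [Finset.sum_add_distrib]
        have e2 : ∑ k ∈ range (K + 1), (P A)^[2 * L * n] (f k) x =
            ∑ k ∈ range (K + 1), (fa k x + fb k x) :=
          Finset.sum_congr rfl fun k _ => s3 k x
        rw [e2, Finset.sum_add_distrib, Finset.sum_range_succ (fun k => fa k x) K,
          Finset.sum_range_succ' (fun k => fb k x) K, s6 K (lt_irrefl K) x]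
        ring
      · -- the potential
        have hV : ∀ k, 0 ≤ avg (fa k) + c / 32 * nrm (νa k) := by
          intro k
          have e1 := avg_nonneg (s1 k).nonneg.1
          have e2 := nrm_nonneg (νa k)
          positivity
        set Ub : ℕ → ℝ := fun k => avg (fb k) + c / 32 * nrm (νb k) with hUb
        set Ua : ℕ → ℝ := fun k => avg (fa k) + c / 32 * nrm (νa k) with hUa
        have e1 : ∑ k ∈ range K, (2 : ℝ) ^ (K - k) *
            (avg ((fun k => Nat.casesOn k (fb 0) (fun k' => fb (k' + 1) + fa k') :
                ℕ → X n → ℝ) k) +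
              c / 32 * nrm ((fun k => Nat.casesOn k (νb 0) (fun k' => νb (k' + 1) + νa k') :
                ℕ → X n → ℝ) k)) ≤
            ∑ k ∈ range K, (2 : ℝ) ^ (K - k) * Ub k +
              ∑ k ∈ range K, (2 : ℝ) ^ (K - 1 - k) * Ua k := by
          rcases Nat.eq_zero_or_pos K with hK | hK
          · subst hK
            simp
          · obtain ⟨K', rfl⟩ : ∃ K', K = K' + 1 := ⟨K - 1, by omega⟩
            rw [Finset.sum_range_succ' (n := K'), Finset.sum_range_succ' (n := K'),
              Finset.sum_range_succ (n := K')]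
            have e2 : ∑ k ∈ range K', (2 : ℝ) ^ (K' + 1 - (k + 1)) *
                (avg ((fun k => Nat.casesOn k (fb 0) (fun k' => fb (k' + 1) + fa k') :
                  ℕ → X n → ℝ) (k + 1)) +
                c / 32 * nrm ((fun k => Nat.casesOn k (νb 0) (fun k' => νb (k' + 1) + νa k') :
                  ℕ → X n → ℝ) (k + 1))) ≤
                ∑ k ∈ range K', (2 : ℝ) ^ (K' + 1 - (k + 1)) * Ub (k + 1) +
                  ∑ k ∈ range K', (2 : ℝ) ^ (K' + 1 - 1 - k) * Ua k := by
              rw [← Finset.sum_add_distrib]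
              apply Finset.sum_le_sum
              intro k _
              have e3 : K' + 1 - (k + 1) = K' + 1 - 1 - k := by omega
              rw [e3, ← mul_add]
              apply mul_le_mul_of_nonneg_left _ (by positivity)
              simp only [hUb, hUa]
              rw [avg_add]
              have e4 := nrm_add (νb (k + 1)) (νa k)
              have e5 : c / 32 * nrm (νb (k + 1) + νa k) ≤
                  c / 32 * (nrm (νb (k + 1)) + nrm (νa k)) :=
                mul_le_mul_of_nonneg_left e4 (by positivity)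
              linarith
            have e6 : 0 ≤ (2 : ℝ) ^ (K' + 1 - 1 - K') * Ua K' :=
              mul_nonneg (by positivity) (hV K')
            have e7 : (2 : ℝ) ^ (K' + 1 - 0) *
                (avg ((fun k => Nat.casesOn k (fb 0) (fun k' => fb (k' + 1) + fa k') :
                  ℕ → X n → ℝ) 0) +
                c / 32 * nrm ((fun k => Nat.casesOn k (νb 0) (fun k' => νb (k' + 1) + νa k') :
                  ℕ → X n → ℝ) 0)) = (2 : ℝ) ^ (K' + 1 - 0) * Ub 0 := rfl
            rw [e7]
            linarith
        have e8 : ∑ k ∈ range K, (2 : ℝ) ^ (K - k) * Ub k +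
              ∑ k ∈ range K, (2 : ℝ) ^ (K - 1 - k) * Ua k ≤
            (1 - c / 16) * ∑ k ∈ range K, 2 ^ (K - k) * (avg (f k) + c / 32 * nrm (μ k)) := by
          rw [← Finset.sum_add_distrib, Finset.mul_sum]
          apply Finset.sum_le_sum
          intro k hk
          rw [Finset.mem_range] at hk
          have e9 : (2 : ℝ) ^ (K - k) = 2 ^ (K - 1 - k) * 2 := by
            rw [← pow_succ]
            congr 1
            omega
          have e10 := (s4 k hk).2
          have e11 : (2 : ℝ) ^ (K - 1 - k) * (2 * Ub k + Ua k) ≤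
              2 ^ (K - 1 - k) * (2 * (1 - c / 16) * (avg (f k) + c / 32 * nrm (μ k))) :=
            mul_le_mul_of_nonneg_left e10 (by positivity)
          rw [e9]
          linarith
        calc _ ≤ _ := e1
          _ ≤ _ := e8
          _ ≤ (1 - c / 16) * (2 ^ (K + 1) * (1 - c / 16) ^ j) :=
            mul_le_mul_of_nonneg_left hS hc16
          _ = 2 ^ (K + 1) * (1 - c / 16) ^ (j + 1) := by
            rw [pow_succ (1 - c / 16) j]
            ring
  obtain ⟨f, μ, hpop, hbd, hsum, hS⟩ := main W le_rfl
  refine ⟨f K, fun x => ∑ k ∈ range K, f k x, (hpop K).nonneg.1, ?_, (hpop K).supp, ?_,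
    hbd K le_rfl, ?_⟩
  · intro x
    exact Finset.sum_nonneg fun k _ => (hpop k).nonneg.1 x
  · intro x
    rw [hsum x, Finset.sum_range_succ]
    ring
  · rw [avg_sum]
    refine le_trans (Finset.sum_le_sum ?_) hS
    intro k _
    have e1 := avg_nonneg (hpop k).nonneg.1
    have e2 := nrm_nonneg (μ k)
    have e3 : 0 ≤ c / 32 * nrm (μ k) := by positivity
    have e4 : (1 : ℝ) ≤ 2 ^ (K - k) := one_le_pow₀ (by norm_num)
    calc avg (f k) ≤ avg (f k) + c / 32 * nrm (μ k) := by linarith
      _ = 1 * (avg (f k) + c / 32 * nrm (μ k)) := by ring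
      _ ≤ 2 ^ (K - k) * (avg (f k) + c / 32 * nrm (μ k)) :=
        mul_le_mul_of_nonneg_right e4 (by linarith)

end Pool.Agent.MP_291ce2_pr
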