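import Pool.Agent.MP_291ce2_pr.Final2

set_option autoImplicit false

namespace Pool.Agent.MP_291ce2_pr

open Finset
open scoped Classical

theorem exp_neg_three : Real.exp (-3) ≤ 1 / 16 := by
  rw [Real.exp_neg]
  have h : (16:ℝ) ≤ Real.exp 3 := by
    have h1 : (2.7:ℝ) ≤ Real.exp 1 := by
      have := Real.exp_one_gt_d9; linarith
    have h2 : Real.exp 3 = Real.exp 1 ^ 3 := by
      rw [← Real.exp_nat_mul]; norm_num
    rw [h2]
    nlinarith [pow_le_pow_left₀ (by norm_num : (0:ℝ) ≤ 2.7) h1 3]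
  rw [one_div]
  exact inv_anti₀ (by norm_num) h

/-- the parameters of the multi-scale argument -/
theorem exists_levels {c : ℝ} (hc : 0 < c) (hc1 : c ≤ 1) {L : ℕ} (hL1 : 46080000 / c ^ 3 < L)
    (hL2 : Real.exp (-(L / 4000 : ℝ)) ≤ c ^ 2 / 1024) {n : ℕ} (hn : 2 ≤ n) {h : ℝ}
    (hh : h = (256 / (c * Real.log 2) + Real.log (384 / c) / Real.log 2 + 1) * Real.log n) :
    ∃ T₁ : ℕ, (T₁ : ℝ) ≤ (192 / c + 2) * Real.log n * (2 * L * n) ∧
      ∀ A : Set (X n), IsUpperSet A → c ≤ prob A → ∀ F ν : X n → ℝ, Pop A F ν → avg F ≤ 1 →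
        nrm ν ≤ 1 →
        ∃ fK rest : X n → ℝ, (∀ x, 0 ≤ fK x) ∧ (∀ x, 0 ≤ rest x) ∧ (∀ x, x ∉ A → fK x = 0) ∧
          (∀ x, (P A)^[T₁] F x = fK x + rest x) ∧ (∀ x, fK x ≤ Real.exp (3 * h)) ∧
          avg rest ≤ 1 / 16 := by
  have hl2 : 0 < Real.log 2 := Real.log_pos (by norm_num)
  have hl2' : (1:ℝ) / 2 < Real.log 2 := by have := Real.log_two_gt_d9; linarith
  have hl2'' : Real.log 2 < 1 := by have := Real.log_two_lt_d9; linarith
  have hn' : (2:ℝ) ≤ n := by exact_mod_cast hn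
  have hln : Real.log 2 ≤ Real.log n := Real.log_le_log (by norm_num) hn'
  set l := Real.log n with hl
  have hlpos : 0 < l := lt_of_lt_of_le hl2 hln
  have hl1 : 1 ≤ l / Real.log 2 := by rw [le_div_iff₀ hl2]; linarith
  have hlog384 : 0 ≤ Real.log (384 / c) := Real.log_nonneg (by rw [le_div_iff₀ hc]; linarith)
  have hh256 : 256 / c ≤ h := by
    have e : h = 256 / c * (l / Real.log 2) + (Real.log (384 / c) / Real.log 2 + 1) * l := by
      rw [hh]; field_simp; ring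
    have h1 : 256 / c ≤ 256 / c * (l / Real.log 2) := le_mul_of_one_le_right (by positivity) hl1
    have h2 : 0 ≤ (Real.log (384 / c) / Real.log 2 + 1) * l := by positivity
    linarith
  have h256 : 256 ≤ 256 / c := by rw [le_div_iff₀ hc]; nlinarith
  have hhpos : 0 < h := by linarith
  have hh384 : Real.log (384 / c) + l ≤ h := by
    have e : h = 256 / (c * Real.log 2) * l + (Real.log (384 / c) * (l / Real.log 2) + l) := by
      rw [hh]; ring
    have h1 : Real.log (384 / c) ≤ Real.log (384 / c) * (l / Real.log 2) :=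
      le_mul_of_one_le_right hlog384 hl1
    have h2 : 0 ≤ 256 / (c * Real.log 2) * l := by positivity
    linarith
  set H₀ : ℝ := n * Real.log 2 with hH₀
  have hpow : (2:ℝ) ^ n = Real.exp H₀ := by
    rw [hH₀, mul_comm, Real.exp_mul, Real.exp_log (by norm_num)]
    simp
  -- sup bound from the mass
  have hsup : ∀ F : X n → ℝ, (∀ x, 0 ≤ F x) → avg F ≤ 1 → ∀ x, F x ≤ Real.exp H₀ := by
    intro F hF h1 x
    unfold avg at h1
    rw [div_le_one (by positivity)] at h1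
    rw [← hpow]
    exact (Finset.single_le_sum (fun y _ => hF y) (Finset.mem_univ x)).trans h1
  by_cases hcase : H₀ < h
  · refine ⟨0, by simp; positivity, ?_⟩
    intro A hA hcA F ν hp hF1 hν
    refine ⟨F, fun _ => 0, hp.nonneg.1, fun _ => le_rfl, hp.supp, fun x => by simp, fun x => ?_, ?_⟩
    · refine (hsup F hp.nonneg.1 hF1 x).trans (Real.exp_le_exp.2 (by linarith))
    · unfold avg; simp
  · replace hcase := not_lt.1 hcase
    set K := Nat.log 2 ⌊H₀ / h⌋₊ with hK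
    have hfl : 1 ≤ ⌊H₀ / h⌋₊ := by
      rw [Nat.one_le_floor_iff, le_div_iff₀ hhpos]; linarith
    have hK1 : (2:ℝ) ^ K ≤ H₀ / h := by
      have : 2 ^ K ≤ ⌊H₀ / h⌋₊ := Nat.pow_log_le_self 2 (by omega)
      calc (2:ℝ) ^ K = ((2 ^ K : ℕ) : ℝ) := by push_cast; rfl
        _ ≤ (⌊H₀ / h⌋₊ : ℝ) := by exact_mod_cast this
        _ ≤ H₀ / h := Nat.floor_le (by positivity)
    have hK2 : H₀ / h < 2 ^ (K + 1) := by
      have h1 : ⌊H₀ / h⌋₊ < 2 ^ (K + 1) := Nat.lt_pow_succ_log_self (by norm_num) _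
      have h2 : H₀ / h < ⌊H₀ / h⌋₊ + 1 := Nat.lt_floor_add_one _
      have h3 : (⌊H₀ / h⌋₊ : ℝ) + 1 ≤ 2 ^ (K + 1) := by exact_mod_cast h1
      linarith
    have hKn : (2:ℝ) ^ K ≤ n := by
      refine hK1.trans ?_
      rw [div_le_iff₀ hhpos]
      have : (n:ℝ) * Real.log 2 ≤ n * h := by
        apply mul_le_mul_of_nonneg_left _ (by linarith)
        linarith
      linarith
    have hKl : (K:ℝ) ≤ 2 * l := by
      have h1 : Real.log ((2:ℝ) ^ K) ≤ l := Real.log_le_log (by positivity) hKn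
      rw [Real.log_pow] at h1
      have h2 : (K:ℝ) * (1/2) ≤ K * Real.log 2 := by
        apply mul_le_mul_of_nonneg_left hl2'.le (Nat.cast_nonneg K)
      linarith
    set W := ⌈16 / c * (K + 5)⌉₊ with hW
    have hW1 : 16 / c * (K + 5) ≤ W := Nat.le_ceil _
    have hW2 : (W:ℝ) ≤ 16 / c * (K + 5) + 1 := (Nat.ceil_lt_add_one (by positivity)).le
    refine ⟨W * (2 * L * n), ?_, ?_⟩
    · push_cast
      apply mul_le_mul_of_nonneg_right _ (by positivity)
      have h16 : 16 ≤ 16 / c := by rw [le_div_iff₀ hc]; nlinarith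
      have h1 : 16 / c * (K + 5) ≤ 16 / c * (12 * l) := by
        apply mul_le_mul_of_nonneg_left _ (by positivity)
        linarith
      calc (W:ℝ) ≤ 16 / c * (12 * l) + 2 * l := by linarith
        _ = (192 / c + 2) * l := by ring
    · intro A hA hcA F ν hp hF1 hν
      have hHK : h ≤ H₀ / 2 ^ K := by
        rw [le_div_iff₀ (by positivity)]
        rw [le_div_iff₀ hhpos] at hK1
        linarith
      have hHK' : H₀ / 2 ^ K ≤ 2 * h := by
        rw [div_le_iff₀ (by positivity)]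
        rw [div_lt_iff₀ hhpos, pow_succ] at hK2
        linarith
      have hlogW : Real.log (4 * (W + 1)) ≤ h := by
        refine le_trans ?_ hh384
        rw [← Real.log_mul (by positivity) (by positivity)]
        apply Real.log_le_log (by positivity)
        have h1 : (K:ℝ) + 6 ≤ 6 * n := by
          have h2 : K + 1 ≤ 2 ^ K := K.lt_two_pow_self
          have h3 : (K:ℝ) + 1 ≤ 2 ^ K := by exact_mod_cast h2
          have h4 : (0:ℝ) ≤ K := Nat.cast_nonneg K
          linarith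
        have h16 : 16 ≤ 16 / c := by rw [le_div_iff₀ hc]; nlinarith
        have h5 : 16 / c * (K + 6) ≤ 16 / c * (6 * n) :=
          mul_le_mul_of_nonneg_left h1 (by positivity)
        have e : 384 / c * (n:ℝ) = 4 * (16 / c * (6 * n)) := by ring
        rw [e]
        have e2 : 16 / c * ((K:ℝ) + 6) = 16 / c * (K + 5) + 16 / c := by ring
        linarith
      obtain ⟨fK, rest, h1, h2, h3, h4, h5, h6⟩ := levels (by omega) hA hc hc1 hcA hp hF1 hν K W
        (fun k => H₀ / 2 ^ k) (fun k => by rw [pow_succ]; field_simp)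
        (fun x => by simpa using hsup F hp.nonneg.1 hF1 x)
        (by simpa using hh256.trans hHK) (by simpa using hlogW.trans hHK) hL1 hL2
      refine ⟨fK, rest, h1, h2, h3, h4, fun x => (h5 x).trans ?_, h6.trans ?_⟩
      · have e1 : (W:ℝ) + 1 ≤ Real.exp h := by
          have h7 : (0:ℝ) < 4 * (W + 1) := by positivity
          have := (Real.log_le_iff_le_exp h7).1 hlogW
          have h8 : (0:ℝ) ≤ W := Nat.cast_nonneg W
          linarith
        calc ((W:ℝ) + 1) * Real.exp (H₀ / 2 ^ K) ≤ Real.exp h * Real.exp (2 * h) := by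
              apply mul_le_mul e1 (Real.exp_le_exp.2 hHK') (Real.exp_pos _).le (Real.exp_pos _).le
          _ = Real.exp (3 * h) := by rw [← Real.exp_add]; ring_nf
      · have h7 : (1 - c / 16) ^ W ≤ Real.exp (-((K:ℝ) + 5)) := by
          have h8 : 1 - c / 16 ≤ Real.exp (-(c / 16)) := by
            have := Real.add_one_le_exp (-(c / 16)); linarith
          calc (1 - c / 16) ^ W ≤ Real.exp (-(c / 16)) ^ W :=
                pow_le_pow_left₀ (by linarith) h8 W
            _ = Real.exp (W * (-(c / 16))) := by rw [← Real.exp_nat_mul]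
            _ ≤ Real.exp (-((K:ℝ) + 5)) := by
                apply Real.exp_le_exp.2
                have : c / 16 * (16 / c * ((K:ℝ) + 5)) ≤ c / 16 * W :=
                  mul_le_mul_of_nonneg_left hW1 (by positivity)
                have e : c / 16 * (16 / c * ((K:ℝ) + 5)) = (K:ℝ) + 5 := by field_simp
                linarith
        have h9 : (2:ℝ) ^ (K + 1) ≤ Real.exp ((K:ℝ) + 1) := by
          have : (2:ℝ) ≤ Real.exp 1 := by have := Real.add_one_le_exp (1:ℝ); linarith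
          calc (2:ℝ) ^ (K + 1) ≤ Real.exp 1 ^ (K + 1) := pow_le_pow_left₀ (by norm_num) this _
            _ = Real.exp ((K:ℝ) + 1) := by rw [← Real.exp_nat_mul]; push_cast; ring_nf
        calc (2:ℝ) ^ (K + 1) * (1 - c / 16) ^ W ≤ Real.exp ((K:ℝ) + 1) * Real.exp (-((K:ℝ) + 5)) :=
              mul_le_mul h9 h7 (pow_nonneg (by linarith) _) (Real.exp_pos _).le
          _ = Real.exp (-4) := by rw [← Real.exp_add]; ring_nf
          _ ≤ Real.exp (-3) := Real.exp_le_exp.2 (by norm_num)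
          _ ≤ 1 / 16 := exp_neg_three

/-- the censored walk mixes in `O(n log n)` steps -/
theorem exists_time {c : ℝ} (hc : 0 < c) (hc1 : c ≤ 1) :
    ∃ C : ℝ, 0 < C ∧ ∀ n : ℕ, 2 ≤ n → ∃ T : ℕ, (T : ℝ) ≤ C * n * Real.log n ∧
      ∀ A : Set (X n), IsUpperSet A → c ≤ prob A → ∀ x ∈ A, tv A x T ≤ 1 / 4 := by
  set L : ℕ := ⌈46080000 / c ^ 3⌉₊ + ⌈4000 * Real.log (1024 / c ^ 2)⌉₊ + 1 with hL
  have hL1 : 46080000 / c ^ 3 < L := by
    have : 46080000 / c ^ 3 ≤ (⌈46080000 / c ^ 3⌉₊ : ℝ) := Nat.le_ceil _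
    rw [hL]; push_cast
    have h2 : (0:ℝ) ≤ (⌈4000 * Real.log (1024 / c ^ 2)⌉₊ : ℝ) := Nat.cast_nonneg _
    linarith
  have hL2 : Real.exp (-(L / 4000 : ℝ)) ≤ c ^ 2 / 1024 := by
    have h1 : 4000 * Real.log (1024 / c ^ 2) ≤ L := by
      have : 4000 * Real.log (1024 / c ^ 2) ≤ (⌈4000 * Real.log (1024 / c ^ 2)⌉₊ : ℝ) :=
        Nat.le_ceil _
      rw [hL]; push_cast
      have h2 : (0:ℝ) ≤ (⌈46080000 / c ^ 3⌉₊ : ℝ) := Nat.cast_nonneg _
      linarith
    calc Real.exp (-(L / 4000 : ℝ)) ≤ Real.exp (-Real.log (1024 / c ^ 2)) :=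
          Real.exp_le_exp.2 (by linarith)
      _ = c ^ 2 / 1024 := by rw [Real.exp_neg, Real.exp_log (by positivity), inv_div]
  set C₀ : ℝ := 256 / (c * Real.log 2) + Real.log (384 / c) / Real.log 2 + 1 with hC₀
  have hl2 : 0 < Real.log 2 := Real.log_pos (by norm_num)
  have hl2' : (1:ℝ) / 2 < Real.log 2 := by have := Real.log_two_gt_d9; linarith
  have hlog384 : 0 ≤ Real.log (384 / c) := Real.log_nonneg (by rw [le_div_iff₀ hc]; linarith)
  have hC₀pos : 0 < C₀ := by positivity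
  refine ⟨9 + (192 / c + 2) * (2 * L) + 4000 / c ^ 2 * (3 * C₀ + 6), by positivity, ?_⟩
  intro n hn
  have hn1 : 1 ≤ n := by omega
  have hn' : (2:ℝ) ≤ n := by exact_mod_cast hn
  have hnpos : (0:ℝ) < n := by linarith
  have hln : Real.log 2 ≤ Real.log n := Real.log_le_log (by norm_num) hn'
  set l := Real.log n with hl
  have hlpos : 0 < l := lt_of_lt_of_le hl2 hln
  set h : ℝ := C₀ * l with hh
  obtain ⟨T₁, hT₁, hlev⟩ := exists_levels hc hc1 hL1 hL2 hn (h := h) (by rw [hh, hC₀])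
  set T₀ := ⌈n * (l + 3)⌉₊ with hT₀
  set T₂ := ⌈4000 * n / c ^ 2 * (3 * h + 3)⌉₊ with hT₂
  have h1l : 1 ≤ 2 * l := by linarith
  have h1nl : 1 ≤ n * l := by nlinarith
  refine ⟨T₂ + (T₁ + T₀), ?_, ?_⟩
  · have a0 : (T₀:ℝ) ≤ n * (l + 3) + 1 := (Nat.ceil_lt_add_one (by positivity)).le
    have a2 : (T₂:ℝ) ≤ 4000 * n / c ^ 2 * (3 * h + 3) + 1 :=
      (Nat.ceil_lt_add_one (by positivity)).le
    have b0 : (T₀:ℝ) ≤ 8 * (n * l) := by nlinarith
    have b2 : (T₂:ℝ) ≤ (4000 / c ^ 2 * (3 * C₀ + 6)) * (n * l) + n * l := by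
      have e : 4000 * n / c ^ 2 * (3 * h + 3) ≤ (4000 / c ^ 2 * (3 * C₀ + 6)) * (n * l) := by
        have e1 : 4000 * n / c ^ 2 * (3 * h + 3) = 4000 / c ^ 2 * (n * (3 * h + 3)) := by ring
        have e2 : (4000 / c ^ 2 * (3 * C₀ + 6)) * (n * l) =
          4000 / c ^ 2 * (n * (3 * h + 6 * l)) := by rw [hh]; ring
        rw [e1, e2]
        apply mul_le_mul_of_nonneg_left _ (by positivity)
        apply mul_le_mul_of_nonneg_left _ hnpos.le
        linarith
      linarith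
    push_cast
    have e3 : (9 + (192 / c + 2) * (2 * L) + 4000 / c ^ 2 * (3 * C₀ + 6)) * n * l =
      9 * (n * l) + (192 / c + 2) * l * (2 * L * n) + (4000 / c ^ 2 * (3 * C₀ + 6)) * (n * l) := by
      ring
    rw [e3]
    linarith
  · intro A hA hcA x hx
    obtain ⟨F, ν, hp, hν, hF, hFm⟩ := initial hn1 hA hx T₀
    have hF0 := hp.nonneg.1
    have hdir : avg (dir x) = 1 := by
      unfold avg dir
      rw [Finset.sum_ite_eq' Finset.univ x]
      simp
    have hF1 : avg F ≤ 1 := by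
      have : avg F ≤ avg ((P A)^[T₀] (dir x)) := avg_mono hF
      rwa [avg_iter hn1 hA, hdir] at this
    have hν1 : nrm ν ≤ 1 := nrm_le_of_bound hp.nonneg.2 hν zero_le_one
    obtain ⟨fK, rest, g1, g2, g3, g4, g5, g6⟩ := hlev A hA hcA F ν hp hF1 hν1
    refine tv_of_phases hn1 hA hc hc1 hcA hx hF hF0 ?_ g1 g2 g3 g4 g5 (Real.exp_pos _).le g6 ?_
    · -- coupon collector
      have k1 : (1 - 1 / (n:ℝ)) ^ T₀ ≤ Real.exp (-(l + 3)) := by
        have k2 : 1 - 1 / (n:ℝ) ≤ Real.exp (-(1 / n)) := by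
          have := Real.add_one_le_exp (-(1 / (n:ℝ))); linarith
        have k3 : 0 ≤ 1 - 1 / (n:ℝ) := by
          rw [sub_nonneg, div_le_one hnpos]; linarith
        calc (1 - 1 / (n:ℝ)) ^ T₀ ≤ Real.exp (-(1 / n)) ^ T₀ := pow_le_pow_left₀ k3 k2 _
          _ = Real.exp (T₀ * (-(1 / n))) := by rw [← Real.exp_nat_mul]
          _ ≤ Real.exp (-(l + 3)) := by
              apply Real.exp_le_exp.2
              have k4 : n * (l + 3) ≤ T₀ := Nat.le_ceil _
              have k5 : l + 3 ≤ T₀ * (1 / n) := by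
                rw [mul_one_div, le_div_iff₀ hnpos]; linarith
              linarith
      have k6 : (n:ℝ) * Real.exp (-(l + 3)) = Real.exp (-3) := by
        have : (n:ℝ) = Real.exp l := (Real.exp_log hnpos).symm
        rw [this, ← Real.exp_add]; ring_nf
      have k7 : (n:ℝ) * (1 - 1 / (n:ℝ)) ^ T₀ ≤ 1 / 16 :=
        (mul_le_mul_of_nonneg_left k1 hnpos.le).trans (k6.le.trans exp_neg_three)
      linarith
    · have k1 : 4000 * n / c ^ 2 * (3 * h + 3) ≤ T₂ := Nat.le_ceil _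
      have k2 : 3 * h + 3 ≤ c ^ 2 * T₂ / (4000 * n) := by
        rw [le_div_iff₀ (by positivity)]
        have k3 : c ^ 2 * (4000 * n / c ^ 2 * (3 * h + 3)) ≤ c ^ 2 * T₂ :=
          mul_le_mul_of_nonneg_left k1 (by positivity)
        have k4 : c ^ 2 * (4000 * n / c ^ 2 * (3 * h + 3)) = (3 * h + 3) * (4000 * n) := by
          field_simp
        linarith
      rw [← Real.exp_add]
      exact (Real.exp_le_exp.2 (by linarith)).trans exp_neg_three

/-- **Main theorem.** -/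
theorem main_thm : ∀ c : ℝ, 0 < c → ∃ C : ℝ, 0 < C ∧ ∀ n : ℕ, 2 ≤ n → ∀ A : Set (X n),
    IsUpperSet A → c ≤ prob A →
    ∃ t : ℕ, IsLeast {t : ℕ | ∀ x ∈ A, tv A x t ≤ 1 / 4} t ∧ (t : ℝ) ≤ C * n * Real.log n := by
  intro c hc
  have hm0 : 0 < min c 1 := lt_min hc one_pos
  obtain ⟨C, hC, h⟩ := exists_time hm0 (min_le_right c 1)
  refine ⟨C, hC, fun n hn A hA hcA => ?_⟩
  obtain ⟨T, hT, hmix⟩ := h n hn
  have hmem : T ∈ {t : ℕ | ∀ x ∈ A, tv A x t ≤ 1 / 4} :=
    fun x hx => hmix A hA ((min_le_left c 1).trans hcA) x hx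
  have hne : {t : ℕ | ∀ x ∈ A, tv A x t ≤ 1 / 4}.Nonempty := ⟨T, hmem⟩
  refine ⟨sInf {t : ℕ | ∀ x ∈ A, tv A x t ≤ 1 / 4}, ⟨Nat.sInf_mem hne, fun s hs => Nat.sInf_le hs⟩, ?_⟩
  have : sInf {t : ℕ | ∀ x ∈ A, tv A x t ≤ 1 / 4} ≤ T := Nat.sInf_le hmem
  calc ((sInf {t : ℕ | ∀ x ∈ A, tv A x t ≤ 1 / 4} : ℕ) : ℝ) ≤ T := by exact_mod_cast this
    _ ≤ C * n * Real.log n := hT

end Pool.Agent.MP_291ce2_pr
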