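import Pool.Agent.MP_291ce2_pr.Kernel
import Pool.Agent.MP_291ce2_pr.Psi
import Pool.Agent.MP_291ce2_pr.GDeriv

set_option autoImplicit false

/-! The functional inequality on upper sets of the cube. -/

namespace Pool.Agent.MP_291ce2_pr

open Finset
open scoped Classical

variable {n : ℕ}

theorem mainIneq_lower {A : Set (X n)} {g : X n → ℝ} (hg : ∀ x, 0 ≤ g x)
    (hgA : ∀ x, x ∉ A → g x = 0) {t : ℝ} (h0 : 0 ≤ t) (h1 : t ≤ 1) :
    2 * (∑ x : X n, g x ^ 2 * Qf t (ind A) x - ∑ x : X n, g x * Qf t g x) ≤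
      ∑ x : X n, ∑ y : X n, Qk t x y * (ind A x * ind A y * Psi (g x) (g y)) := by
  have e1 : ∑ x : X n, ∑ y : X n, Qk t x y * (g x ^ 2 * ind A y) =
      ∑ x : X n, g x ^ 2 * Qf t (ind A) x := by
    apply sum_congr rfl
    intro x _
    unfold Qf
    rw [mul_sum]
    apply sum_congr rfl
    intro y _
    ring
  have e2 : ∑ x : X n, ∑ y : X n, Qk t x y * (g y ^ 2 * ind A x) =
      ∑ x : X n, g x ^ 2 * Qf t (ind A) x := by
    rw [← e1, sum_comm]
    apply sum_congr rfl
    intro x _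
    apply sum_congr rfl
    intro y _
    rw [Qk_symm]
  have e3 : ∑ x : X n, ∑ y : X n, Qk t x y * (g x * g y) =
      ∑ x : X n, g x * Qf t g x := by
    apply sum_congr rfl
    intro x _
    unfold Qf
    rw [mul_sum]
    apply sum_congr rfl
    intro y _
    ring
  have e4 : 2 * (∑ x : X n, g x ^ 2 * Qf t (ind A) x - ∑ x : X n, g x * Qf t g x) =
      ∑ x : X n, ∑ y : X n, Qk t x y *
        (g x ^ 2 * ind A y + g y ^ 2 * ind A x - 2 * (g x * g y)) := by
    have : ∑ x : X n, ∑ y : X n, Qk t x y *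
        (g x ^ 2 * ind A y + g y ^ 2 * ind A x - 2 * (g x * g y)) =
        ∑ x : X n, ∑ y : X n, Qk t x y * (g x ^ 2 * ind A y)
        + ∑ x : X n, ∑ y : X n, Qk t x y * (g y ^ 2 * ind A x)
        - 2 * ∑ x : X n, ∑ y : X n, Qk t x y * (g x * g y) := by
      rw [mul_sum, ← sum_add_distrib, ← sum_sub_distrib]
      apply sum_congr rfl
      intro x _
      rw [mul_sum, ← sum_add_distrib, ← sum_sub_distrib]
      apply sum_congr rfl
      intro y _
      ring
    rw [this, e1, e2, e3]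
    ring
  rw [e4]
  apply sum_le_sum
  intro x _
  apply sum_le_sum
  intro y _
  apply mul_le_mul_of_nonneg_left _ (Qk_nonneg h0 h1 x y)
  by_cases hx : x ∈ A
  · by_cases hy : y ∈ A
    · have h := chi_le (hg x) (hg y)
      unfold ind Psi
      rw [if_pos hx, if_pos hy]
      linarith
    · unfold ind
      rw [if_neg hy, if_pos hx, hgA y hy]
      simp
  · unfold ind
    rw [if_neg hx, hgA x hx]
    simp

theorem mainIneq_sqrt {s : ℝ} (h0 : 0 < s) (h1 : s < 1 / 2) :
    12 / √(s * (1 - s)) ≤ 17 / √s := by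
  have hs : 0 < √s := Real.sqrt_pos.mpr h0
  have h3 : (12 / 17 : ℝ) * √s ≤ √(s * (1 - s)) := by
    apply Real.le_sqrt_of_sq_le
    rw [mul_pow, Real.sq_sqrt h0.le]
    nlinarith
  have h4 : 0 < √(s * (1 - s)) := lt_of_lt_of_le (by positivity) h3
  rw [div_le_div_iff₀ h4 hs]
  linarith

/-- the functional inequality -/
theorem main_ineq {A : Set (X n)} (hA : IsUpperSet A) {g : X n → ℝ} (hg : ∀ x, 0 ≤ g x)
    (hgA : ∀ x, x ∉ A → g x = 0) {t : ℝ} (h0 : 0 ≤ t) (h1 : t ≤ 1 / 2) :
    ∑ x : X n, g x ^ 2 * Qf t (ind A) x - ∑ x : X n, g x * Qf t g x ≤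
      11 * t * En A g + 17 * √t * √(∑ x : X n, g x ^ 2) * √(En A g) := by
  set E := En A g with hE
  set N := √(∑ x : X n, g x ^ 2) with hN
  set H : X n → X n → ℝ := fun x y => ind A x * ind A y * Psi (g x) (g y) with hH
  set Gf : ℝ → ℝ := fun s => ∑ x : X n, ∑ y : X n, Qk s x y * H x y with hGf
  have hNN : √(∑ x : X n, ind A x * g x ^ 2) = N := by
    rw [hN]
    congr 1
    apply sum_congr rfl
    intro x _
    by_cases hx : x ∈ A
    · unfold ind; rw [if_pos hx, one_mul]
    · rw [hgA x hx]; simp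
  have hderiv := fun s => hasDerivAt_G H s
  set Gd : ℝ → ℝ := fun s => (∑ i : Fin n, ∑ x ∈ lo i, ∑ y ∈ lo i,
        Qo s i x y * (H (up i x) y + H x (up i y) - H x y - H (up i x) (up i y))) with hGd
  have hGd_le : ∀ s, 0 < s → s < 1 / 2 → Gd s ≤ 22 * E + 17 / √s * N * √E := by
    intro s hs0 hs1
    have h := G_deriv_le hA hg hs0 (by linarith : s < 1)
    rw [hNN] at h
    have h5 : 12 / √(s * (1 - s)) * N * √E ≤ 17 / √s * N * √E := by
      apply mul_le_mul_of_nonneg_right _ (Real.sqrt_nonneg _)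
      exact mul_le_mul_of_nonneg_right (mainIneq_sqrt hs0 hs1) (Real.sqrt_nonneg _)
    exact h.trans (by linarith)
  set φ : ℝ → ℝ := fun s => Gf s - (22 * s * E + 34 * √s * N * √E) with hφ
  have hφd : ∀ s, 0 < s → HasDerivAt φ (Gd s - (22 * E + 17 / √s * N * √E)) s := by
    intro s hs
    have d1 : HasDerivAt Gf (Gd s) s := hderiv s
    have d2 : HasDerivAt (fun s : ℝ => 22 * s * E) (22 * E) s := by
      have := ((hasDerivAt_id s).const_mul (22 : ℝ)).mul_const E
      simpa using this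
    have d3 : HasDerivAt (fun s : ℝ => 34 * √s * N * √E) (17 / √s * N * √E) s := by
      have h6 := ((((Real.hasDerivAt_sqrt hs.ne').const_mul (34 : ℝ)).mul_const N).mul_const √E)
      have h7 : 34 * (1 / (2 * √s)) * N * √E = 17 / √s * N * √E := by
        have : √s ≠ 0 := (Real.sqrt_pos.mpr hs).ne'
        field_simp
        ring
      rw [h7] at h6
      exact h6
    exact d1.sub (d2.add d3)
  have hφc : ContinuousOn φ (Set.Icc 0 (1 / 2)) := by
    apply Continuous.continuousOn
    have c1 : Continuous Gf := continuous_iff_continuousAt.mpr fun s => (hderiv s).continuousAt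
    exact c1.sub (by fun_prop)
  have hanti : AntitoneOn φ (Set.Icc 0 (1 / 2)) := by
    apply antitoneOn_of_deriv_nonpos (convex_Icc _ _) hφc
    · intro s hs
      rw [interior_Icc] at hs
      exact (hφd s hs.1).differentiableAt.differentiableWithinAt
    · intro s hs
      rw [interior_Icc] at hs
      rw [(hφd s hs.1).deriv]
      have := hGd_le s hs.1 hs.2
      linarith
  have hφ0 : φ 0 = 0 := by
    have g0 : Gf 0 = 0 := by
      rw [hGf]
      apply sum_eq_zero
      intro x _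
      apply sum_eq_zero
      intro y _
      rw [Qk_zero]
      split_ifs with hxy
      · subst hxy
        simp [hH, Psi_self]
      · simp
    simp only [hφ, g0]
    simp
  have hφt : φ t ≤ φ 0 := hanti ⟨le_rfl, by norm_num⟩ ⟨h0, h1⟩ h0
  rw [hφ0] at hφt
  have hlow := mainIneq_lower hg hgA h0 (by linarith : t ≤ 1)
  have hφt' : Gf t ≤ 22 * t * E + 34 * √t * N * √E := by
    have : φ t = Gf t - (22 * t * E + 34 * √t * N * √E) := rfl
    linarith
  have hlow' : 2 * (∑ x : X n, g x ^ 2 * Qf t (ind A) x - ∑ x : X n, g x * Qf t g x) ≤ Gf t :=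
    hlow
  linarith

end Pool.Agent.MP_291ce2_pr
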