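import Pool.Agent.MP_291ce2_pr.Defs

set_option autoImplicit false

/-! [CW-10] populations -/

namespace Pool.Agent.MP_291ce2_pr

open Finset
open scoped Classical

variable {n : ℕ}

theorem Pop.nonneg {A : Set (X n)} {f ν : X n → ℝ} (h : Pop A f ν) :
    (∀ x, 0 ≤ f x) ∧ ∀ x, 0 ≤ ν x := by
  obtain ⟨J, h0, _, h2, h3⟩ := h
  exact ⟨fun x => by rw [h2]; exact Finset.sum_nonneg fun v _ => h0 x v,
    fun x => by rw [h3]; exact Finset.sum_nonneg fun z _ => h0 z x⟩

theorem Pop.supp {A : Set (X n)} {f ν : X n → ℝ} (h : Pop A f ν) (x : X n) (hx : x ∉ A) :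
    f x = 0 := by
  obtain ⟨J, _, h1, h2, _⟩ := h
  rw [h2]
  refine Finset.sum_eq_zero fun v _ => ?_
  by_contra hne
  exact hx (h1 x v hne).2

theorem Pop.sum_eq {A : Set (X n)} {f ν : X n → ℝ} (h : Pop A f ν) :
    ∑ x : X n, f x = ∑ x : X n, ν x := by
  obtain ⟨J, _, _, h2, h3⟩ := h
  rw [Finset.sum_congr rfl fun x _ => h2 x, Finset.sum_congr rfl fun x _ => h3 x,
    Finset.sum_comm]

theorem Pop.zero (A : Set (X n)) : Pop A (fun _ => 0) (fun _ => 0) :=
  ⟨fun _ _ => 0, by simp, by simp, by simp, by simp⟩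

theorem Pop.add {A : Set (X n)} {f ν f' ν' : X n → ℝ} (h : Pop A f ν) (h' : Pop A f' ν') :
    Pop A (f + f') (ν + ν') := by
  obtain ⟨J, h0, h1, h2, h3⟩ := h
  obtain ⟨J', h0', h1', h2', h3'⟩ := h'
  refine ⟨fun z v => J z v + J' z v, fun z v => add_nonneg (h0 z v) (h0' z v), ?_, ?_, ?_⟩
  · intro z v hne
    by_cases hJ : J z v = 0
    · have : J' z v ≠ 0 := by
        intro h; apply hne; show J z v + J' z v = 0; rw [hJ, h, add_zero]
      exact h1' z v this
    · exact h1 z v hJ
  · intro z
    rw [Finset.sum_add_distrib, ← h2, ← h2']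
    rfl
  · intro v
    rw [Finset.sum_add_distrib, ← h3, ← h3']
    rfl

theorem Pop.smul {A : Set (X n)} {f ν : X n → ℝ} (h : Pop A f ν) {r : ℝ} (hr : 0 ≤ r) :
    Pop A (fun x => r * f x) (fun x => r * ν x) := by
  obtain ⟨J, h0, h1, h2, h3⟩ := h
  refine ⟨fun z v => r * J z v, fun z v => mul_nonneg hr (h0 z v), ?_, ?_, ?_⟩
  · intro z v hne
    exact h1 z v (fun h => hne (by show r * J z v = 0; rw [h, mul_zero]))
  · intro z
    show r * f z = _
    rw [← Finset.mul_sum, ← h2]
  · intro v
    show r * ν v = _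
    rw [← Finset.mul_sum, ← h3]

theorem Pop.sum {ι : Type*} (s : Finset ι) {A : Set (X n)} {f ν : ι → X n → ℝ}
    (h : ∀ i ∈ s, Pop A (f i) (ν i)) :
    Pop A (fun x => ∑ i ∈ s, f i x) (fun x => ∑ i ∈ s, ν i x) := by
  classical
  induction s using Finset.induction_on with
  | empty => simpa using Pop.zero A
  | insert a s ha ih =>
    have e1 := Pop.add (h a (Finset.mem_insert_self a s))
      (ih fun i hi => h i (Finset.mem_insert_of_mem hi))
    have e2 : (f a + fun x => ∑ i ∈ s, f i x) = fun x => ∑ i ∈ insert a s, f i x := by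
      funext x
      rw [Finset.sum_insert ha]
      rfl
    have e3 : (ν a + fun x => ∑ i ∈ s, ν i x) = fun x => ∑ i ∈ insert a s, ν i x := by
      funext x
      rw [Finset.sum_insert ha]
      rfl
    rw [e2, e3] at e1
    exact e1

theorem Pop.split {A : Set (X n)} {f ν : X n → ℝ} (h : Pop A f ν) (θ : X n → ℝ)
    (h0 : ∀ x, 0 ≤ θ x) (h1 : ∀ x, θ x ≤ 1) :
    ∃ ν₁ ν₂ : X n → ℝ, Pop A (fun x => θ x * f x) ν₁ ∧ Pop A (fun x => (1 - θ x) * f x) ν₂ ∧
      ∀ x, ν x = ν₁ x + ν₂ x := by
  obtain ⟨J, hJ0, hJ1, hJ2, hJ3⟩ := h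
  refine ⟨fun v => ∑ z, θ z * J z v, fun v => ∑ z, (1 - θ z) * J z v,
    ⟨fun z v => θ z * J z v, fun z v => mul_nonneg (h0 z) (hJ0 z v), ?_, ?_, fun v => rfl⟩,
    ⟨fun z v => (1 - θ z) * J z v,
      fun z v => mul_nonneg (by linarith [h1 z]) (hJ0 z v), ?_, ?_, fun v => rfl⟩, ?_⟩
  · intro z v hne
    exact hJ1 z v (fun h => hne (by show θ z * J z v = 0; rw [h, mul_zero]))
  · intro z
    show θ z * f z = _
    rw [← Finset.mul_sum, ← hJ2]
  · intro z v hne
    exact hJ1 z v (fun h => hne (by show (1 - θ z) * J z v = 0; rw [h, mul_zero]))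
  · intro z
    show (1 - θ z) * f z = _
    rw [← Finset.mul_sum, ← hJ2]
  · intro v
    show ν v = ∑ z, θ z * J z v + ∑ z, (1 - θ z) * J z v
    rw [← Finset.sum_add_distrib, hJ3]
    refine Finset.sum_congr rfl fun z _ => ?_
    ring

/-- push forward of a population -/
theorem Pop.push {A : Set (X n)} {f ν : X n → ℝ} (h : Pop A f ν) (φ ψ : X n → X n)
    (hφ : ∀ z v, v ≤ z → z ∈ A → ψ v ≤ φ z ∧ φ z ∈ A) :
    Pop A (fun z' => ∑ z, if φ z = z' then f z else 0)
      (fun v' => ∑ v, if ψ v = v' then ν v else 0) := by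
  obtain ⟨J, hJ0, hJ1, hJ2, hJ3⟩ := h
  refine ⟨fun z' v' => ∑ z, ∑ v, if φ z = z' ∧ ψ v = v' then J z v else 0, ?_, ?_, ?_, ?_⟩
  · intro z' v'
    refine Finset.sum_nonneg fun z _ => Finset.sum_nonneg fun v _ => ?_
    split_ifs
    · exact hJ0 z v
    · exact le_rfl
  · intro z' v' hne
    obtain ⟨z, _, hz⟩ := Finset.exists_ne_zero_of_sum_ne_zero hne
    obtain ⟨v, _, hv⟩ := Finset.exists_ne_zero_of_sum_ne_zero hz
    split_ifs at hv with hc
    · obtain ⟨hvz, hzA⟩ := hJ1 z v hv
      have := hφ z v hvz hzA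
      rw [hc.1, hc.2] at this
      exact this
    · exact absurd rfl hv
  · intro z'
    show ∑ z, (if φ z = z' then f z else 0) = ∑ v', ∑ z, ∑ v, _
    rw [Finset.sum_comm]
    refine Finset.sum_congr rfl fun z _ => ?_
    rw [Finset.sum_comm]
    split_ifs with hz
    · rw [hJ2]
      refine Finset.sum_congr rfl fun v _ => ?_
      simp [hz]
    · symm
      refine Finset.sum_eq_zero fun v _ => Finset.sum_eq_zero fun v' _ => ?_
      simp [hz]
  · intro v'
    show ∑ v, (if ψ v = v' then ν v else 0) = ∑ z', ∑ z, ∑ v, _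
    have e1 : ∑ z' : X n, ∑ z : X n, ∑ v : X n, (if φ z = z' ∧ ψ v = v' then J z v else 0)
        = ∑ v : X n, ∑ z : X n, ∑ z' : X n, (if φ z = z' ∧ ψ v = v' then J z v else 0) := by
      rw [Finset.sum_comm]
      rw [Finset.sum_congr rfl fun z _ => Finset.sum_comm]
      rw [Finset.sum_comm]
    rw [e1]
    refine Finset.sum_congr rfl fun v _ => ?_
    split_ifs with hv
    · rw [hJ3]
      refine Finset.sum_congr rfl fun z _ => ?_
      simp [hv]
    · symm
      refine Finset.sum_eq_zero fun z _ => Finset.sum_eq_zero fun z' _ => ?_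
      simp [hv]

private theorem pop_up_ne_dn (i : Fin n) (x : X n) : up i x ≠ dn i x := by
  intro h
  have := congrFun h i
  simp [up, dn] at this

private theorem pop_sum_two (i : Fin n) (z' : X n) (F : X n → ℝ)
    (hF : ∀ z, F z ≠ 0 → z = up i z' ∨ z = dn i z') :
    ∑ z, F z = F (up i z') + F (dn i z') := by
  rw [← Finset.sum_pair (pop_up_ne_dn i z')]
  symm
  refine Finset.sum_subset (Finset.subset_univ _) ?_
  intro z _ hz
  by_contra hne
  apply hz
  rw [Finset.mem_insert, Finset.mem_singleton]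
  exact hF z hne

private theorem pop_fibre (i : Fin n) {z z' : X n} (h : ∀ j, j ≠ i → z j = z' j) :
    z = up i z' ∨ z = dn i z' := by
  cases hz : z i with
  | true =>
    left
    funext j
    by_cases hj : j = i
    · subst hj; simp [up, hz]
    · simp [up, hj, h j hj]
  | false =>
    right
    funext j
    by_cases hj : j = i
    · subst hj; simp [dn, hz]
    · simp [dn, hj, h j hj]

private theorem pop_nx_off (A : Set (X n)) (i : Fin n) (b : Bool) (z : X n) {j : Fin n}
    (hj : j ≠ i) : nx A i b z j = z j := by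
  unfold nx
  split_ifs
  · simp [hj]
  · rfl

private theorem pop_sum_nx (A : Set (X n)) (i : Fin n) (b : Bool) (f : X n → ℝ) (z' : X n) :
    (∑ z, if nx A i b z = z' then f z else 0)
      = (if nx A i b (up i z') = z' then f (up i z') else 0)
        + (if nx A i b (dn i z') = z' then f (dn i z') else 0) := by
  refine pop_sum_two i z' (fun z => if nx A i b z = z' then f z else 0) ?_
  intro z hz
  by_cases h : nx A i b z = z'
  · apply pop_fibre
    intro j hj
    rw [← h, pop_nx_off A i b z hj]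
  · exact absurd (if_neg h) hz

private theorem pop_up_true {i : Fin n} {z : X n} (h : z i = true) : up i z = z := by
  funext j
  by_cases hj : j = i
  · subst hj; simp [up, h]
  · simp [up, hj]

private theorem pop_dn_false {i : Fin n} {z : X n} (h : z i = false) : dn i z = z := by
  funext j
  by_cases hj : j = i
  · subst hj; simp [dn, h]
  · simp [dn, hj]

private theorem pop_dn_le_up (i : Fin n) (z : X n) : dn i z ≤ up i z := by
  intro j
  by_cases hj : j = i
  · subst hj; simp [dn, up]
  · simp [dn, up, hj]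

private theorem pop_P1_eq {A : Set (X n)} (hA : IsUpperSet A) (i : Fin n) {f : X n → ℝ}
    (hf : ∀ x, x ∉ A → f x = 0) (z' : X n) :
    P1 A i f z' = (1 / 2) * (∑ z, if nx A i true z = z' then f z else 0)
      + (1 / 2) * (∑ z, if nx A i false z = z' then f z else 0) := by
  rw [pop_sum_nx, pop_sum_nx]
  have hup : ∀ (b b' : Bool) (x : X n), Function.update (Function.update x i b) i b'
      = Function.update x i b' := fun b b' x => by rw [Function.update_idem]
  have t1 : nx A i true (up i z') = up i z' := by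
    unfold nx up
    rw [hup]; split_ifs <;> rfl
  have t2 : nx A i true (dn i z') = if up i z' ∈ A then up i z' else dn i z' := by
    unfold nx up dn
    rw [hup]
  have t3 : nx A i false (up i z') = if dn i z' ∈ A then dn i z' else up i z' := by
    unfold nx up dn
    rw [hup]
  have t4 : nx A i false (dn i z') = dn i z' := by
    unfold nx dn
    rw [hup]; split_ifs <;> rfl
  rw [t1, t2, t3, t4]
  have hne := pop_up_ne_dn i z'
  have hle := pop_dn_le_up i z'
  unfold P1
  cases hz : z' i with
  | true =>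
    have e1 := pop_up_true hz
    rw [e1] at hne hle ⊢
    by_cases hd : dn i z' ∈ A
    · have hzA : z' ∈ A := hA hle hd
      rw [if_pos hd, if_pos rfl, if_pos hzA, if_pos rfl, if_pos hd, if_neg (Ne.symm hne),
        if_neg (Ne.symm hne)]
      ring
    · rw [if_neg hd, if_pos rfl, if_neg hd, if_pos rfl, if_neg (Ne.symm hne), hf _ hd]
      simp only [ite_self]
      ring
  | false =>
    have e1 := pop_dn_false hz
    rw [e1] at hne hle ⊢
    by_cases hd : z' ∈ A
    · have hu : up i z' ∈ A := hA hle hd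
      rw [if_pos hd, if_neg hne, if_pos hu, if_neg hne, if_pos hd, if_pos rfl, if_pos rfl]
      ring
    · rw [if_neg hd, if_neg hne, if_neg hd, if_neg hne, if_pos rfl, hf _ hd]
      simp

theorem Pop.step1 {A : Set (X n)} (hA : IsUpperSet A) {f ν : X n → ℝ} (h : Pop A f ν)
    (i : Fin n) : Pop A (P1 A i f) (P1 Set.univ i ν) := by
  have hsup := h.supp
  have hord : ∀ b : Bool, ∀ z v : X n, v ≤ z → z ∈ A →
      nx Set.univ i b v ≤ nx A i b z ∧ nx A i b z ∈ A := by
    intro b z v hvz hz
    have e1 : nx Set.univ i b v = Function.update v i b := by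
      unfold nx
      rw [if_pos (Set.mem_univ _)]
    rw [e1]
    unfold nx
    split_ifs with hc
    · refine ⟨?_, hc⟩
      intro j
      by_cases hj : j = i
      · subst hj; simp
      · simp [hj]; exact hvz j
    · refine ⟨?_, hz⟩
      cases b with
      | true =>
        exfalso
        apply hc
        refine hA ?_ hz
        intro j
        by_cases hj : j = i
        · subst hj; simp
        · simp [hj]
      | false =>
        intro j
        by_cases hj : j = i
        · subst hj; simp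
        · simp [hj]; exact hvz j
  have p1 := (h.push (nx A i true) (nx Set.univ i true) (hord true)).smul
    (r := 1 / 2) (by norm_num)
  have p2 := (h.push (nx A i false) (nx Set.univ i false) (hord false)).smul
    (r := 1 / 2) (by norm_num)
  have p3 := p1.add p2
  have q1 : P1 A i f = (fun x => 1 / 2 * (∑ z, if nx A i true z = x then f z else 0))
      + (fun x => 1 / 2 * (∑ z, if nx A i false z = x then f z else 0)) := by
    funext x
    exact pop_P1_eq hA i hsup x
  have q2 : P1 Set.univ i ν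
      = (fun x => 1 / 2 * (∑ z, if nx Set.univ i true z = x then ν z else 0))
      + (fun x => 1 / 2 * (∑ z, if nx Set.univ i false z = x then ν z else 0)) := by
    funext x
    exact pop_P1_eq (A := Set.univ) isUpperSet_univ i (fun x hx => absurd (Set.mem_univ x) hx) x
  rw [q1, q2]
  exact p3

theorem Pop.step {A : Set (X n)} (hA : IsUpperSet A) {f ν : X n → ℝ} (h : Pop A f ν) (t : ℕ) :
    Pop A ((P A)^[t] f) ((P Set.univ)^[t] ν) := by
  induction t with
  | zero => exact h
  | succ t ih =>
    rw [Function.iterate_succ_apply', Function.iterate_succ_apply']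
    have e1 := (Pop.sum Finset.univ (fun i _ => ih.step1 hA i)).smul
      (r := 1 / (n : ℝ)) (by positivity)
    exact e1

theorem Pop.le {A : Set (X n)} {f ν : X n → ℝ} (h : Pop A f ν) {r : X n → ℝ} (hr : Monotone r) :
    ∑ x : X n, ν x * r x ≤ ∑ x : X n, f x * r x := by
  obtain ⟨J, hJ0, hJ1, hJ2, hJ3⟩ := h
  have e1 : ∑ x : X n, ν x * r x = ∑ v : X n, ∑ z : X n, J z v * r v :=
    Finset.sum_congr rfl fun v _ => by rw [hJ3, Finset.sum_mul]
  have e2 : ∑ x : X n, f x * r x = ∑ z : X n, ∑ v : X n, J z v * r z :=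
    Finset.sum_congr rfl fun z _ => by rw [hJ2, Finset.sum_mul]
  rw [e1, e2, Finset.sum_comm]
  refine Finset.sum_le_sum fun z _ => Finset.sum_le_sum fun v _ => ?_
  by_cases h0 : J z v = 0
  · rw [h0]; simp
  · exact mul_le_mul_of_nonneg_left (hr (hJ1 z v h0).1) (hJ0 z v)

theorem Pop.dir {A : Set (X n)} {x : X n} (hx : x ∈ A) : Pop A (dir x) (dir x) := by
  refine ⟨fun z v => if z = x ∧ v = x then 2 ^ n else 0, ?_, ?_, ?_, ?_⟩
  · intro z v
    show (0 : ℝ) ≤ if z = x ∧ v = x then 2 ^ n else 0
    split_ifs <;> positivity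
  · intro z v hne
    by_cases hc : z = x ∧ v = x
    · obtain ⟨rfl, rfl⟩ := hc
      exact ⟨le_rfl, hx⟩
    · exact absurd (if_neg hc) hne
  · intro z
    unfold MP_291ce2_pr.dir
    by_cases hz : z = x
    · simp [hz]
    · simp [hz]
  · intro v
    unfold MP_291ce2_pr.dir
    by_cases hv : v = x
    · simp [hv]
    · simp [hv]

end Pool.Agent.MP_291ce2_pr
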