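import Pool.Agent.MP_291ce2_pr.Gap
import Pool.Agent.MP_291ce2_pr.Entropy
import Pool.Agent.MP_291ce2_pr.Pop
import Pool.Agent.MP_291ce2_pr.EnergyLow
import Pool.Agent.MP_291ce2_pr.Ops
import Pool.Agent.MP_291ce2_pr.Kernel
import Pool.Agent.MP_291ce2_pr.Noise

set_option autoImplicit false

namespace Pool.Agent.MP_291ce2_pr

open Finset
open scoped Classical

variable {n : ℕ}

theorem pg_prob_univ : prob (Set.univ : Set (X n)) = 1 := by
  unfold prob cnt
  simp

theorem pg_P_const (hn : 1 ≤ n) (m : ℝ) :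
    P (Set.univ : Set (X n)) (fun _ => m) = fun _ => m := by
  funext x
  have hn0 : (n : ℝ) ≠ 0 := by positivity
  unfold P P1
  simp only [Set.mem_univ, if_true, add_self_div_two, Finset.sum_const, Finset.card_univ,
    Fintype.card_fin, nsmul_eq_mul]
  field_simp

theorem pg_iter_add (A : Set (X n)) (f g : X n → ℝ) (t : ℕ) :
    (P A)^[t] (f + g) = (P A)^[t] f + (P A)^[t] g := by
  induction t generalizing f g with
  | zero => rfl
  | succ k ih => rw [Function.iterate_succ_apply, Function.iterate_succ_apply,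
      Function.iterate_succ_apply, P_add, ih]

theorem pg_iter_const (hn : 1 ≤ n) (m : ℝ) (t : ℕ) :
    (P (Set.univ : Set (X n)))^[t] (fun _ => m) = fun _ => m := by
  induction t with
  | zero => rfl
  | succ k ih => rw [Function.iterate_succ_apply, pg_P_const hn, ih]

theorem pg_iter_sum (hn : 1 ≤ n) {A : Set (X n)} (hA : IsUpperSet A) (f : X n → ℝ) (t : ℕ) :
    ∑ x : X n, (P A)^[t] f x = ∑ x : X n, f x := by
  induction t with
  | zero => rfl
  | succ k ih => rw [Function.iterate_succ_apply', P_sum hn hA, ih]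

theorem pg_iter_le (hn : 1 ≤ n) {A : Set (X n)} {f : X n → ℝ} {B : ℝ} (hf : ∀ x, f x ≤ B)
    (t : ℕ) : ∀ x, (P A)^[t] f x ≤ B := by
  induction t with
  | zero => exact hf
  | succ k ih => intro x; rw [Function.iterate_succ_apply']; exact P_le hn ih x

theorem pg_pow_pos : (0 : ℝ) < 2 ^ n := by positivity

theorem pg_avg_add (f g : X n → ℝ) : avg (fun x => f x + g x) = avg f + avg g := by
  unfold avg
  rw [Finset.sum_add_distrib, add_div]

theorem pg_avg_const (m : ℝ) : avg (fun _ : X n => m) = m := by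
  unfold avg
  rw [Finset.sum_const, Finset.card_univ, Fintype.card_fun, Fintype.card_bool, Fintype.card_fin,
    nsmul_eq_mul]
  push_cast
  field_simp

theorem pg_avg_mono {f g : X n → ℝ} (h : ∀ x, f x ≤ g x) : avg f ≤ avg g := by
  unfold avg
  exact div_le_div_of_nonneg_right (Finset.sum_le_sum fun x _ => h x) pg_pow_pos.le

theorem pg_avg_nonneg {f : X n → ℝ} (h : ∀ x, 0 ≤ f x) : 0 ≤ avg f := by
  unfold avg
  exact div_nonneg (Finset.sum_nonneg fun x _ => h x) pg_pow_pos.le

theorem pg_nrm_nonneg (f : X n → ℝ) : 0 ≤ nrm f := Real.sqrt_nonneg _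

theorem pg_nrm_sq (f : X n → ℝ) : nrm f ^ 2 = avg (fun x => f x ^ 2) :=
  Real.sq_sqrt (pg_avg_nonneg fun x => sq_nonneg _)

theorem pg_cs (f g : X n → ℝ) : avg (fun x => f x * g x) ^ 2
    ≤ avg (fun x => f x ^ 2) * avg (fun x => g x ^ 2) := by
  unfold avg
  have h := Finset.sum_mul_sq_le_sq_mul_sq (Finset.univ : Finset (X n)) f g
  rw [div_pow, div_mul_div_comm, ← sq]
  exact div_le_div_of_nonneg_right h (by positivity)

theorem pg_cs_nrm (f g : X n → ℝ) : |avg (fun x => f x * g x)| ≤ nrm f * nrm g := by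
  apply abs_le_of_sq_le_sq _ (mul_nonneg (pg_nrm_nonneg f) (pg_nrm_nonneg g))
  rw [mul_pow, pg_nrm_sq, pg_nrm_sq]
  exact pg_cs f g

theorem pg_nrm_le_one {g : X n → ℝ} (h0 : ∀ x, 0 ≤ g x) (h1 : ∀ x, g x ≤ 1) : nrm g ≤ 1 := by
  unfold nrm
  rw [Real.sqrt_le_one]
  calc avg (fun x => g x ^ 2) ≤ avg (fun _ : X n => (1 : ℝ)) :=
        pg_avg_mono fun x => by nlinarith [h0 x, h1 x]
    _ = 1 := pg_avg_const 1

theorem pg_Qf_ind_nonneg (A : Set (X n)) {t : ℝ} (h0 : 0 ≤ t) (h1 : t ≤ 1 / 2) (x : X n) :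
    0 ≤ Qf t (ind A) x := by
  unfold Qf
  apply Finset.sum_nonneg
  intro y _
  apply mul_nonneg (Qk_nonneg h0 (by linarith) x y)
  unfold ind
  split_ifs <;> norm_num

theorem pg_Qf_ind_le (A : Set (X n)) {t : ℝ} (h0 : 0 ≤ t) (h1 : t ≤ 1 / 2) (x : X n) :
    Qf t (ind A) x ≤ 1 := by
  unfold Qf
  rw [← Qk_row t x]
  apply Finset.sum_le_sum
  intro y _
  have h := Qk_nonneg h0 (by linarith) x y
  unfold ind
  split_ifs
  · linarith
  · simpa using h

theorem pg_avg_Qf_ind (A : Set (X n)) (t : ℝ) : avg (Qf t (ind A)) = prob A := by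
  unfold avg Qf prob cnt
  congr 1
  rw [Finset.sum_comm]
  apply Finset.sum_congr rfl
  intro y _
  rw [← Finset.sum_mul]
  have : ∑ x : X n, Qk t x y = 1 := by
    rw [← Qk_row t y]
    exact Finset.sum_congr rfl fun x _ => Qk_symm t x y
  rw [this, one_mul]
  rfl

theorem pg_ind_mono {A : Set (X n)} (hA : IsUpperSet A) : Monotone (ind A) := by
  intro x y hxy
  unfold ind
  by_cases hx : x ∈ A
  · rw [if_pos hx, if_pos (hA hxy hx)]
  · rw [if_neg hx]
    split_ifs <;> norm_num

/-- the centred version of the uncensored walk contracts -/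
theorem pg_nu (hn : 1 ≤ n) {ν : X n → ℝ} {m : ℝ} (hm : avg ν = m) (t : ℕ) :
    nrm (fun x => (P Set.univ)^[t] ν x - m) ≤ Real.exp (-((t : ℝ) / (4000 * n))) * nrm ν := by
  have e : (fun x => (P Set.univ)^[t] ν x - m)
      = (P Set.univ)^[t] (fun x => ν x - m) := by
    have h1 : (fun x => ν x - m) = ν + (fun _ => -m) := by
      funext x
      simp [sub_eq_add_neg]
    rw [h1, pg_iter_add, pg_iter_const hn]
    funext x
    simp [sub_eq_add_neg]
  rw [e]
  have hpow : (0 : ℝ) < 2 ^ n := pg_pow_pos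
  have hsum : ∑ x : X n, (ν x - m) = 0 := by
    have h1 := hm
    have h2 := pg_avg_const (n := n) m
    unfold avg at h1 h2
    rw [Finset.sum_sub_distrib]
    rw [div_eq_iff hpow.ne'] at h1 h2
    rw [h1, h2]
    ring
  have h3 := P_contr hn (A := (Set.univ : Set (X n))) isUpperSet_univ (c := 1) one_pos le_rfl
    pg_prob_univ.ge (f := fun x => ν x - m) (fun x hx => absurd (Set.mem_univ x) hx) hsum t
  have h4 : nrm (fun x => ν x - m) ≤ nrm ν := by
    unfold nrm
    apply Real.sqrt_le_sqrt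
    have e2 : avg (fun x => (ν x - m) ^ 2) = avg (fun x => ν x ^ 2) - m ^ 2 := by
      have h5 : ∑ x : X n, (ν x - m) ^ 2
          = ∑ x : X n, ν x ^ 2 - 2 * m * ∑ x : X n, ν x + ∑ _x : X n, m ^ 2 := by
        rw [Finset.mul_sum, ← Finset.sum_sub_distrib, ← Finset.sum_add_distrib]
        exact Finset.sum_congr rfl fun x _ => by ring
      have h6 : ∑ x : X n, ν x = m * 2 ^ n := by
        rw [← hm]
        unfold avg
        field_simp
      have h7 : ∑ _x : X n, m ^ 2 = m ^ 2 * 2 ^ n := by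
        have := pg_avg_const (n := n) (m ^ 2)
        unfold avg at this
        rw [div_eq_iff hpow.ne'] at this
        exact this
      unfold avg
      rw [h5, h6, h7]
      field_simp
      ring
    rw [e2]
    nlinarith [sq_nonneg m]
  calc nrm ((P Set.univ)^[t] fun x => ν x - m)
      ≤ Real.exp (-(1 ^ 2 * t / (4000 * n))) * nrm (fun x => ν x - m) := h3
    _ = Real.exp (-((t : ℝ) / (4000 * n))) * nrm (fun x => ν x - m) := by
        rw [one_pow, one_mul]
    _ ≤ Real.exp (-((t : ℝ) / (4000 * n))) * nrm ν :=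
        mul_le_mul_of_nonneg_left h4 (Real.exp_pos _).le

theorem progress (hn : 1 ≤ n) {A : Set (X n)} (hA : IsUpperSet A) {c : ℝ} (hc : 0 < c) (hc1 : c ≤ 1)
    (hcA : c ≤ prob A) {f ν : X n → ℝ} (hp : Pop A f ν) (hm1 : avg f ≤ 1) {B b : ℝ}
    (hB : ∀ x, f x ≤ B) (hb0 : 0 < b) (hb1 : 256 / c ≤ Real.log b) (hbB : b ≤ 4 * B)
    (hBb : Real.log (4 * B / b) ≤ 2 * Real.log b) (hq : nrm ν ≤ 256 / c * avg f)
    {L : ℕ} (hL1 : 46080000 / c ^ 3 < L) (hL2 : Real.exp (-(L / 4000 : ℝ)) ≤ c ^ 2 / 1024) :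
    c / 4 * avg f ≤ avg (fun x => min ((P A)^[2 * L * n] f x) b) := by
  by_contra hcon
  push Not at hcon
  have hpow : (0 : ℝ) < 2 ^ n := pg_pow_pos
  have hnpos : (0 : ℝ) < n := by positivity
  have hPop : ∀ u, Pop A ((P A)^[u] f) ((P Set.univ)^[u] ν) := fun u => Pop.step hA hp u
  have hfn : ∀ u x, 0 ≤ (P A)^[u] f x := fun u => (hPop u).nonneg.1
  set m := avg f with hmdef
  have hminnn : ∀ u, 0 ≤ avg (fun x => min ((P A)^[u] f x) b) := fun u =>
    pg_avg_nonneg fun x => le_min (hfn u x) hb0.le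
  have hmpos : 0 < m := by
    have h1 : 0 < c / 4 * m := lt_of_le_of_lt (hminnn _) hcon
    by_contra h2
    push Not at h2
    have : c / 4 * m ≤ 0 := mul_nonpos_of_nonneg_of_nonpos (by positivity) h2
    linarith
  have havg : ∀ u, avg ((P A)^[u] f) = m := by
    intro u
    rw [hmdef]
    unfold avg
    rw [pg_iter_sum hn hA]
  have hνavg : avg ν = m := by
    rw [hmdef]
    unfold avg
    rw [hp.sum_eq]
  have hνavgu : ∀ u, avg ((P Set.univ)^[u] ν) = m := by
    intro u
    rw [← hνavg]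
    unfold avg
    rw [pg_iter_sum hn isUpperSet_univ]
  -- monotonicity of the truncated mass
  have hmono : Monotone (fun u : ℕ => avg (fun x => min ((P A)^[u] f x) b)) := by
    apply monotone_nat_of_le_succ
    intro u
    unfold avg
    apply div_le_div_of_nonneg_right _ hpow.le
    have := min_mono hn hA (hfn u) b
    simpa only [Function.iterate_succ_apply'] using this
  have hlow : ∀ u, u ≤ 2 * L * n → avg (fun x => min ((P A)^[u] f x) b) ≤ c / 4 * m := by
    intro u hu
    exact ((hmono hu).trans_lt hcon).le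
  -- robustness
  have hrob : ∀ u, L * n ≤ u → ∀ t : ℝ, 0 ≤ t → t ≤ 1 / 2 →
      3 / 4 * c * m ≤ avg (fun x => (P A)^[u] f x * Qf t (ind A) x) := by
    intro u hu t ht0 ht1
    set r := Qf t (ind A) with hr
    have hr0 : ∀ x, 0 ≤ r x := pg_Qf_ind_nonneg A ht0 ht1
    have hr1 : ∀ x, r x ≤ 1 := pg_Qf_ind_le A ht0 ht1
    have hrm : Monotone r := Qf_mono ht0 ht1 (pg_ind_mono hA)
    have h1 : avg (fun x => (P Set.univ)^[u] ν x * r x) ≤ avg (fun x => (P A)^[u] f x * r x) := by
      unfold avg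
      exact div_le_div_of_nonneg_right ((hPop u).le hrm) hpow.le
    have h2 : nrm (fun x => (P Set.univ)^[u] ν x - m) ≤ c / 4 * m := by
      calc nrm (fun x => (P Set.univ)^[u] ν x - m)
          ≤ Real.exp (-((u : ℝ) / (4000 * n))) * nrm ν := pg_nu hn hνavg u
        _ ≤ (c ^ 2 / 1024) * (256 / c * m) := by
            apply mul_le_mul _ hq (pg_nrm_nonneg ν) (by positivity)
            refine le_trans ?_ hL2
            apply Real.exp_le_exp.mpr
            apply neg_le_neg
            have hu' : (L : ℝ) * n ≤ u := by exact_mod_cast hu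
            rw [div_le_div_iff₀ (by norm_num) (by positivity)]
            nlinarith
        _ = c / 4 * m := by
            field_simp
            norm_num
    have h3 : avg (fun x => (P Set.univ)^[u] ν x * r x)
        = m * avg r + avg (fun x => ((P Set.univ)^[u] ν x - m) * r x) := by
      have e1 : m * avg r = avg (fun x => m * r x) := by
        unfold avg
        rw [← Finset.mul_sum]
        ring
      rw [e1, ← pg_avg_add]
      congr 1
      funext x
      ring
    have h4 : |avg (fun x => ((P Set.univ)^[u] ν x - m) * r x)| ≤ c / 4 * m := by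
      calc |avg (fun x => ((P Set.univ)^[u] ν x - m) * r x)|
          ≤ nrm (fun x => (P Set.univ)^[u] ν x - m) * nrm r := pg_cs_nrm _ _
        _ ≤ c / 4 * m * 1 := by
            apply mul_le_mul h2 (pg_nrm_le_one hr0 hr1) (pg_nrm_nonneg r)
            positivity
        _ = c / 4 * m := mul_one _
    have h5 : avg r = prob A := pg_avg_Qf_ind A t
    have h6 := neg_abs_le (avg (fun x => ((P Set.univ)^[u] ν x - m) * r x))
    have h7 : m * c ≤ m * avg r := by
      rw [h5]
      exact mul_le_mul_of_nonneg_left hcA hmpos.le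
    linarith
  -- energy in every step of the second half
  have hen : ∀ u, L * n ≤ u → u ≤ 2 * L * n →
      c ^ 3 / 11520000 * Real.log b * m * 2 ^ n ≤ En A (fun x => gh (b / 4) ((P A)^[u] f x)) := by
    intro u hu1 hu2
    exact energy_low hn hA hc hc1 (hfn u) (hPop u).supp (havg u) hm1 hb0 hb1 (hlow u hu2)
      (hrob u hu1)
  have hb4 : 0 < b / 4 := by positivity
  have hstep : ∀ u, L * n ≤ u → u ≤ 2 * L * n →
      1 / (2 * n) * (c ^ 3 / 11520000 * Real.log b * m * 2 ^ n) ≤
        ∑ x : X n, ph (b / 4) ((P A)^[u] f x) - ∑ x : X n, ph (b / 4) ((P A)^[u + 1] f x) := by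
    intro u hu1 hu2
    have h1 := dissip hn hA (hfn u) hb4
    have h2 := hen u hu1 hu2
    have h3 : 1 / (2 * n) * (c ^ 3 / 11520000 * Real.log b * m * 2 ^ n)
        ≤ 1 / (2 * n) * En A (fun x => gh (b / 4) ((P A)^[u] f x)) :=
      mul_le_mul_of_nonneg_left h2 (by positivity)
    simp only [Function.iterate_succ_apply']
    linarith
  have hsum : ∀ k : ℕ, k ≤ L * n →
      k * (1 / (2 * n) * (c ^ 3 / 11520000 * Real.log b * m * 2 ^ n)) ≤
        ∑ x : X n, ph (b / 4) ((P A)^[L * n] f x)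
          - ∑ x : X n, ph (b / 4) ((P A)^[L * n + k] f x) := by
    intro k
    induction k with
    | zero => intro _; simp
    | succ k ih =>
      intro hk
      have h1 := ih (by omega)
      have h2 := hstep (L * n + k) (by omega) (by
        have : 2 * L * n = L * n + L * n := by ring
        omega)
      have e : L * n + (k + 1) = L * n + k + 1 := by ring
      rw [e]
      push_cast
      linarith
  have hfin := hsum (L * n) le_rfl
  have hphnn : 0 ≤ ∑ x : X n, ph (b / 4) ((P A)^[L * n + L * n] f x) :=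
    Finset.sum_nonneg fun x _ => ph_nonneg hb4 _
  have hup : ∑ x : X n, ph (b / 4) ((P A)^[L * n] f x) ≤ 2 * Real.log b * (m * 2 ^ n) := by
    have hsumf : ∑ x : X n, (P A)^[L * n] f x = m * 2 ^ n := by
      rw [← havg (L * n)]
      unfold avg
      field_simp
    rw [← hsumf, Finset.mul_sum]
    apply Finset.sum_le_sum
    intro x _
    have h1 := ph_le hb4 (hfn (L * n) x) (pg_iter_le hn hB (L * n) x) (by linarith : b / 4 ≤ B)
    have e : B / (b / 4) = 4 * B / b := by
      field_simp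
    rw [e] at h1
    have h2 := mul_le_mul_of_nonneg_left hBb (hfn (L * n) x)
    linarith
  have hlog : 0 < Real.log b := lt_of_lt_of_le (by positivity) hb1
  have hLn : ((L * n : ℕ) : ℝ) * (1 / (2 * n) * (c ^ 3 / 11520000 * Real.log b * m * 2 ^ n))
      = (L : ℝ) * c ^ 3 / 23040000 * (Real.log b * (m * 2 ^ n)) := by
    push_cast
    field_simp
    ring
  rw [hLn] at hfin
  have hq0 : 0 < Real.log b * (m * 2 ^ n) := by positivity
  have h8 : (L : ℝ) * c ^ 3 / 23040000 * (Real.log b * (m * 2 ^ n))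
      ≤ 2 * (Real.log b * (m * 2 ^ n)) := by linarith
  have h9 : (L : ℝ) * c ^ 3 / 23040000 ≤ 2 := le_of_mul_le_mul_right h8 hq0
  have h10 : (46080000 : ℝ) < L * c ^ 3 := by
    rw [div_lt_iff₀ (by positivity)] at hL1
    exact hL1
  linarith

end Pool.Agent.MP_291ce2_pr
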